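import Pool.Agent.Lib.MP_e95c01_co.F.StStar_1

/-!
# Theorem (H): modules StCo, StAdd, StUnc
-/

namespace Pool.Agent.Lib.MP_e95c01_co.F

variable {V : Type} [Fintype V] [DecidableEq V]

namespace C1

open Finset S1

theorem bd_co_sub (G : FG V) (F : Finset V) : G.bd (G.co F) ⊆ G.bd F := by
  intro v hv
  rw [mem_bd] at hv
  obtain ⟨⟨u, hu, huv⟩, h2⟩ := hv
  rw [mem_co] at hu
  by_contra hc
  apply h2
  rw [mem_co]
  refine ⟨fun hF => hu.2 ?_, hc⟩
  exact (mem_bd G F u).2 ⟨⟨v, hF, G.sym v u huv⟩, hu.1⟩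

theorem sub_co_co (G : FG V) (F : Finset V) : F ⊆ G.co (G.co F) := by
  intro v hv
  rw [mem_co]
  refine ⟨fun h => ((mem_co G F v).1 h).1 hv, fun h => ?_⟩
  exact ((mem_bd G F v).1 (bd_co_sub G F h)).2 hv

theorem stCo (G : FG V) : G.StCo := by
  intro F hF
  have h1 := conn' G hF.2.2 (hF.1.mono (sub_co_co G F))
  have h2 : G.bd (G.co F) = G.bd F :=
    eq_of_subset_of_card_le (bd_co_sub G F) (by rw [hF.2.1]; exact h1)
  refine ⟨⟨hF.2.2, by rw [h2]; exact hF.2.1, hF.1.mono (sub_co_co G F)⟩, h2, ?_⟩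
  apply Subset.antisymm
  · intro v hv
    rw [mem_co, h2, mem_co] at hv
    by_contra hc
    exact hv.1 ⟨hc, hv.2⟩
  · exact sub_co_co G F

theorem stUnc (G : FG V) : G.StUnc := by
  intro A B hA hB hne hco
  have a6 := hA.2.1
  have b6 := hB.2.1
  have c1 := conn' G hne (hA.2.2.mono (co_sub G A B))
  have hUne : (A ∪ B).Nonempty := hA.1.mono subset_union_left
  have hcoU : (G.co (A ∪ B)).Nonempty := by
    obtain ⟨w, hw⟩ := hco
    rw [mem_inter, mem_co, mem_co] at hw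
    refine ⟨w, (mem_co G _ w).2 ⟨?_, fun h => ?_⟩⟩
    · rw [mem_union, not_or]
      exact ⟨hw.1.1, hw.2.1⟩
    · have := union_sub G A B h
      simp only [mem_union, mem_sdiff] at this
      tauto
  have c2 := conn' G hUne hcoU
  have q1 := card_le_card (corner_sub G A B)
  have q2 := corner_card A B (G.bd A ∩ G.bd B) (G.bd A) (G.bd B)
  have q3 := card_le_card (union_sub G A B)
  have q4 := card_union_add_card_inter (G.bd A \ B) (G.bd B \ A)
  have q5 : (G.bd A \ B) ∩ (G.bd B \ A) = G.bd A ∩ G.bd B := by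
    ext v
    simp only [mem_inter, mem_sdiff]
    constructor
    · rintro ⟨h1, h2⟩
      exact ⟨h1.1, h2.1⟩
    · rintro ⟨h1, h2⟩
      exact ⟨⟨h1, ((mem_bd G B v).1 h2).2⟩, h2, ((mem_bd G A v).1 h1).2⟩
  rw [q5] at q4
  have p1 := card_sdiff_add_card_inter (G.bd A) B
  have p2 := card_sdiff_add_card_inter (G.bd B) A
  rw [inter_comm (G.bd B) A] at p2
  have e1 : G.bd (A ∩ B) = (A ∩ G.bd B) ∪ (G.bd A ∩ B) ∪ (G.bd A ∩ G.bd B) :=
    eq_of_subset_of_card_le (corner_sub G A B) (by omega)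
  have e2 : G.bd (A ∪ B) = (G.bd A \ B) ∪ (G.bd B \ A) :=
    eq_of_subset_of_card_le (union_sub G A B) (by omega)
  refine ⟨⟨hne, ?_, hA.2.2.mono (co_sub G A B)⟩, ⟨hUne, ?_, hcoU⟩, e1, e2⟩
  · rw [← e1] at q2
    omega
  · rw [← e2] at q4
    omega

theorem split3' (G : FG V) (S B : Finset V) :
    (S.card : ℤ) = ((S ∩ B).card : ℤ) + ((S ∩ G.bd B).card : ℤ) + ((S ∩ G.co B).card : ℤ) := by
  exact_mod_cast split3 G S B

theorem stAdd (G : FG V) : G.StAdd := by
  intro F hF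
  obtain ⟨hF', hbd, -⟩ := stCo G F hF
  have h1 := split3' G univ F
  have h2 := split3' G (univ.filter fun v => G.Low v) F
  have e1 : ∀ S : Finset V, (univ.filter fun v => G.Low v) ∩ S = S.filter fun v => G.Low v := by
    intro S
    ext v
    simp [and_comm]
  simp only [e1, univ_inter, card_univ] at h1 h2
  have h6 : ((G.bd F).card : ℤ) = 6 := by exact_mod_cast hF.2.1
  have h3 : ∑ w ∈ (G.bd F).filter (fun v => G.Low v),
      (2 * ((G.N w ∩ F).card : ℤ) + ((G.N w ∩ G.bd F).card : ℤ) - 3) +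
      ∑ w ∈ (G.bd F).filter (fun v => G.Low v),
      (2 * ((G.N w ∩ G.co F).card : ℤ) + ((G.N w ∩ G.bd F).card : ℤ) - 3) =
      6 * (((G.bd F).filter fun v => G.Low v).card : ℤ) := by
    rw [← sum_add_distrib]
    have : ∀ w ∈ (G.bd F).filter (fun v => G.Low v),
        (2 * ((G.N w ∩ F).card : ℤ) + ((G.N w ∩ G.bd F).card : ℤ) - 3) +
        (2 * ((G.N w ∩ G.co F).card : ℤ) + ((G.N w ∩ G.bd F).card : ℤ) - 3) = 6 := by
      intro w hw
      have h4 := split3' G (G.N w) F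
      have h5 : ((G.N w).card : ℤ) = 6 := by
        have : (G.N w).card = 6 := (mem_filter.1 hw).2
        exact_mod_cast this
      rw [h5] at h4
      linarith
    rw [sum_congr rfl this, sum_const, nsmul_eq_mul]
    ring
  unfold FG.Psi
  rw [hbd]
  unfold FG.lo
  rw [h2]
  linarith

end C1

/-- M1a -/
theorem stCo_1 (G : FG V) : G.StCo := C1.stCo G

/-- M1b -/
theorem stAdd_1 (G : FG V) : G.StAdd := C1.stAdd G

/-- M1c -/
theorem stUnc_1 (G : FG V) : G.StUnc := C1.stUnc G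

end Pool.Agent.Lib.MP_e95c01_co.F
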