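import Pool.Agent.Lib.MP_e95c01_co.F.StmtsT

/-!
# The example with nine vertices
-/

namespace Pool.Agent.Lib.MP_e95c01_co.F

theorem ex_aux67 : ∀ x y : ZMod (3 * 3),
    (∃ d ∈ MP_e95c01_co.F (res 3 x), y = x + (d : ZMod (3 * 3))) →
    ∃ w : ZMod (3 * 3), res 3 w = 0 ∧
      (∃ d ∈ MP_e95c01_co.F (res 3 w), x = w + (d : ZMod (3 * 3))) ∧
      (∃ d ∈ MP_e95c01_co.F (res 3 w), y = w + (d : ZMod (3 * 3))) := by
  decide +kernel

theorem stEx_67 : StEx := by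
  intro x y h
  rw [adj_iff (le_refl 3)] at h
  obtain ⟨w, h1, h2, h3⟩ := ex_aux67 x y h
  refine ⟨w, ?_, ?_, ?_⟩
  · rw [nbr_card (le_refl 3), F_card]
    exact h1
  · rw [adj_iff (le_refl 3)]
    exact h2
  · rw [adj_iff (le_refl 3)]
    exact h3

end Pool.Agent.Lib.MP_e95c01_co.F
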