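import Pool.Agent.Lib.MP_e95c01_co.F.Stmts

/-!
# The maximal family of far fragments inside a fragment
-/

namespace Pool.Agent.Lib.MP_e95c01_co.F

open Finset

variable {V : Type} [Fintype V] [DecidableEq V]

namespace FG

theorem mem_bd67 {G : FG V} {S : Finset V} {v : V} :
    v ∈ G.bd S ↔ v ∉ S ∧ ∃ u ∈ S, v ∈ G.N u := by
  unfold bd
  simp only [mem_sdiff, mem_biUnion]
  tauto

theorem mem_co67 {G : FG V} {S : Finset V} {v : V} :
    v ∈ G.co S ↔ v ∉ S ∧ v ∉ G.bd S := by
  unfold co
  simp

theorem mem_co67' {G : FG V} {S : Finset V} {v : V} :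
    v ∈ G.co S ↔ v ∉ S ∧ ∀ u ∈ S, v ∉ G.N u := by
  rw [mem_co67, mem_bd67]
  constructor
  · rintro ⟨h1, h2⟩
    exact ⟨h1, fun u hu hv => h2 ⟨h1, u, hu, hv⟩⟩
  · rintro ⟨h1, h2⟩
    exact ⟨h1, fun h => by obtain ⟨-, u, hu, hv⟩ := h; exact h2 u hu hv⟩

theorem co_anti67 {G : FG V} {S T : Finset V} (h : S ⊆ T) : G.co T ⊆ G.co S := by
  intro v hv
  rw [mem_co67'] at hv ⊢
  exact ⟨fun h1 => hv.1 (h h1), fun u hu => hv.2 u (h hu)⟩

theorem conn67 {G : FG V} {S : Finset V} (h : S.Nonempty) (h' : (G.co S).Nonempty) :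
    6 ≤ (G.bd S).card := by
  obtain ⟨v, hv⟩ := h'
  refine G.conn S h ⟨v, (mem_co67'.1 hv).1, ?_⟩
  intro h1
  obtain ⟨u, hu, hvu⟩ := mem_biUnion.1 h1
  exact (mem_co67'.1 hv).2 u hu hvu

theorem far_iff67 {G : FG V} {Q Q' : Finset V} :
    G.Far Q Q' ↔ ∀ v ∈ Q, v ∉ Q' ∧ v ∉ G.bd Q' := by
  unfold Far
  rw [disjoint_left]
  simp only [mem_union, not_or]

theorem far_symm67 {G : FG V} {Q Q' : Finset V} (h : G.Far Q Q') : G.Far Q' Q := by
  rw [far_iff67] at h ⊢
  intro v hv
  refine ⟨fun h1 => (h v h1).1 hv, fun h1 => ?_⟩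
  obtain ⟨-, u, hu, hvu⟩ := mem_bd67.1 h1
  exact (h u hu).2 (mem_bd67.2 ⟨(h u hu).1, v, hv, G.sym _ _ hvu⟩)

/-- families used in the extremal argument -/
def OK67 (G : FG V) (F : Finset V) (O : Finset (Finset V)) : Prop :=
  (∀ Q ∈ O, G.Frag Q ∧ Q ⊂ F ∧ 3 ≤ Q.card) ∧ ∀ Q ∈ O, ∀ Q' ∈ O, Q ≠ Q' → G.Far Q Q'

/-- potential of a family -/
def pot67 (O : Finset (Finset V)) : ℤ := 2 * ((O.biUnion id).card : ℤ) - (O.card : ℤ)

theorem mem_P67 {G : FG V} {O : Finset (Finset V)} {v : V} :
    v ∈ G.P O ↔ ∀ Q ∈ O, v ∉ Q := by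
  unfold P
  simp

/-- replacing the absorbed members -/
theorem step67 {G : FG V} {F : Finset V} {O : Finset (Finset V)} (hO : OK67 G F O)
    (hmax : ∀ O', OK67 G F O' → pot67 O' ≤ pot67 O) {Q' : Finset V} (hf : G.Frag Q')
    (hs : Q' ⊂ F) (h3 : 3 ≤ Q'.card) (hb : ∀ Q ∈ O, Q ⊆ Q' ∨ G.Far Q Q') : Q' ∈ O := by
  classical
  set A := O.filter fun Q => Q ⊆ Q' with hA
  set B := O.filter fun Q => ¬ Q ⊆ Q' with hB
  have hAB : A.card + B.card = O.card := card_filter_add_card_filter_not _
  have hfar : ∀ Q ∈ B, G.Far Q Q' := by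
    intro Q hQ
    rcases hb Q (mem_filter.1 hQ).1 with h | h
    · exact absurd h (mem_filter.1 hQ).2
    · exact h
  have hQB : Q' ∉ B := fun h => (mem_filter.1 h).2 (Subset.refl _)
  have hOK : OK67 G F (insert Q' B) := by
    constructor
    · intro Q hQ
      rcases mem_insert.1 hQ with rfl | h
      · exact ⟨hf, hs, h3⟩
      · exact hO.1 Q (mem_filter.1 h).1
    · intro Q hQ R hR hne
      rcases mem_insert.1 hQ with h1 | h1
      · rcases mem_insert.1 hR with h2 | h2
        · exact absurd (h1.trans h2.symm) hne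
        · rw [h1]
          exact far_symm67 (hfar R h2)
      · rcases mem_insert.1 hR with h2 | h2
        · rw [h2]
          exact hfar Q h1
        · exact hO.2 Q (mem_filter.1 h1).1 R (mem_filter.1 h2).1 hne
  have hm := hmax _ hOK
  unfold pot67 at hm
  have hU : (insert Q' B).biUnion id = Q' ∪ O.biUnion id := by
    ext v
    simp only [mem_biUnion, mem_insert, id, mem_union, hB, mem_filter]
    constructor
    · rintro ⟨Q, hQ | hQ, hv⟩
      · left; rwa [← hQ]
      · right; exact ⟨Q, hQ.1, hv⟩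
    · rintro (h | ⟨Q, hQ, hv⟩)
      · exact ⟨Q', Or.inl rfl, h⟩
      · by_cases hs' : Q ⊆ Q'
        · exact ⟨Q', Or.inl rfl, hs' hv⟩
        · exact ⟨Q, Or.inr ⟨hQ, hs'⟩, hv⟩
  rw [hU, card_insert_of_notMem hQB] at hm
  have hle : (O.biUnion id).card ≤ (Q' ∪ O.biUnion id).card := card_le_card subset_union_right
  by_cases hsub : Q' ⊆ O.biUnion id
  · -- no growth
    have hA1 : A.card ≤ 1 := by
      push_cast at hm
      have : ((O.biUnion id).card : ℤ) ≤ (Q' ∪ O.biUnion id).card := by exact_mod_cast hle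
      have h2 : (A.card : ℤ) + B.card = O.card := by exact_mod_cast hAB
      have : (A.card : ℤ) ≤ 1 := by linarith
      exact_mod_cast this
    have hin : ∀ v ∈ Q', ∃ Q ∈ A, v ∈ Q := by
      intro v hv
      obtain ⟨Q, hQ, hvQ⟩ := mem_biUnion.1 (hsub hv)
      rcases hb Q hQ with h | h
      · exact ⟨Q, mem_filter.2 ⟨hQ, h⟩, hvQ⟩
      · exact absurd hv (far_iff67.1 h v hvQ).1
    obtain ⟨v0, hv0⟩ := hf.1
    obtain ⟨Q1, hQ1, hv1⟩ := hin v0 hv0
    have hQ1' : Q1 = Q' := by
      apply Subset.antisymm (mem_filter.1 hQ1).2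
      intro v hv
      obtain ⟨Q2, hQ2, hv2⟩ := hin v hv
      rw [card_le_one.1 hA1 Q1 hQ1 Q2 hQ2]
      exact hv2
    rw [← hQ1']
    exact (mem_filter.1 hQ1).1
  · -- growth
    exfalso
    have hlt : (O.biUnion id).card < (Q' ∪ O.biUnion id).card := by
      apply card_lt_card
      refine ⟨subset_union_right, fun h => hsub (subset_union_left.trans h)⟩
    push_cast at hm
    have h1 : ((O.biUnion id).card : ℤ) + 1 ≤ (Q' ∪ O.biUnion id).card := by exact_mod_cast hlt
    have h2 : (A.card : ℤ) + B.card = O.card := by exact_mod_cast hAB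
    have h3 : (0 : ℤ) ≤ A.card := by positivity
    linarith

/-- an uncovered edge leaving the family lies in the boundary of a member -/
theorem cov67 {G : FG V} (hUnc : G.StUnc) (hTouch : G.StTouch) (hStar : G.StStar) (hcr : G.Crit)
    {F : Finset V} (hF : G.Frag F) (h4 : 4 ≤ F.card) (hc3 : 3 ≤ (G.co F).card)
    {O : Finset (Finset V)} (hO : OK67 G F O)
    (hmax : ∀ O', OK67 G F O' → pot67 O' ≤ pot67 O) {x y : V} (hxF : x ∈ F)
    (hx : ∀ Q ∈ O, x ∉ Q) (hy : ∀ Q ∈ O, y ∉ Q) (hxy : y ∈ G.N x) (hnc : ¬ G.Cov x y) :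
    ∃ Q ∈ O, x ∈ G.bd Q ∧ y ∈ G.bd Q := by
  classical
  -- candidates
  set C := (univ : Finset (Finset V)).filter fun Q =>
    G.Frag Q ∧ Q ⊂ F ∧ x ∈ G.bd Q ∧ y ∈ G.bd Q with hC
  have hCne : C.Nonempty := by
    rcases hStar hcr F x y hF (by omega) hc3 hxF hxy hnc with ⟨Q, h1, h2, -, h3, h4⟩ | ⟨h, -⟩
    · exact ⟨Q, by simp only [hC, mem_filter, mem_univ, true_and]; exact ⟨h1, h2, h3, h4⟩⟩
    · omega
  set bad : Finset V → Finset (Finset V) := fun Q' =>
    O.filter fun Q => ¬ (Q ⊆ Q' ∨ G.Far Q Q') with hbad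
  obtain ⟨Q', hQ'C, hmin⟩ := exists_min_image C (fun Q => (bad Q).card) hCne
  simp only [hC, mem_filter, mem_univ, true_and] at hQ'C hmin
  obtain ⟨hf, hs, hbx, hby⟩ := hQ'C
  have h3 : 3 ≤ Q'.card := hcr.2 Q' x y hf hbx hby hxy hnc
  -- a better candidate
  have better : ∀ R Qi, Qi ∈ bad Q' → G.Frag R → R ⊆ F → x ∈ G.bd R → y ∈ G.bd R →
      (∀ Q ∈ O, Q ≠ Qi → Q ⊆ Q' → Q ⊆ R) → (∀ Q ∈ O, Q ≠ Qi → G.Far Q Q' → G.Far Q R) →
      (Qi ⊆ R ∨ G.Far Qi R) → False := by
    intro R Qi hQi hfR hsR hxR hyR k1 k2 k3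
    have hsR' : R ⊂ F := ⟨hsR, fun h => (mem_bd67.1 hxR).1 (h hxF)⟩
    have h5 := hmin R ⟨hfR, hsR', hxR, hyR⟩
    have h6 : bad R ⊂ bad Q' := by
      rw [ssubset_iff_subset_ne]
      constructor
      · intro Q hQ
        simp only [hbad, mem_filter] at hQ ⊢
        refine ⟨hQ.1, fun h => hQ.2 ?_⟩
        by_cases he : Q = Qi
        · rw [he]; exact k3
        · rcases h with h | h
          · exact Or.inl (k1 Q hQ.1 he h)
          · exact Or.inr (k2 Q hQ.1 he h)
      · intro he
        rw [← he] at hQi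
        exact (mem_filter.1 hQi).2 k3
    have := card_lt_card h6
    omega
  have hnb : ∀ Q ∈ O, Q ⊆ Q' ∨ G.Far Q Q' := by
    intro Qi hQi
    by_contra hcon
    have hbi : Qi ∈ bad Q' := mem_filter.2 ⟨hQi, hcon⟩
    obtain ⟨hfi, hsi, h3i⟩ := hO.1 Qi hQi
    have hcc : (G.co Q' ∩ G.co Qi).Nonempty := by
      obtain ⟨v, hv⟩ := hF.2.2
      exact ⟨v, mem_inter.2 ⟨co_anti67 hs.1 hv, co_anti67 hsi.1 hv⟩⟩
    -- the union is a candidate
    have hun : G.Frag (Q' ∪ Qi) → G.bd (Q' ∪ Qi) = (G.bd Q' \ Qi) ∪ (G.bd Qi \ Q') → False := by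
      intro h1 h2
      refine better _ Qi hbi h1 (union_subset hs.1 hsi.1) ?_ ?_ ?_ ?_ (Or.inl subset_union_right)
      · rw [h2]; exact mem_union_left _ (mem_sdiff.2 ⟨hbx, hx Qi hQi⟩)
      · rw [h2]; exact mem_union_left _ (mem_sdiff.2 ⟨hby, hy Qi hQi⟩)
      · intro Q _ _ h; exact h.trans subset_union_left
      · intro Q hQ hne h
        have h' := hO.2 Q hQ Qi hQi hne
        rw [far_iff67] at h h' ⊢
        intro v hv
        rw [h2]
        simp only [mem_union, mem_sdiff, not_or, not_and_or]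
        exact ⟨⟨(h v hv).1, (h' v hv).1⟩, Or.inl (h v hv).2, Or.inl (h' v hv).2⟩
    by_cases hi : (Q' ∩ Qi).Nonempty
    · obtain ⟨-, h1, -, h2⟩ := hUnc Q' Qi hf hfi hi hcc
      exact hun h1 h2
    · have hd : Disjoint Q' Qi := by
        rw [disjoint_iff_inter_eq_empty]
        exact not_nonempty_iff_eq_empty.1 hi
      have hne : (Q' ∩ G.bd Qi).Nonempty := by
        have hnf : ¬ G.Far Q' Qi := fun h => hcon (Or.inr (far_symm67 h))
        rw [far_iff67] at hnf
        push Not at hnf
        obtain ⟨v, hv, h⟩ := hnf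
        exact ⟨v, mem_inter.2 ⟨hv, h (disjoint_left.1 hd hv)⟩⟩
      rcases hTouch Q' Qi hf hfi h3 h3i hd hne hcc with ⟨h1, h2⟩ | ⟨h1, h2⟩
      · refine better _ Qi hbi h1 (sdiff_subset.trans hs.1) ?_ ?_ ?_ ?_ (Or.inr ?_)
        · rw [h2]; exact mem_union_right _ (mem_sdiff.2 ⟨hbx, hx Qi hQi⟩)
        · rw [h2]; exact mem_union_right _ (mem_sdiff.2 ⟨hby, hy Qi hQi⟩)
        · intro Q hQ hne' h v hv
          exact mem_sdiff.2 ⟨h hv, (far_iff67.1 (hO.2 Q hQ Qi hQi hne') v hv).2⟩
        · intro Q hQ hne' h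
          rw [far_iff67] at h ⊢
          intro v hv
          rw [h2]
          simp only [mem_union, mem_sdiff, mem_inter, not_or, not_and_or]
          exact ⟨Or.inl (h v hv).1, Or.inl (h v hv).1, Or.inl (h v hv).2⟩
        · rw [far_iff67]
          intro v hv
          rw [h2]
          simp only [mem_union, mem_sdiff, mem_inter, not_or, not_and_or]
          have := disjoint_right.1 hd hv
          exact ⟨Or.inl this, Or.inl this, Or.inr (not_not.2 hv)⟩
      · exact hun h1 h2
  exact ⟨Q', step67 hO hmax hf hs h3 hnb, hbx, hby⟩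

theorem stFam_67 (G : FG V) (hCo : G.StCo) (hUnc : G.StUnc) (hTouch : G.StTouch)
    (hStar : G.StStar) : G.StFam := by
  classical
  intro hcr F hF h4 hc3
  obtain ⟨hcF, hbcF, hccF⟩ := hCo F hF
  obtain ⟨O, hOm, hmax'⟩ := exists_max_image
    ((univ : Finset (Finset (Finset V))).filter fun O => OK67 G F O) pot67
    ⟨∅, by simp [OK67]⟩
  simp only [mem_filter, mem_univ, true_and] at hOm hmax'
  have hO : OK67 G F O := hOm
  have hcoF : ∀ Q ∈ O, Q ≠ G.co F := by
    intro Q hQ h
    obtain ⟨v, hv⟩ := (hO.1 Q hQ).1.1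
    have h1 := hv
    rw [h] at h1
    exact (mem_co67.1 h1).1 ((hO.1 Q hQ).2.1.1 hv)
  have hfarc : ∀ Q ∈ O, G.Far Q (G.co F) := by
    intro Q hQ
    rw [far_iff67]
    intro v hv
    have hvF := (hO.1 Q hQ).2.1.1 hv
    refine ⟨fun h => (mem_co67.1 h).1 hvF, fun h => ?_⟩
    rw [hbcF] at h
    exact (mem_bd67.1 h).1 hvF
  have hPF : ∀ v ∈ G.P (insert (G.co F) O), v ∈ F ∨ v ∈ G.bd F := by
    intro v hv
    by_contra h
    push Not at h
    exact mem_P67.1 hv (G.co F) (mem_insert_self _ _) (mem_co67.2 h)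
  refine ⟨O, hO.1, ⟨?_, ?_⟩, ?_, ?_⟩
  · intro Q hQ
    rcases mem_insert.1 hQ with rfl | h
    · exact hcF
    · exact (hO.1 Q h).1
  · intro Q hQ R hR hne
    rcases mem_insert.1 hQ with h1 | h1
    · rcases mem_insert.1 hR with h2 | h2
      · exact absurd (h1.trans h2.symm) hne
      · rw [h1]
        exact far_symm67 (hfarc R h2)
    · rcases mem_insert.1 hR with h2 | h2
      · rw [h2]
        exact hfarc Q h1
      · exact hO.2 Q h1 R h2 hne
  · -- covering
    intro x hx y hy hxy hno
    by_contra hnc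
    have hxO : ∀ Q ∈ O, x ∉ Q := fun Q hQ => mem_P67.1 hx Q (mem_insert_of_mem hQ)
    have hyO : ∀ Q ∈ O, y ∉ Q := fun Q hQ => mem_P67.1 hy Q (mem_insert_of_mem hQ)
    rcases hPF x hx with hxF | hxF
    · obtain ⟨Q, hQ, h1, h2⟩ := cov67 hUnc hTouch hStar hcr hF h4 hc3 hO hmax' hxF hxO hyO hxy hnc
      exact hno Q (mem_insert_of_mem hQ) ⟨h1, h2⟩
    · rcases hPF y hy with hyF | hyF
      · have hnc' : ¬ G.Cov y x := by
          rintro ⟨w, h1, h2, h3⟩
          exact hnc ⟨w, h1, h3, h2⟩
        obtain ⟨Q, hQ, h1, h2⟩ := cov67 hUnc hTouch hStar hcr hF h4 hc3 hO hmax' hyF hyO hxO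
          (G.sym _ _ hxy) hnc'
        exact hno Q (mem_insert_of_mem hQ) ⟨h2, h1⟩
      · refine hno (G.co F) (mem_insert_self _ _) ?_
        rw [hbcF]
        exact ⟨hxF, hyF⟩
  · -- no pendant vertices, or the exceptional case
    by_cases hnp : G.NoPend (insert (G.co F) O)
    · exact Or.inl hnp
    · right
      unfold NoPend at hnp
      push Not at hnp
      obtain ⟨Q0, hQ0, w, hw, -, hJ, hcard⟩ := hnp
      have hJ' : ∀ Q ∈ insert (G.co F) O, w ∈ G.bd Q → Q = Q0 := by
        intro Q hQ h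
        have : Q ∈ G.J (insert (G.co F) O) w := mem_filter.2 ⟨hQ, h⟩
        rw [hJ] at this
        exact mem_singleton.1 this
      have hwQ0 : w ∈ G.bd Q0 := by
        have : Q0 ∈ G.J (insert (G.co F) O) w := by rw [hJ]; exact mem_singleton_self _
        exact (mem_filter.1 this).2
      have hwP : ∀ Q ∈ insert (G.co F) O, w ∉ Q := mem_P67.1 hw
      -- neighbours of `w`
      have hnb : ∀ v ∈ G.N w, v ∈ Q0 ∨ v ∈ G.P (insert (G.co F) O) := by
        intro v hv
        by_cases h : v ∈ G.P (insert (G.co F) O)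
        · exact Or.inr h
        · left
          rw [mem_P67] at h
          push Not at h
          obtain ⟨Q, hQ, hvQ⟩ := h
          rw [← hJ' Q hQ (mem_bd67.2 ⟨hwP Q hQ, v, hvQ, G.sym _ _ hv⟩)]
          exact hvQ
      set Y := (G.N w ∩ G.P (insert (G.co F) O)) \ G.bd Q0 with hY
      rcases mem_insert.1 hQ0 with hQc | hQO
      · -- `Q0 = co F`
        rw [hQc, hbcF] at hwQ0
        have hYF : G.N w ∩ F ⊆ Y := by
          intro v hv
          rw [mem_inter] at hv
          rw [hY, mem_sdiff, mem_inter]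
          refine ⟨⟨hv.1, ?_⟩, ?_⟩
          · rcases hnb v hv.1 with h | h
            · rw [hQc] at h
              exact absurd hv.2 (mem_co67.1 h).1
            · exact h
          · rw [hQc, hbcF]
            exact fun h => (mem_bd67.1 h).1 hv.2
        obtain ⟨hwF, y, hyF, hwy⟩ := mem_bd67.1 hwQ0
        have hyw : y ∈ G.N w ∩ F := mem_inter.2 ⟨G.sym _ _ hwy, hyF⟩
        have hYy : ∀ v ∈ G.N w ∩ F, v = y := by
          intro v hv
          exact card_le_one.1 (by omega : Y.card ≤ 1) v (hYF hv) y (hYF hyw)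
        have hyP : y ∈ G.P (insert (G.co F) O) := by
          have := hYF hyw
          rw [hY, mem_sdiff, mem_inter] at this
          exact this.1.2
        have hyO : ∀ Q ∈ O, y ∉ Q := fun Q hQ => mem_P67.1 hyP Q (mem_insert_of_mem hQ)
        have hcE : (F.erase y).card = F.card - 1 := card_erase_of_mem hyF
        have hbE : G.bd (F.erase y) ⊆ insert y ((G.bd F).erase w) := by
          intro v hv
          obtain ⟨h1, u, hu, hvu⟩ := mem_bd67.1 hv
          by_cases hvy : v = y
          · exact mem_insert.2 (Or.inl hvy)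
          · have hvF : v ∉ F := fun h => h1 (mem_erase.2 ⟨hvy, h⟩)
            refine mem_insert_of_mem (mem_erase.2 ⟨?_, mem_bd67.2 ⟨hvF, u, (mem_erase.1 hu).2, hvu⟩⟩)
            rintro rfl
            exact (mem_erase.1 hu).1 (hYy u (mem_inter.2 ⟨G.sym _ _ hvu, (mem_erase.1 hu).2⟩))
        have hbEc : (G.bd (F.erase y)).card ≤ 6 := by
          refine (card_le_card hbE).trans ((card_insert_le _ _).trans ?_)
          rw [card_erase_of_mem hwQ0, hF.2.1]
        have hne : (F.erase y).Nonempty := by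
          rw [← card_pos]; omega
        have hcne : (G.co (F.erase y)).Nonempty := hF.2.2.mono (co_anti67 (erase_subset _ _))
        have hfE : G.Frag (F.erase y) := ⟨hne, le_antisymm hbEc (conn67 hne hcne), hcne⟩
        have hOKE : OK67 G F {F.erase y} := by
          constructor
          · intro Q hQ
            rw [mem_singleton.1 hQ]
            exact ⟨hfE, erase_ssubset hyF, by omega⟩
          · intro Q hQ R hR h
            exact absurd ((mem_singleton.1 hQ).trans (mem_singleton.1 hR).symm) h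
        have hm := hmax' _ hOKE
        unfold pot67 at hm
        rw [singleton_biUnion, card_singleton, id, hcE] at hm
        have hUs : O.biUnion id ⊆ F.erase y := by
          intro v hv
          obtain ⟨Q, hQ, hvQ⟩ := mem_biUnion.1 hv
          refine mem_erase.2 ⟨?_, (hO.1 Q hQ).2.1.1 hvQ⟩
          rintro rfl
          exact hyO Q hQ hvQ
        have hUc := card_le_card hUs
        rw [hcE] at hUc
        have hO1 : O.card = 1 := by
          rcases Nat.eq_zero_or_pos O.card with h0 | h0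
          · exfalso
            rw [card_eq_zero.1 h0] at hm
            simp only [biUnion_empty, card_empty] at hm
            omega
          · omega
        obtain ⟨Q, hQ⟩ := card_eq_one.1 hO1
        refine ⟨Q, y, hQ, hyO Q (by rw [hQ]; exact mem_singleton_self _), ?_⟩
        rw [hQ, singleton_biUnion, card_singleton, id] at hm
        rw [hQ, singleton_biUnion, id] at hUs
        have : Q = F.erase y := by
          apply eq_of_subset_of_card_le hUs
          rw [hcE]
          omega
        rw [this, insert_erase hyF]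
      · -- `Q0 ∈ O`
        obtain ⟨hf0, hs0, h30⟩ := hO.1 Q0 hQO
        have hwF : w ∈ F := by
          rcases hPF w hw with h | h
          · exact h
          · rw [← hbcF] at h
            exact absurd (hJ' _ (mem_insert_self _ _) h).symm (hcoF Q0 hQO)
        have hwQ : w ∉ Q0 := hwP Q0 hQ0
        have hsub : insert w Q0 ⊆ F := insert_subset hwF hs0.1
        have hbI : G.bd (insert w Q0) ⊆ (G.bd Q0).erase w ∪ Y := by
          intro v hv
          obtain ⟨h1, u, hu, hvu⟩ := mem_bd67.1 hv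
          rw [mem_insert, not_or] at h1
          by_cases hvb : v ∈ G.bd Q0
          · exact mem_union_left _ (mem_erase.2 ⟨h1.1, hvb⟩)
          · rcases mem_insert.1 hu with h | h
            · rw [h] at hvu
              refine mem_union_right _ (mem_sdiff.2 ⟨mem_inter.2 ⟨hvu, ?_⟩, hvb⟩)
              rcases hnb v hvu with h | h
              · exact absurd h h1.2
              · exact h
            · exact absurd (mem_bd67.2 ⟨h1.2, u, h, hvu⟩) hvb
        have hbIc : (G.bd (insert w Q0)).card ≤ 6 := by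
          refine (card_le_card hbI).trans ((card_union_le _ _).trans ?_)
          rw [card_erase_of_mem hwQ0, hf0.2.1]
          omega
        have hne : (insert w Q0).Nonempty := insert_nonempty _ _
        have hcne : (G.co (insert w Q0)).Nonempty := hF.2.2.mono (co_anti67 hsub)
        have hfI : G.Frag (insert w Q0) := ⟨hne, le_antisymm hbIc (conn67 hne hcne), hcne⟩
        by_cases hEq : insert w Q0 = F
        · refine ⟨Q0, w, ?_, hwQ, hEq.symm⟩
          rw [eq_singleton_iff_unique_mem]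
          refine ⟨hQO, fun Q hQ => ?_⟩
          by_contra hne'
          have hfar := far_iff67.1 (hO.2 Q hQ Q0 hQO hne')
          have hQw : Q ⊆ {w} := by
            intro v hv
            have h1 := (hO.1 Q hQ).2.1.1 hv
            rw [← hEq] at h1
            rcases mem_insert.1 h1 with h | h
            · exact mem_singleton.2 h
            · exact absurd h (hfar v hv).1
          have := card_le_card hQw
          rw [card_singleton] at this
          have := (hO.1 Q hQ).2.2
          omega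
        · exfalso
          have hss : insert w Q0 ⊂ F := lt_of_le_of_ne hsub hEq
          have hin : insert w Q0 ∈ O := by
            -- use the exchange with the members contained in `insert w Q0`
            refine step67 hO hmax' hfI hss ?_ ?_
            · exact h30.trans (card_le_card (subset_insert _ _))
            · intro Q hQ
              by_cases he : Q = Q0
              · rw [he]; exact Or.inl (subset_insert _ _)
              · right
                have hfar := far_iff67.1 (hO.2 Q hQ Q0 hQO he)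
                rw [far_iff67]
                intro v hv
                have hvw : v ≠ w := by
                  rintro rfl
                  exact hwP Q (mem_insert_of_mem hQ) hv
                refine ⟨fun h => ?_, fun h => ?_⟩
                · rcases mem_insert.1 h with h | h
                  · exact hvw h
                  · exact (hfar v hv).1 h
                · rcases mem_union.1 (hbI h) with h | h
                  · exact (hfar v hv).2 (mem_erase.1 h).2
                  · rw [hY, mem_sdiff, mem_inter] at h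
                    exact mem_P67.1 h.1.2 Q (mem_insert_of_mem hQ) hv
          exact hwP _ (mem_insert_of_mem hin) (mem_insert_self _ _)

end FG

end Pool.Agent.Lib.MP_e95c01_co.F
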