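import Pool.Agent.Lib.MP_e95c01_co.F.Stmts

/-!
# Theorem (H): modules StLam and StBal
-/

namespace Pool.Agent.Lib.MP_e95c01_co.F

variable {V : Type} [Fintype V] [DecidableEq V]

namespace L1

open Finset

theorem mem_bd (G : FG V) (S : Finset V) (v : V) :
    v ∈ G.bd S ↔ (∃ u ∈ S, v ∈ G.N u) ∧ v ∉ S := by
  simp only [FG.bd, mem_sdiff, mem_biUnion]

theorem mem_P (G : FG V) (O : Finset (Finset V)) (v : V) :
    v ∈ G.P O ↔ ∀ Q ∈ O, v ∉ Q := by
  unfold FG.P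
  rw [mem_sdiff, mem_biUnion]
  simp

theorem mem_J (G : FG V) (O : Finset (Finset V)) (v : V) (Q : Finset V) :
    Q ∈ G.J O v ↔ Q ∈ O ∧ v ∈ G.bd Q := by
  unfold FG.J
  rw [mem_filter]

theorem bd_sub_P (G : FG V) {O : Finset (Finset V)} (hF : G.Fam O) {Q : Finset V} (hQ : Q ∈ O) :
    G.bd Q ⊆ G.P O := by
  intro v hv
  rw [mem_P]
  intro Q' hQ' hvQ'
  by_cases h : Q' = Q
  · subst h
    exact ((mem_bd G _ _).1 hv).2 hvQ'
  · have := hF.2 Q' hQ' Q hQ h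
    exact (disjoint_left.1 this) hvQ' (mem_union_right _ hv)

theorem card_split (G : FG V) {O : Finset (Finset V)} (hF : G.Fam O) (S : Finset V) :
    S.card = (S ∩ G.P O).card + ∑ Q ∈ O, (S ∩ Q).card := by
  have h1 : S = (S ∩ G.P O) ∪ O.biUnion (fun Q => S ∩ Q) := by
    ext v
    simp only [mem_union, mem_inter, mem_biUnion, mem_P]
    constructor
    · intro hv
      by_cases h : ∀ Q ∈ O, v ∉ Q
      · exact Or.inl ⟨hv, h⟩
      · push Not at h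
        obtain ⟨Q, hQ, hvQ⟩ := h
        exact Or.inr ⟨Q, hQ, hv, hvQ⟩
    · rintro (h | ⟨Q, _, h, _⟩)
      · exact h.1
      · exact h
  have h2 : Disjoint (S ∩ G.P O) (O.biUnion (fun Q => S ∩ Q)) := by
    rw [disjoint_left]
    intro v hv hv2
    rw [mem_inter, mem_P] at hv
    rw [mem_biUnion] at hv2
    obtain ⟨Q, hQ, h⟩ := hv2
    exact hv.2 Q hQ (mem_inter.1 h).2
  have h3 : (O.biUnion (fun Q => S ∩ Q)).card = ∑ Q ∈ O, (S ∩ Q).card := by
    apply card_biUnion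
    intro Q hQ Q' hQ' hne
    show Disjoint (S ∩ Q) (S ∩ Q')
    rw [disjoint_left]
    intro v hv hv'
    have := hF.2 Q hQ Q' hQ' hne
    exact (disjoint_left.1 this) (mem_inter.1 hv).2 (mem_union_left _ (mem_inter.1 hv').2)
  conv_lhs => rw [h1]
  rw [card_union_of_disjoint h2, h3]

/-- exchanging the order of summation -/
theorem sum_J (G : FG V) {O : Finset (Finset V)} (hF : G.Fam O) (p : V → Prop)
    [DecidablePred p] (g : Finset V → V → ℤ) :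
    ∑ Q ∈ O, ∑ w ∈ (G.bd Q).filter p, g Q w =
      ∑ w ∈ (G.P O).filter p, ∑ Q ∈ G.J O w, g Q w := by
  apply sum_comm'
  intro Q w
  rw [mem_filter, mem_filter, mem_J]
  constructor
  · rintro ⟨hQ, hw, hp⟩
    exact ⟨⟨hQ, hw⟩, bd_sub_P G hF hQ hw, hp⟩
  · rintro ⟨⟨hQ, hw⟩, _, hp⟩
    exact ⟨hQ, hw, hp⟩

theorem sum_J' (G : FG V) {O : Finset (Finset V)} (hF : G.Fam O) (g : Finset V → V → ℤ) :
    ∑ Q ∈ O, ∑ w ∈ G.bd Q, g Q w = ∑ w ∈ G.P O, ∑ Q ∈ G.J O w, g Q w := by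
  apply sum_comm'
  intro Q w
  rw [mem_J]
  constructor
  · rintro ⟨hQ, hw⟩
    exact ⟨⟨hQ, hw⟩, bd_sub_P G hF hQ hw⟩
  · rintro ⟨⟨hQ, hw⟩, _⟩
    exact ⟨hQ, hw⟩

theorem sup_eq (G : FG V) {O : Finset (Finset V)} (hF : G.Fam O) (w : V) (hw : w ∈ G.P O)
    (hl : G.Low w) :
    G.sup O w = 6 - ∑ Q ∈ G.J O w,
      (2 * ((G.N w ∩ Q).card : ℤ) + ((G.N w ∩ G.bd Q).card : ℤ) - 3) := by
  have h1 := card_split G hF (G.N w)
  have h2 : ∑ Q ∈ O, (G.N w ∩ Q).card = ∑ Q ∈ G.J O w, (G.N w ∩ Q).card := by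
    symm
    apply sum_subset
    · exact filter_subset _ _
    · intro Q hQ hQJ
      rw [card_eq_zero]
      by_contra hne
      obtain ⟨y, hy⟩ := nonempty_iff_ne_empty.2 hne
      rw [mem_inter] at hy
      apply hQJ
      rw [mem_J]
      exact ⟨hQ, (mem_bd G Q w).2 ⟨⟨y, hy.2, G.sym y w hy.1⟩, (mem_P G O w).1 hw Q hQ⟩⟩
  have h3 : (G.N w).card = 6 := hl
  rw [h2, h3] at h1
  have h4 : (6 : ℤ) = ((G.N w ∩ G.P O).card : ℤ) + ∑ Q ∈ G.J O w, ((G.N w ∩ Q).card : ℤ) := by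
    exact_mod_cast h1
  have h5 : ∑ Q ∈ G.J O w, (2 * ((G.N w ∩ Q).card : ℤ) + ((G.N w ∩ G.bd Q).card : ℤ) - 3) =
      2 * ∑ Q ∈ G.J O w, ((G.N w ∩ Q).card : ℤ) -
        ∑ Q ∈ G.J O w, (3 - ((G.N w ∩ G.bd Q).card : ℤ)) := by
    rw [mul_sum, ← sum_sub_distrib]
    apply sum_congr rfl
    intro Q _
    ring
  rw [h5]
  unfold FG.sup
  linarith

theorem stLam (G : FG V) : G.StLam := by
  intro O hF
  have h1 := card_split G hF univ
  have h2 := card_split G hF (univ.filter fun v => G.Low v)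
  have e1 : ∀ S : Finset V, (univ.filter fun v => G.Low v) ∩ S = S.filter fun v => G.Low v := by
    intro S
    ext v
    simp [and_comm]
  rw [e1] at h2
  simp only [e1, univ_inter, card_univ] at h1 h2
  have h1' : (Fintype.card V : ℤ) = ((G.P O).card : ℤ) + ∑ Q ∈ O, (Q.card : ℤ) := by
    exact_mod_cast h1
  have h2' : (G.lo univ : ℤ) = (G.lo (G.P O) : ℤ) + ∑ Q ∈ O, (G.lo Q : ℤ) := by
    unfold FG.lo
    exact_mod_cast h2
  have h3 : ∑ Q ∈ O, G.Psi Q = 6 * (∑ Q ∈ O, (G.lo Q : ℤ)) - 2 * (∑ Q ∈ O, (Q.card : ℤ)) -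
      6 * (O.card : ℤ) + ∑ Q ∈ O, ∑ w ∈ (G.bd Q).filter (fun v => G.Low v),
        (2 * ((G.N w ∩ Q).card : ℤ) + ((G.N w ∩ G.bd Q).card : ℤ) - 3) := by
    unfold FG.Psi
    rw [sum_add_distrib, sum_sub_distrib, sum_sub_distrib, mul_sum, mul_sum, sum_const]
    simp only [nsmul_eq_mul]
    ring
  have h4 : 6 * (O.card : ℤ) = ∑ v ∈ G.P O, ((G.J O v).card : ℤ) := by
    have a1 := sum_J' G hF (fun _ _ => 1)
    simp only [sum_const, nsmul_eq_mul, mul_one] at a1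
    rw [← a1]
    have a2 : ∀ Q ∈ O, ((G.bd Q).card : ℤ) = 6 := by
      intro Q hQ
      have := (hF.1 Q hQ).2.1
      exact_mod_cast this
    rw [sum_congr rfl a2, sum_const, nsmul_eq_mul]
    ring
  have h5 := sum_J G hF (fun v => G.Low v)
    (fun Q w => 2 * ((G.N w ∩ Q).card : ℤ) + ((G.N w ∩ G.bd Q).card : ℤ) - 3)
  have h6 : ∑ w ∈ (G.P O).filter (fun v => G.Low v), G.sup O w =
      6 * (G.lo (G.P O) : ℤ) - ∑ w ∈ (G.P O).filter (fun v => G.Low v), ∑ Q ∈ G.J O w,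
        (2 * ((G.N w ∩ Q).card : ℤ) + ((G.N w ∩ G.bd Q).card : ℤ) - 3) := by
    rw [sum_congr rfl (fun w hw => sup_eq G hF w (mem_filter.1 hw).1 (mem_filter.1 hw).2)]
    rw [sum_sub_distrib, sum_const, nsmul_eq_mul]
    unfold FG.lo
    ring
  have h7 : ∑ v ∈ G.P O, (2 - ((G.J O v).card : ℤ)) =
      2 * ((G.P O).card : ℤ) - ∑ v ∈ G.P O, ((G.J O v).card : ℤ) := by
    rw [sum_sub_distrib, sum_const, nsmul_eq_mul]
    ring
  unfold FG.Lam
  rw [h6, h7, ← h4, h3, h5, h1', h2']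
  ring

theorem stBal (G : FG V) : G.StBal := by
  intro O
  have h1 : ∑ w ∈ (G.P O).filter (fun v => G.Low v), (G.rcv O w).card =
      ∑ y ∈ (G.P O).filter (fun v => (G.J O v).card ≤ 1), (G.lowN O y).card := by
    have h := sum_card_bipartiteAbove_eq_sum_card_bipartiteBelow
      (s := (G.P O).filter (fun v => G.Low v))
      (t := (G.P O).filter (fun v => (G.J O v).card ≤ 1)) (fun w y => y ∈ G.N w)
    have e1 : ∀ w, G.rcv O w = bipartiteAbove (fun w y => y ∈ G.N w)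
        ((G.P O).filter (fun v => (G.J O v).card ≤ 1)) w := by
      intro w
      ext y
      simp only [FG.rcv, bipartiteAbove, mem_filter, mem_inter]
      tauto
    have e2 : ∀ y, G.lowN O y = bipartiteBelow (fun w y => y ∈ G.N w)
        ((G.P O).filter (fun v => G.Low v)) y := by
      intro y
      ext w
      simp only [FG.lowN, bipartiteBelow, mem_filter, mem_inter]
      constructor
      · rintro ⟨⟨h1, h2⟩, h3⟩
        exact ⟨⟨h2, h3⟩, G.sym w y h1⟩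
      · rintro ⟨⟨h2, h3⟩, h1⟩
        exact ⟨⟨G.sym y w h1, h2⟩, h3⟩
    simp only [e1, e2]
    exact h
  have h1' : ∑ w ∈ (G.P O).filter (fun v => G.Low v), ((G.rcv O w).card : ℤ) =
      ∑ y ∈ (G.P O).filter (fun v => (G.J O v).card ≤ 1), ((G.lowN O y).card : ℤ) := by
    exact_mod_cast h1
  unfold FG.Lam FG.bal
  have h2 : ∑ v ∈ G.P O, ((if G.Low v then G.sup O v - ((G.rcv O v).card : ℤ) else 0) +
      (if (G.J O v).card ≤ 1 then ((G.lowN O v).card : ℤ) else 0) - 2 + ((G.J O v).card : ℤ)) =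
      ∑ v ∈ G.P O, (if G.Low v then G.sup O v - ((G.rcv O v).card : ℤ) else 0) +
      ∑ v ∈ G.P O, (if (G.J O v).card ≤ 1 then ((G.lowN O v).card : ℤ) else 0) -
      ∑ v ∈ G.P O, (2 - ((G.J O v).card : ℤ)) := by
    rw [← sum_add_distrib, ← sum_sub_distrib]
    apply sum_congr rfl
    intro v _
    ring
  rw [h2, ← sum_filter, ← sum_filter]
  have h3 : ∑ w ∈ (G.P O).filter (fun v => G.Low v), (G.sup O w - ((G.rcv O w).card : ℤ)) =
      ∑ w ∈ (G.P O).filter (fun v => G.Low v), G.sup O w -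
        ∑ y ∈ (G.P O).filter (fun v => (G.J O v).card ≤ 1), ((G.lowN O y).card : ℤ) := by
    rw [sum_sub_distrib, h1']
  rw [h3]
  ring

end L1

/-- M4 -/
theorem stLam_1 (G : FG V) : G.StLam := L1.stLam G

/-- P1 -/
theorem stBal_1 (G : FG V) : G.StBal := L1.stBal G

end Pool.Agent.Lib.MP_e95c01_co.F
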