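import Pool.Agent.Lib.MP_e95c01_co.F.Fam_67

/-!
# The main lemma and the theorem for `FG`
-/

namespace Pool.Agent.Lib.MP_e95c01_co.F

open Finset

variable {V : Type} [Fintype V] [DecidableEq V]

namespace FG

theorem stMain_67 (G : FG V) (hCo : G.StCo) (hAdd : G.StAdd) (hStar : G.StStar)
    (hFam : G.StFam) (hLam : G.StLam) (hPart : G.StPart) (hX1 : G.StX1) (hThree : G.StThree) :
    G.StMain := by
  classical
  intro hcr
  suffices h : ∀ n : ℕ, ∀ F, F.card = n → G.Frag F → 3 ≤ F.card → 3 ≤ (G.co F).card →
      0 ≤ G.Psi F from fun F => h F.card F rfl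
  intro n
  induction n using Nat.strong_induction_on with
  | _ n ih =>
    intro F hn hF h3 hc3
    obtain ⟨hcF, hbcF, hccF⟩ := hCo F hF
    rcases h3.eq_or_lt with h | h4
    · refine hThree F hF h.symm ?_
      intro x hx y hy hxy
      by_contra hnc
      rcases hStar hcr F x y hF h3 hc3 hx hxy hnc with ⟨Q, -, h1, h2, -⟩ | ⟨-, h1⟩
      · have := card_lt_card h1
        omega
      · exact (mem_bd67.1 hy).1 h1
    · obtain ⟨O, hO, hf, hcov, hpe⟩ := hFam hcr F hF h4 hc3
      have hcoF : G.co F ∉ O := by
        intro h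
        obtain ⟨v, hv⟩ := (hO _ h).1.1
        exact (mem_co67.1 hv).1 ((hO _ h).2.1.1 hv)
      have hcQ : ∀ Q ∈ O, (G.co F).card < (G.co Q).card := by
        intro Q hQ
        apply card_lt_card
        rw [ssubset_iff_subset_ne]
        refine ⟨co_anti67 (hO Q hQ).2.1.1, fun h => ?_⟩
        have h1 := (hCo Q (hO Q hQ).1).2.2
        rw [← h, hccF] at h1
        exact (hO Q hQ).2.1.ne h1.symm
      have hlam : 0 ≤ G.Lam (insert (G.co F) O) := by
        rcases hpe with h | ⟨Q, y, h1, h2, h5⟩
        · refine hPart _ (insert_nonempty _ _) hf hcov h ?_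
          intro Q hQ
          rcases mem_insert.1 hQ with rfl | hQ
          · rw [hccF]; exact h4
          · have := hcQ Q hQ
            omega
        · have h6 := hX1 Q y (hO Q (by rw [h1]; exact mem_singleton_self _)).1 h2 (h5 ▸ hF)
          rw [← h5] at h6
          rw [h1] at hcov ⊢
          exact h6 hcov
      have h1 := hLam _ hf
      rw [sum_insert hcoF] at h1
      have h2 := hAdd F hF
      have h5 : 0 ≤ ∑ Q ∈ O, G.Psi Q := by
        refine sum_nonneg fun Q hQ => ?_
        have h6 := card_lt_card (hO Q hQ).2.1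
        have h7 := hcQ Q hQ
        exact ih Q.card (by omega) Q rfl (hO Q hQ).1 (hO Q hQ).2.2 (by omega)
      linarith

theorem stFin_67 (G : FG V) (hCo : G.StCo) (hAdd : G.StAdd) (hMain : G.StMain) : G.StFin := by
  classical
  intro hcr
  by_cases hun : ∃ x y, y ∈ G.N x ∧ ¬ G.Cov x y
  · obtain ⟨x, y, hxy, hnc⟩ := hun
    obtain ⟨F, hF, hx, hy⟩ := hcr.1 x y hxy
    obtain ⟨hcF, hbcF, hccF⟩ := hCo F hF
    have h3 := hcr.2 F x y hF hx hy hxy hnc
    have hc3 := hcr.2 (G.co F) x y hcF (hbcF ▸ hx) (hbcF ▸ hy) hxy hnc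
    have h1 := hMain hcr F hF h3 hc3
    have h2 := hMain hcr (G.co F) hcF hc3 (by rw [hccF]; exact h3)
    have h4 := hAdd F hF
    have h5 : (2 * Fintype.card V : ℤ) ≤ 6 * (G.lo univ : ℤ) := by linarith
    have h6 : 2 * Fintype.card V ≤ 6 * G.lo univ := by exact_mod_cast h5
    omega
  · push Not at hun
    have hne : ∀ v, (G.N v).Nonempty := by
      intro v
      by_cases h : ∃ u, u ∉ ({v} : Finset V) ∧ u ∉ ({v} : Finset V).biUnion G.N
      · have h1 := G.conn {v} (singleton_nonempty v) h
        rw [singleton_biUnion] at h1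
        have h2 := card_le_card (sdiff_subset (s := G.N v) (t := {v}))
        rw [← card_pos]
        omega
      · push Not at h
        obtain ⟨u, hu⟩ : ∃ u, u ≠ v := by
          by_contra hcon
          push Not at hcon
          have := G.big
          have h2 : Fintype.card V ≤ 1 := Fintype.card_le_one_iff.2 fun a b =>
            (hcon a).trans (hcon b).symm
          omega
        have := h u (by rwa [mem_singleton])
        rw [singleton_biUnion] at this
        exact ⟨u, this⟩
    have h2 : ∀ v, 2 ≤ ((G.N v).filter fun w => G.Low w).card := by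
      intro v
      obtain ⟨y, hy⟩ := hne v
      obtain ⟨w, hw, hvw, -⟩ := hun v y hy
      obtain ⟨w', hw', hvw', hww'⟩ := hun v w (G.sym _ _ hvw)
      have hne' : w ≠ w' := by
        rintro rfl
        exact G.irr _ hww'
      rw [← card_pair hne']
      apply card_le_card
      intro u hu
      rw [mem_insert, mem_singleton] at hu
      rcases hu with rfl | rfl
      · exact mem_filter.2 ⟨G.sym _ _ hvw, hw⟩
      · exact mem_filter.2 ⟨G.sym _ _ hvw', hw'⟩
    have h3 : ∑ v : V, ((G.N v).filter fun w => G.Low w).card = 6 * G.lo univ := by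
      have h4 : ∀ v : V, ((G.N v).filter fun w => G.Low w).card =
          ∑ w : V, if G.Low w ∧ w ∈ G.N v then 1 else 0 := by
        intro v
        rw [card_eq_sum_ones, ← sum_filter]
        apply sum_congr _ fun _ _ => rfl
        ext w
        simp only [mem_filter, mem_univ, true_and]
        tauto
      rw [sum_congr rfl fun v _ => h4 v, sum_comm]
      have h5 : ∀ w : V, (∑ v : V, if G.Low w ∧ w ∈ G.N v then 1 else 0) =
          if G.Low w then 6 else 0 := by
        intro w
        by_cases hw : G.Low w
        · rw [if_pos hw, ← sum_filter, ← card_eq_sum_ones]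
          rw [show (6 : ℕ) = (G.N w).card from hw.symm]
          congr 1
          ext v
          simp only [mem_filter, mem_univ, true_and]
          exact ⟨fun h => G.sym _ _ h.2, fun h => ⟨hw, G.sym _ _ h⟩⟩
        · rw [if_neg hw]
          apply sum_eq_zero
          intro v _
          rw [if_neg]
          exact fun h => hw h.1
      rw [sum_congr rfl fun w _ => h5 w, ← sum_filter, sum_const, smul_eq_mul, mul_comm]
      rfl
    have h4 : ∑ _v : V, 2 ≤ ∑ v : V, ((G.N v).filter fun w => G.Low w).card :=
      sum_le_sum fun v _ => h2 v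
    rw [h3, sum_const, card_univ, smul_eq_mul] at h4
    omega

end FG

end Pool.Agent.Lib.MP_e95c01_co.F
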