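import Pool.Agent.Lib.MP_e95c01_co.F.StRec_33

/-!
Module P2 (StBal2) of theorem (H), helper33.
-/

set_option autoImplicit false

namespace Pool.Agent.Lib.MP_e95c01_co.F

open Finset

variable {V : Type} [Fintype V] [DecidableEq V]

namespace FG33

variable (G : FG V) {O : Finset (Finset V)}

/-- every member of the family with `v` in its boundary contains a neighbour of `v` -/
theorem card_le_of_J (hF : G.Fam O) (v : V) :
    (G.N v ∩ G.P O).card + (G.J O v).card ≤ (G.N v).card := by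
  classical
  have h1 : ∀ Q ∈ G.J O v, 1 ≤ (G.N v ∩ Q).card := by
    intro Q hQ
    obtain ⟨hQO, hb⟩ := (mem_J G).1 hQ
    obtain ⟨⟨x, hx, hxv⟩, _⟩ := (mem_bd G).1 hb
    exact card_pos.2 ⟨x, mem_inter.2 ⟨G.sym v x hxv, hx⟩⟩
  have h2 : (G.J O v).card ≤ ((G.J O v).biUnion fun Q => G.N v ∩ Q).card := by
    rw [card_biUnion]
    · calc (G.J O v).card = ∑ _Q ∈ G.J O v, 1 := by simp
        _ ≤ ∑ Q ∈ G.J O v, (G.N v ∩ Q).card := sum_le_sum h1
    · intro Q hQ Q' hQ' hne
      have hd := hF.2 Q ((mem_J G).1 hQ).1 Q' ((mem_J G).1 hQ').1 hne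
      refine disjoint_left.2 ?_
      intro y hy hy'
      exact (disjoint_left.1 hd) (mem_inter.1 hy).2 (mem_union_left _ (mem_inter.1 hy').2)
  have h3 : Disjoint (G.N v ∩ G.P O) ((G.J O v).biUnion fun Q => G.N v ∩ Q) := by
    rw [disjoint_left]
    intro y hy hy'
    obtain ⟨Q, hQ, hyQ⟩ := mem_biUnion.1 hy'
    exact (mem_P G).1 (mem_inter.1 hy).2 Q ((mem_J G).1 hQ).1 (mem_inter.1 hyQ).2
  have h4 : (G.N v ∩ G.P O) ∪ ((G.J O v).biUnion fun Q => G.N v ∩ Q) ⊆ G.N v := by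
    intro y hy
    rcases mem_union.1 hy with h | h
    · exact (mem_inter.1 h).1
    · obtain ⟨Q, _, hyQ⟩ := mem_biUnion.1 h
      exact (mem_inter.1 hyQ).1
  have h5 := card_le_card h4
  rw [card_union_of_disjoint h3] at h5
  omega

/-- double counting of the boundary neighbours -/
theorem sum_bd (hF : G.Fam O) (v : V) :
    ∑ Q ∈ G.J O v, (G.N v ∩ G.bd Q).card =
      ∑ y ∈ G.N v ∩ G.P O, (G.J O v ∩ G.J O y).card := by
  classical
  have h1 : ∀ Q ∈ G.J O v, (G.N v ∩ G.bd Q).card =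
      ∑ y ∈ G.N v ∩ G.P O, if y ∈ G.bd Q then 1 else 0 := by
    intro Q hQ
    rw [← card_filter]
    congr 1
    ext y
    simp only [mem_inter, mem_filter]
    constructor
    · rintro ⟨h, h'⟩
      exact ⟨⟨h, bd_sub_P G hF ((mem_J G).1 hQ).1 h'⟩, h'⟩
    · rintro ⟨⟨h, _⟩, h'⟩
      exact ⟨h, h'⟩
  have h2 : ∀ y ∈ G.N v ∩ G.P O, (G.J O v ∩ G.J O y).card =
      ∑ Q ∈ G.J O v, if y ∈ G.bd Q then 1 else 0 := by
    intro y _
    rw [← card_filter]
    congr 1
    ext Q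
    simp only [mem_inter, mem_filter, mem_J]
    tauto
  rw [sum_congr rfl h1, sum_congr rfl h2, sum_comm]

end FG33

open FG33

/-- P2 -/
theorem stBal2 (G : FG V) : G.StBal2 := by
  intro O hO v hv hk
  have hk1 : ¬ (G.J O v).card ≤ 1 := by omega
  unfold FG.bal
  rw [if_neg hk1]
  by_cases hl : G.Low v
  · rw [if_pos hl]
    have h6 : (G.N v).card = 6 := hl
    have h1 := card_le_of_J G hO.fam v
    rw [h6] at h1
    have h2 : (G.rcv O v).card = ∑ y ∈ G.N v ∩ G.P O, if (G.J O y).card ≤ 1 then 1 else 0 := by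
      unfold FG.rcv
      rw [card_filter]
    have h3 : (∑ Q ∈ G.J O v, (3 - ((G.N v ∩ G.bd Q).card : ℤ))) =
        3 * ((G.J O v).card : ℤ) - ∑ y ∈ G.N v ∩ G.P O, ((G.J O v ∩ G.J O y).card : ℤ) := by
      rw [sum_sub_distrib, sum_const, nsmul_eq_mul]
      have := sum_bd G hO.fam v
      have h' : (∑ Q ∈ G.J O v, ((G.N v ∩ G.bd Q).card : ℤ)) =
          ∑ y ∈ G.N v ∩ G.P O, ((G.J O v ∩ G.J O y).card : ℤ) := by
        exact_mod_cast this
      rw [h']
      ring
    have h4 : -(((G.J O v).card : ℤ) - 2) * ((G.N v ∩ G.P O).card : ℤ) ≤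
        ∑ y ∈ G.N v ∩ G.P O, (2 - ((G.J O v ∩ G.J O y).card : ℤ) -
          (if (G.J O y).card ≤ 1 then 1 else 0)) := by
      have : ∑ _y ∈ G.N v ∩ G.P O, (-(((G.J O v).card : ℤ) - 2)) ≤
          ∑ y ∈ G.N v ∩ G.P O, (2 - ((G.J O v ∩ G.J O y).card : ℤ) -
          (if (G.J O y).card ≤ 1 then 1 else 0)) := by
        apply sum_le_sum
        intro y _
        have ha : (G.J O v ∩ G.J O y).card ≤ (G.J O v).card := card_le_card inter_subset_left
        have hb : (G.J O v ∩ G.J O y).card ≤ (G.J O y).card := card_le_card inter_subset_right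
        split_ifs with h
        · have : (G.J O v ∩ G.J O y).card ≤ 1 := hb.trans h
          have h1' : ((G.J O v ∩ G.J O y).card : ℤ) ≤ 1 := by exact_mod_cast this
          have h2' : (2 : ℤ) ≤ ((G.J O v).card : ℤ) := by exact_mod_cast hk
          linarith
        · have h1' : ((G.J O v ∩ G.J O y).card : ℤ) ≤ ((G.J O v).card : ℤ) := by exact_mod_cast ha
          linarith
      rw [sum_const, nsmul_eq_mul] at this
      linarith
    rw [sum_sub_distrib, sum_sub_distrib, sum_const, nsmul_eq_mul] at h4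
    have h5 : ((G.rcv O v).card : ℤ) =
        ∑ y ∈ G.N v ∩ G.P O, (if (G.J O y).card ≤ 1 then (1 : ℤ) else 0) := by
      rw [h2]
      push_cast
      rfl
    unfold FG.sup
    rw [h3]
    rw [← h5] at h4
    have h7 : ((G.N v ∩ G.P O).card : ℤ) + ((G.J O v).card : ℤ) ≤ 6 := by exact_mod_cast h1
    have h8 : (2 : ℤ) ≤ ((G.J O v).card : ℤ) := by exact_mod_cast hk
    have h9 : 0 ≤ (((G.J O v).card : ℤ) - 2) *
        (6 - ((G.N v ∩ G.P O).card : ℤ) - ((G.J O v).card : ℤ)) :=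
      mul_nonneg (by linarith) (by linarith)
    have h10 : 0 ≤ (((G.J O v).card : ℤ) - 2) * (((G.J O v).card : ℤ) - 2) :=
      mul_self_nonneg _
    nlinarith [h4, h9, h10]
  · rw [if_neg hl]
    have : (2 : ℤ) ≤ ((G.J O v).card : ℤ) := by exact_mod_cast hk
    linarith

/-- P4 without hypotheses -/
theorem stNeg' (G : FG V) : G.StNeg := stNeg G (stRec G) (stBal2 G)

end Pool.Agent.Lib.MP_e95c01_co.F
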