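import Pool.Agent.Lib.MP_e95c01_co.F.Stmts

/-!
# The part lemma (M5) from P1..P8
-/

namespace Pool.Agent.Lib.MP_e95c01_co.F

variable {V : Type} [Fintype V] [DecidableEq V]

namespace FG

theorem Al.swap {G : FG V} {O : Finset (Finset V)} {Q : Finset V} {w w0 v1 v2 : V}
    (h : G.Al O Q w w0 v1 v2) : G.Al O Q w w0 v2 v1 where
  hw := h.hw
  lw := h.lw
  jw := h.jw
  hw0 := h.hw0
  lw0 := h.lw0
  jw0 := h.jw0
  adj := h.adj
  out := by rw [h.out, Finset.pair_comm]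
  ne := h.ne.symm
  a1 := h.a2
  a2 := h.a1
  h1 := h.h2
  h2 := h.h1
  j1 := h.j2
  j2 := h.j1
  uniq := h.uniq
  small := h.small

theorem Al.mem1 {G : FG V} {O : Finset (Finset V)} {Q : Finset V} {w w0 v1 v2 : V}
    (h : G.Al O Q w w0 v1 v2) : v1 ∈ G.N w ∧ v1 ∈ G.P O := by
  have : v1 ∈ (G.N w ∩ G.P O) \ G.bd Q := by rw [h.out]; simp
  rw [Finset.mem_sdiff, Finset.mem_inter] at this
  exact this.1

theorem stPart (G : FG V) (hBal : G.StBal) (hNeg : G.StNeg) (hZ1 : G.StZ1) (hZ2 : G.StZ2)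
    (hZ3 : G.StZ3) (hC : StCount) : G.StPart := by
  intro O hne hfam hcov hpend hfour
  classical
  have hO : G.Part O := ⟨hne, hfam, hcov, hpend, hfour⟩
  rw [hBal O]
  let A : Finset V := (G.P O).filter fun w => G.bal O w < 0
  have hdata : ∀ w : V, ∃ (Q : Finset V) (w0 v1 v2 : V), w ∈ A →
      G.bal O w = -1 ∧ G.Al O Q w w0 v1 v2 := by
    intro w
    by_cases hw : w ∈ A
    · have hw' := Finset.mem_filter.1 hw
      rcases hNeg O hO w hw'.1 with h | ⟨h, Q, w0, v1, v2, hAl⟩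
      · exact absurd hw'.2 (not_lt.2 h)
      · exact ⟨Q, w0, v1, v2, fun _ => ⟨h, hAl⟩⟩
    · exact ⟨∅, w, w, w, fun h => absurd h hw⟩
  choose Q p e1 e2 hd using hdata
  have hnl : ∀ v, ¬ G.Low v → v ∉ A := by
    intro v hv hvA
    exact hv (hd v hvA).2.lw
  have hlow : ∀ w ∈ A, ∀ v, v = e1 w ∨ v = e2 w → w ∈ G.lowN O v ∧ p w ∈ G.lowN O v ∧
      (G.J O v).card ≤ 1 ∧ G.bal O v = ((G.lowN O v).card : ℤ) - 2 + ((G.J O v).card : ℕ) := by
    intro w hw v hv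
    obtain ⟨-, hAl⟩ := hd w hw
    have key : ∀ v1 v2, G.Al O (Q w) w (p w) v1 v2 → w ∈ G.lowN O v1 ∧ p w ∈ G.lowN O v1 ∧
        (G.J O v1).card ≤ 1 ∧
        G.bal O v1 = ((G.lowN O v1).card : ℤ) - 2 + ((G.J O v1).card : ℕ) := by
      intro v1 v2 hA
      refine ⟨?_, ?_, hA.j1, ?_⟩
      · unfold lowN
        rw [Finset.mem_filter, Finset.mem_inter]
        exact ⟨⟨G.sym _ _ hA.mem1.1, hA.hw⟩, hA.lw⟩
      · unfold lowN
        rw [Finset.mem_filter, Finset.mem_inter]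
        exact ⟨⟨G.sym _ _ hA.a1, hA.hw0⟩, hA.lw0⟩
      · unfold bal
        rw [if_neg hA.h1, if_pos hA.j1]
        ring
    rcases hv with rfl | rfl
    · exact key _ _ hAl
    · exact key _ _ hAl.swap
  have huniq : ∀ w ∈ A, (∀ y ∈ G.N (p w) ∩ G.P O, G.Low y → y = w) →
      ∀ w' ∈ A, p w' = p w → w' = w := by
    intro w hw h w' hw' hpp
    obtain ⟨-, hAl'⟩ := hd w' hw'
    apply h w' ?_ hAl'.lw
    rw [Finset.mem_inter]
    refine ⟨?_, hAl'.hw⟩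
    rw [← hpp]
    exact G.sym _ _ hAl'.adj
  refine hC V (G.P O) A (G.bal O) (G.lowN O) (fun v => (G.J O v).card) p e1 e2
    (Finset.filter_subset _ _) ?_ ?_ ?_ ?_ ?_ ?_ ?_
  · intro v hv hvA
    by_contra h
    exact hvA (Finset.mem_filter.2 ⟨hv, not_le.1 h⟩)
  · intro w hw
    obtain ⟨hb, hAl⟩ := hd w hw
    refine ⟨hb, hAl.ne, hAl.mem1.2, hAl.swap.mem1.2, hnl _ hAl.h1, hnl _ hAl.h2, hAl.hw0, ?_⟩
    intro h
    have := hAl.adj
    rw [h] at this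
    exact G.irr w this
  · intro w hw w' hw'
    obtain ⟨-, hAl⟩ := hd w hw
    obtain ⟨-, hAl'⟩ := hd w' hw'
    exact ⟨fun h => hAl'.h1 (h ▸ hAl.lw0), fun h => hAl'.h2 (h ▸ hAl.lw0)⟩
  · exact hlow
  · intro w hw hz
    obtain ⟨-, hAl⟩ := hd w hw
    rcases hz with hz | hz
    · refine ⟨?_, huniq w hw (hZ1 O hO _ _ _ _ _ hAl hz).1⟩
      intro hpA
      have := (hZ3 O hO _ _ _ _ _ hAl _ _ _ _ (hd _ hpA).2).2.2.2.1
      omega
    · refine ⟨?_, huniq w hw (hZ1 O hO _ _ _ _ _ hAl.swap hz).1⟩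
      intro hpA
      have := (hZ3 O hO _ _ _ _ _ hAl _ _ _ _ (hd _ hpA).2).2.2.2.2
      omega
  · intro w hw z1 z2
    exact hZ2 O hO _ _ _ _ _ (hd w hw).2 z1 z2
  · intro w hw hpA
    have := hZ3 O hO _ _ _ _ _ (hd w hw).2 _ _ _ _ (hd _ hpA).2
    exact ⟨this.1, this.2.2.1⟩

end FG

end Pool.Agent.Lib.MP_e95c01_co.F
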