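import Pool.Agent.Lib.MP_e95c01_co.F.Stmts

/-!
# Theorem (H): modules StStar and StTouch
-/

namespace Pool.Agent.Lib.MP_e95c01_co.F

variable {V : Type} [Fintype V] [DecidableEq V]

namespace S1

open Finset

theorem mem_bd (G : FG V) (S : Finset V) (v : V) :
    v ∈ G.bd S ↔ (∃ u ∈ S, v ∈ G.N u) ∧ v ∉ S := by
  simp only [FG.bd, mem_sdiff, mem_biUnion]

theorem mem_co (G : FG V) (S : Finset V) (v : V) :
    v ∈ G.co S ↔ v ∉ S ∧ v ∉ G.bd S := by
  simp only [FG.co, mem_sdiff, mem_univ, true_and, mem_union, not_or]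

theorem conn' (G : FG V) {S : Finset V} (h : S.Nonempty) (h2 : (G.co S).Nonempty) :
    6 ≤ (G.bd S).card := by
  obtain ⟨w, hw⟩ := h2
  rw [mem_co, mem_bd] at hw
  refine G.conn S h ⟨w, hw.1, ?_⟩
  intro hc
  rw [mem_biUnion] at hc
  exact hw.2 ⟨hc, hw.1⟩

/-- The partition of a set by `B`, its boundary and the rest. -/
theorem split3 (G : FG V) (S B : Finset V) :
    S.card = (S ∩ B).card + (S ∩ G.bd B).card + (S ∩ G.co B).card := by
  have h1 : S = ((S ∩ B) ∪ (S ∩ G.bd B)) ∪ (S ∩ G.co B) := by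
    ext v
    simp only [mem_union, mem_inter, mem_co]
    tauto
  have d1 : Disjoint (S ∩ B) (S ∩ G.bd B) := by
    rw [disjoint_left]
    intro v hv hv2
    exact ((mem_bd G B v).1 (mem_inter.1 hv2).2).2 (mem_inter.1 hv).2
  have d2 : Disjoint ((S ∩ B) ∪ (S ∩ G.bd B)) (S ∩ G.co B) := by
    rw [disjoint_left]
    intro v hv hv2
    have h3 := (mem_co G B v).1 (mem_inter.1 hv2).2
    rcases mem_union.1 hv with h | h
    · exact h3.1 (mem_inter.1 h).2
    · exact h3.2 (mem_inter.1 h).2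
  conv_lhs => rw [h1]
  rw [card_union_of_disjoint d2, card_union_of_disjoint d1]

theorem corner_sub (G : FG V) (A B : Finset V) :
    G.bd (A ∩ B) ⊆ (A ∩ G.bd B) ∪ (G.bd A ∩ B) ∪ (G.bd A ∩ G.bd B) := by
  intro v hv
  rw [mem_bd] at hv
  obtain ⟨⟨u, hu, huv⟩, h2⟩ := hv
  rw [mem_inter] at hu h2
  simp only [mem_union, mem_inter, mem_bd]
  by_cases hA : v ∈ A
  · have hB : v ∉ B := fun h => h2 ⟨hA, h⟩
    exact Or.inl (Or.inl ⟨hA, ⟨u, hu.2, huv⟩, hB⟩)
  · by_cases hB : v ∈ B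
    · exact Or.inl (Or.inr ⟨⟨⟨u, hu.1, huv⟩, hA⟩, hB⟩)
    · exact Or.inr ⟨⟨⟨u, hu.1, huv⟩, hA⟩, ⟨u, hu.2, huv⟩, hB⟩

theorem co_sub (G : FG V) (A B : Finset V) : G.co A ⊆ G.co (A ∩ B) := by
  intro v hv
  rw [mem_co] at hv ⊢
  refine ⟨fun h => hv.1 (mem_inter.1 h).1, fun h => ?_⟩
  have := corner_sub G A B h
  simp only [mem_union, mem_inter] at this
  tauto

omit [Fintype V] in
theorem corner_card (A B C : Finset V) (A' B' : Finset V) :
    ((A ∩ B') ∪ (A' ∩ B) ∪ C).card ≤ (A ∩ B').card + (A' ∩ B).card + C.card :=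
  (card_union_le _ _).trans (Nat.add_le_add_right (card_union_le _ _) _)

theorem corner_le (G : FG V) (A B : Finset V) (h : (A ∩ B).Nonempty) (hc : (G.co A).Nonempty) :
    6 ≤ (A ∩ G.bd B).card + (G.bd A ∩ B).card + (G.bd A ∩ G.bd B).card := by
  have h1 := conn' G h (hc.mono (co_sub G A B))
  have h2 := card_le_card (corner_sub G A B)
  exact h1.trans (h2.trans (corner_card A B _ _ _))

theorem corner_frag (G : FG V) (A B : Finset V) (h : (A ∩ B).Nonempty) (hc : (G.co A).Nonempty)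
    (h6 : (A ∩ G.bd B).card + (G.bd A ∩ B).card + (G.bd A ∩ G.bd B).card = 6) :
    G.Frag (A ∩ B) ∧ G.bd (A ∩ B) = (A ∩ G.bd B) ∪ (G.bd A ∩ B) ∪ (G.bd A ∩ G.bd B) := by
  have h1 := conn' G h (hc.mono (co_sub G A B))
  have h2 := card_le_card (corner_sub G A B)
  have h3 := corner_card A B (G.bd A ∩ G.bd B) (G.bd A) (G.bd B)
  have h4 : G.bd (A ∩ B) = (A ∩ G.bd B) ∪ (G.bd A ∩ B) ∪ (G.bd A ∩ G.bd B) :=
    eq_of_subset_of_card_le (corner_sub G A B) (by omega)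
  refine ⟨⟨h, ?_, hc.mono (co_sub G A B)⟩, h4⟩
  omega

omit [Fintype V] [DecidableEq V] in
theorem card_zero {S : Finset V} (h : ¬ S.Nonempty) : S.card = 0 := by
  rw [not_nonempty_iff_eq_empty] at h
  rw [h, card_empty]

/-- The conclusion for `Q = F ∩ B`. -/
theorem star_aux (G : FG V) (hC : G.Crit) (F B : Finset V) (x y : V) (hF : G.Frag F)
    (hx : x ∈ F) (hy : y ∈ G.N x) (hc : ¬ G.Cov x y)
    (hxB : x ∈ G.bd B) (hyB : y ∈ G.bd B) (hne : (F ∩ B).Nonempty)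
    (h6 : (F ∩ G.bd B).card + (G.bd F ∩ B).card + (G.bd F ∩ G.bd B).card = 6) :
    ∃ Q, G.Frag Q ∧ Q ⊂ F ∧ 3 ≤ Q.card ∧ x ∈ G.bd Q ∧ y ∈ G.bd Q := by
  obtain ⟨hfr, hbd⟩ := corner_frag G F B hne hF.2.2 h6
  have hxQ : x ∈ G.bd (F ∩ B) := by
    rw [hbd]
    simp only [mem_union, mem_inter]
    exact Or.inl (Or.inl ⟨hx, hxB⟩)
  have hyQ : y ∈ G.bd (F ∩ B) := by
    rw [hbd]
    simp only [mem_union, mem_inter]
    by_cases hyF : y ∈ F
    · exact Or.inl (Or.inl ⟨hyF, hyB⟩)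
    · exact Or.inr ⟨(mem_bd G F y).2 ⟨⟨x, hx, hy⟩, hyF⟩, hyB⟩
  refine ⟨F ∩ B, hfr, ?_, hC.2 _ x y hfr hxQ hyQ hy hc, hxQ, hyQ⟩
  rw [ssubset_iff_subset_ne]
  refine ⟨inter_subset_left, fun he => ?_⟩
  have h1 : x ∈ F ∩ B := by rw [he]; exact hx
  exact ((mem_bd G B x).1 hxB).2 (mem_inter.1 h1).2

theorem stStar (G : FG V) (hco : G.StCo) : G.StStar := by
  intro hC F x y hF h3 h3' hx hy hc
  obtain ⟨B, hB, hxB, hyB⟩ := hC.1 x y hy
  obtain ⟨hB', hbB', hccB⟩ := hco B hB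
  obtain ⟨hF', hbF', hccF⟩ := hco F hF
  have hB3 := hC.2 B x y hB hxB hyB hy hc
  have hB3' := hC.2 (G.co B) x y hB' (by rw [hbB']; exact hxB) (by rw [hbB']; exact hyB) hy hc
  have e1 := split3 G F B
  have e2 := split3 G (G.bd F) B
  have e3 := split3 G (G.co F) B
  have e4 := split3 G B F
  have e5 := split3 G (G.bd B) F
  have e6 := split3 G (G.co B) F
  rw [inter_comm B F, inter_comm B (G.bd F), inter_comm B (G.co F)] at e4
  rw [inter_comm (G.bd B) F, inter_comm (G.bd B) (G.bd F), inter_comm (G.bd B) (G.co F)] at e5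
  rw [inter_comm (G.co B) F, inter_comm (G.co B) (G.bd F), inter_comm (G.co B) (G.co F)] at e6
  have t6 := hF.2.1
  have b6 := hB.2.1
  have c1 : (F ∩ B).Nonempty →
      6 ≤ (F ∩ G.bd B).card + (G.bd F ∩ B).card + (G.bd F ∩ G.bd B).card :=
    fun h => corner_le G F B h hF.2.2
  have c2 : (F ∩ G.co B).Nonempty →
      6 ≤ (F ∩ G.bd B).card + (G.bd F ∩ G.co B).card + (G.bd F ∩ G.bd B).card := by
    intro h
    have := corner_le G F (G.co B) h hF.2.2
    rwa [hbB'] at this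
  have c3 : (G.co F ∩ B).Nonempty →
      6 ≤ (G.co F ∩ G.bd B).card + (G.bd F ∩ B).card + (G.bd F ∩ G.bd B).card := by
    intro h
    have := corner_le G (G.co F) B h (by rw [hccF]; exact hF.1)
    rwa [hbF'] at this
  have c4 : (G.co F ∩ G.co B).Nonempty →
      6 ≤ (G.co F ∩ G.bd B).card + (G.bd F ∩ G.co B).card + (G.bd F ∩ G.bd B).card := by
    intro h
    have := corner_le G (G.co F) (G.co B) h (by rw [hccF]; exact hF.1)
    rwa [hbF', hbB'] at this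
  have s1 : (F ∩ B).Nonempty →
      (F ∩ G.bd B).card + (G.bd F ∩ B).card + (G.bd F ∩ G.bd B).card = 6 →
      ∃ Q, G.Frag Q ∧ Q ⊂ F ∧ 3 ≤ Q.card ∧ x ∈ G.bd Q ∧ y ∈ G.bd Q :=
    fun h h6 => star_aux G hC F B x y hF hx hy hc hxB hyB h h6
  have s2 : (F ∩ G.co B).Nonempty →
      (F ∩ G.bd B).card + (G.bd F ∩ G.co B).card + (G.bd F ∩ G.bd B).card = 6 →
      ∃ Q, G.Frag Q ∧ Q ⊂ F ∧ 3 ≤ Q.card ∧ x ∈ G.bd Q ∧ y ∈ G.bd Q := by
    intro h h6
    exact star_aux G hC F (G.co B) x y hF hx hy hc (by rw [hbB']; exact hxB)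
      (by rw [hbB']; exact hyB) h (by rw [hbB']; exact h6)
  have yF : (G.bd F ∩ G.bd B).card = 0 → y ∈ F := by
    intro h0
    by_contra hyF
    have h1 : y ∈ G.bd F ∩ G.bd B :=
      mem_inter.2 ⟨(mem_bd G F y).2 ⟨⟨x, hx, hy⟩, hyF⟩, hyB⟩
    rw [card_eq_zero] at h0
    rw [h0] at h1
    exact absurd h1 (notMem_empty y)
  by_cases n1 : (F ∩ B).Nonempty <;> by_cases n2 : (F ∩ G.co B).Nonempty <;>
    by_cases n3 : (G.co F ∩ B).Nonempty <;> by_cases n4 : (G.co F ∩ G.co B).Nonempty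
  all_goals
    first
      | have k1 := c1 n1
      | have k1 := card_zero n1
    first
      | have k2 := c2 n2
      | have k2 := card_zero n2
    first
      | have k3 := c3 n3
      | have k3 := card_zero n3
    first
      | have k4 := c4 n4
      | have k4 := card_zero n4
    first
      | exact Or.inl (s1 n1 (by omega))
      | exact Or.inl (s2 n2 (by omega))
      | (exfalso; omega)
      | exact Or.inr ⟨by omega, yF (by omega)⟩

theorem touch_sub (G : FG V) (X Y : Finset V) (hd : Disjoint X Y) :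
    G.bd (X \ G.bd Y) ⊆ (X ∩ G.bd Y) ∪ (G.bd X \ Y) := by
  intro v hv
  rw [mem_bd] at hv
  obtain ⟨⟨u, hu, huv⟩, h2⟩ := hv
  rw [mem_sdiff] at hu h2
  simp only [mem_union, mem_inter, mem_sdiff]
  by_cases hX : v ∈ X
  · left
    refine ⟨hX, ?_⟩
    by_contra hc
    exact h2 ⟨hX, hc⟩
  · right
    refine ⟨(mem_bd G X v).2 ⟨⟨u, hu.1, huv⟩, hX⟩, fun hY => hu.2 ?_⟩
    exact (mem_bd G Y u).2 ⟨⟨v, hY, G.sym v u huv⟩, disjoint_left.1 hd hu.1⟩

theorem touch_co (G : FG V) (X Y : Finset V) (hd : Disjoint X Y) :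
    G.co X ⊆ G.co (X \ G.bd Y) := by
  intro v hv
  rw [mem_co] at hv ⊢
  refine ⟨fun h => hv.1 (mem_sdiff.1 h).1, fun h => ?_⟩
  have := touch_sub G X Y hd h
  simp only [mem_union, mem_inter, mem_sdiff] at this
  tauto

theorem union_sub (G : FG V) (X Y : Finset V) :
    G.bd (X ∪ Y) ⊆ (G.bd X \ Y) ∪ (G.bd Y \ X) := by
  intro v hv
  rw [mem_bd] at hv
  obtain ⟨⟨u, hu, huv⟩, h2⟩ := hv
  rw [mem_union, not_or] at h2
  simp only [mem_union, mem_sdiff, mem_bd]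
  rcases mem_union.1 hu with h | h
  · exact Or.inl ⟨⟨⟨u, h, huv⟩, h2.1⟩, h2.2⟩
  · exact Or.inr ⟨⟨⟨u, h, huv⟩, h2.2⟩, h2.1⟩

theorem stTouch (G : FG V) : G.StTouch := by
  intro X Y hX hY hX3 hY3 hd _ hco
  have hX6 := hX.2.1
  have hY6 := hY.2.1
  have p1 := card_sdiff_add_card_inter (G.bd X) Y
  have p2 := card_sdiff_add_card_inter (G.bd Y) X
  have p3 := card_sdiff_add_card_inter X (G.bd Y)
  have p4 := card_sdiff_add_card_inter Y (G.bd X)
  rw [inter_comm X (G.bd Y)] at p3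
  rw [inter_comm Y (G.bd X)] at p4
  have q1 := card_le_card (touch_sub G X Y hd)
  have q2 := card_le_card (touch_sub G Y X hd.symm)
  have q3 := card_union_le (X ∩ G.bd Y) (G.bd X \ Y)
  have q4 := card_union_le (Y ∩ G.bd X) (G.bd Y \ X)
  rw [inter_comm X (G.bd Y)] at q3
  rw [inter_comm Y (G.bd X)] at q4
  rw [inter_comm X (G.bd Y)] at q1
  rw [inter_comm Y (G.bd X)] at q2
  have q5 := card_le_card (union_sub G X Y)
  have q6 := card_union_le (G.bd X \ Y) (G.bd Y \ X)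
  have c1 : (X \ G.bd Y).Nonempty → 6 ≤ (G.bd (X \ G.bd Y)).card :=
    fun h => conn' G h (hX.2.2.mono (touch_co G X Y hd))
  have c2 : (Y \ G.bd X).Nonempty → 6 ≤ (G.bd (Y \ G.bd X)).card :=
    fun h => conn' G h (hY.2.2.mono (touch_co G Y X hd.symm))
  have hcoU : (G.co (X ∪ Y)).Nonempty := by
    obtain ⟨w, hw⟩ := hco
    rw [mem_inter, mem_co, mem_co] at hw
    refine ⟨w, (mem_co G _ w).2 ⟨?_, fun h => ?_⟩⟩
    · rw [mem_union, not_or]
      exact ⟨hw.1.1, hw.2.1⟩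
    · have := union_sub G X Y h
      simp only [mem_union, mem_sdiff] at this
      tauto
  have hUne : (X ∪ Y).Nonempty := hX.1.mono subset_union_left
  have c3 := conn' G hUne hcoU
  by_cases n1 : (X \ G.bd Y).Nonempty <;> by_cases n2 : (Y \ G.bd X).Nonempty
  · left
    have k1 := c1 n1
    have k2 := c2 n2
    have he : G.bd (X \ G.bd Y) = (X ∩ G.bd Y) ∪ (G.bd X \ Y) := by
      refine eq_of_subset_of_card_le (touch_sub G X Y hd) ?_
      rw [inter_comm X (G.bd Y)]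
      omega
    exact ⟨⟨n1, by omega, hX.2.2.mono (touch_co G X Y hd)⟩, he⟩
  all_goals
    right
    first
      | have k1 := c1 n1
      | have k1 := card_zero n1
    first
      | have k2 := c2 n2
      | have k2 := card_zero n2
    have he : G.bd (X ∪ Y) = (G.bd X \ Y) ∪ (G.bd Y \ X) :=
      eq_of_subset_of_card_le (union_sub G X Y) (by omega)
    exact ⟨⟨hUne, by omega, hcoU⟩, he⟩

end S1

/-- M2, without the hypothesis `StUnc`. -/
theorem stStar_1 (G : FG V) (hco : G.StCo) : G.StStar := S1.stStar G hco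

/-- M1d. -/
theorem stTouch_1 (G : FG V) : G.StTouch := S1.stTouch G

end Pool.Agent.Lib.MP_e95c01_co.F
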