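import Pool.Agent.Lib.MP_e95c01_co.F.Stmts

/-!
# The exceptional part (M6)
-/

namespace Pool.Agent.Lib.MP_e95c01_co.F

open Finset

variable {V : Type} [Fintype V] [DecidableEq V]

namespace X87

theorem mem_bd {G : FG V} {S : Finset V} {v : V} : v ∈ G.bd S ↔ (∃ u ∈ S, v ∈ G.N u) ∧ v ∉ S := by
  unfold FG.bd
  simp only [mem_sdiff, mem_biUnion]

theorem mem_co {G : FG V} {S : Finset V} {v : V} : v ∈ G.co S ↔ v ∉ S ∧ v ∉ G.bd S := by
  unfold FG.co
  simp

end X87

open X87

theorem stX1 (G : FG V) (hCo : G.StCo) : G.StX1 := by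
  intro Q y hQ hyQ hF hcov
  set F : Finset V := insert y Q with hFdef
  obtain ⟨hCF, hbC, -⟩ := hCo F hF
  set C0 : Finset V := G.co F with hC0
  have hQF : Q ⊆ F := subset_insert _ _
  -- the two members are different
  have hne : C0 ≠ Q := by
    intro h
    obtain ⟨v, hv⟩ := hQ.1
    rw [← h, hC0, mem_co] at hv
    exact hv.1 (hQF (by rw [← h, hC0, mem_co]; exact hv))
  have hyF : y ∈ F := mem_insert_self _ _
  have hybF : y ∉ G.bd F := fun h => (mem_bd.1 h).2 hyF
  -- the part
  have hP : G.P {C0, Q} = insert y (G.bd F) := by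
    ext v
    unfold FG.P
    simp only [mem_sdiff, mem_univ, true_and, mem_biUnion, mem_insert, mem_singleton, id,
      exists_eq_or_imp, exists_eq_left, not_or]
    rw [hC0, mem_co, hFdef, mem_insert]
    constructor
    · rintro ⟨h1, h2⟩
      by_cases h3 : v = y
      · exact Or.inl h3
      · right
        by_contra h4
        exact h1 ⟨by rintro (h | h); exacts [h3 h, h2 h], h4⟩
    · rintro (rfl | h)
      · exact ⟨fun h => h.1 (Or.inl rfl), hyQ⟩
      · refine ⟨fun h' => h'.2 h, fun h' => (mem_bd.1 h).2 ?_⟩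
        exact mem_insert_of_mem h'
  have hbQ : G.bd Q ⊆ insert y (G.bd F) := by
    intro v hv
    obtain ⟨⟨u, hu, hvu⟩, hvQ⟩ := mem_bd.1 hv
    by_cases h : v = y
    · rw [h]; exact mem_insert_self _ _
    · apply mem_insert_of_mem
      rw [mem_bd]
      refine ⟨⟨u, hQF hu, hvu⟩, ?_⟩
      rw [hFdef, mem_insert]
      rintro (h' | h')
      · exact h h'
      · exact hvQ h'
  have hPc : (G.P {C0, Q}).card = 7 := by
    rw [hP, card_insert_of_notMem hybF, hF.2.1]
  have hJc : ∀ v, ((G.J {C0, Q} v).card : ℤ) =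
      (if v ∈ G.bd F then 1 else 0) + (if v ∈ G.bd Q then 1 else 0) := by
    intro v
    unfold FG.J
    rw [filter_insert, filter_singleton, hbC]
    by_cases h1 : v ∈ G.bd F
    · by_cases h2 : v ∈ G.bd Q
      · simp [h1, h2, hne]
      · simp [h1, h2]
    · by_cases h2 : v ∈ G.bd Q
      · simp [h1, h2]
      · simp [h1, h2]
  have hdem : ∑ v ∈ G.P {C0, Q}, (2 - ((G.J {C0, Q} v).card : ℤ)) = 2 := by
    rw [sum_sub_distrib, sum_const, hPc, sum_congr rfl fun v _ => hJc v, sum_add_distrib,
      sum_boole, sum_boole, hP]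
    have e1 : (insert y (G.bd F)).filter (fun v => v ∈ G.bd F) = G.bd F := by
      ext v
      simp only [mem_filter, mem_insert]
      exact ⟨fun h => h.2, fun h => ⟨Or.inr h, h⟩⟩
    have e2 : (insert y (G.bd F)).filter (fun v => v ∈ G.bd Q) = G.bd Q := by
      ext v
      rw [mem_filter]
      exact ⟨fun h => h.2, fun h => ⟨hbQ h, h⟩⟩
    rw [e1, e2, hF.2.1, hQ.2.1]
    norm_num
  -- supply
  have hsup : ∀ w, G.sup {C0, Q} w = 2 * ((G.N w ∩ insert y (G.bd F)).card : ℤ) - 6 +
      ((if w ∈ G.bd F then 3 - ((G.N w ∩ G.bd F).card : ℤ) else 0) +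
        (if w ∈ G.bd Q then 3 - ((G.N w ∩ G.bd Q).card : ℤ) else 0)) := by
    intro w
    unfold FG.sup FG.J
    rw [sum_filter, sum_insert (by simpa using hne), sum_singleton, hbC, hP]
  have hcF : ∀ w, (G.N w ∩ G.bd F).card ≤ (G.N w ∩ insert y (G.bd F)).card := fun w =>
    card_le_card (inter_subset_inter_left (subset_insert _ _))
  have hcQ : ∀ w, (G.N w ∩ G.bd Q).card ≤ (G.N w ∩ insert y (G.bd F)).card := fun w =>
    card_le_card (inter_subset_inter_left hbQ)
  have hboth : ∀ w, w ∈ G.bd F → w ∈ G.bd Q → 0 ≤ G.sup {C0, Q} w := by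
    intro w h1 h2
    rw [hsup, if_pos h1, if_pos h2]
    have := hcF w
    have := hcQ w
    omega
  have hstrict : ∀ (w : V) (S : Finset V) (x : V), S ⊆ insert y (G.bd F) → x ∉ S →
      x ∈ insert y (G.bd F) → x ∈ G.N w →
      (G.N w ∩ S).card + 1 ≤ (G.N w ∩ insert y (G.bd F)).card := by
    intro w S x hS hxS hxP hxw
    have h1 : insert x (G.N w ∩ S) ⊆ G.N w ∩ insert y (G.bd F) := by
      intro z hz
      rcases mem_insert.1 hz with h | h
      · rw [h]; exact mem_inter.2 ⟨hxw, hxP⟩
      · exact mem_inter.2 ⟨(mem_inter.1 h).1, hS (mem_inter.1 h).2⟩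
    have h2 := card_le_card h1
    rw [card_insert_of_notMem (fun h => hxS (mem_inter.1 h).2)] at h2
    exact h2
  unfold FG.Lam
  rw [hdem, hP]
  by_cases hyb : y ∈ G.bd Q
  · -- thin case
    -- the vertex `s`
    have hex : ∃ s ∈ G.bd F, s ∉ G.bd Q := by
      by_contra h
      push Not at h
      have h1 : insert y (G.bd F) ⊆ G.bd Q := by
        intro v hv
        rcases mem_insert.1 hv with h2 | h2
        · rw [h2]; exact hyb
        · exact h v h2
      have h2 := card_le_card h1
      rw [card_insert_of_notMem hybF, hF.2.1, hQ.2.1] at h2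
      omega
    obtain ⟨s, hsF, hsQ⟩ := hex
    have hys : y ≠ s := fun h => hsQ (h ▸ hyb)
    have hsy : s ∈ G.N y := by
      obtain ⟨⟨u, hu, hsu⟩, hsn⟩ := mem_bd.1 hsF
      rcases mem_insert.1 hu with h | h
      · rw [← h]; exact hsu
      · exact absurd (mem_bd.2 ⟨⟨u, h, hsu⟩, fun h' => hsn (hQF h')⟩) hsQ
    -- every other vertex of `bd F` is in `bd Q`
    have hother : ∀ v ∈ G.bd F, v ≠ s → v ∈ G.bd Q := by
      intro v hv hvs
      by_contra hvQ
      have h1 : G.bd Q ⊆ insert y (((G.bd F).erase s).erase v) := by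
        intro z hz
        rcases mem_insert.1 (hbQ hz) with h | h
        · rw [h]; exact mem_insert_self _ _
        · apply mem_insert_of_mem
          rw [mem_erase, mem_erase]
          exact ⟨fun h' => hvQ (h' ▸ hz), fun h' => hsQ (h' ▸ hz), h⟩
      have h2 := card_le_card h1
      have h3 := card_insert_le y (((G.bd F).erase s).erase v)
      have h4 : (((G.bd F).erase s).erase v).card + 1 = ((G.bd F).erase s).card :=
        card_erase_add_one (mem_erase.2 ⟨hvs, hv⟩)
      have h5 : ((G.bd F).erase s).card + 1 = (G.bd F).card := card_erase_add_one hsF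
      rw [hF.2.1] at h5
      rw [hQ.2.1] at h2
      omega
    obtain ⟨w, hwl, hyw, hsw⟩ := hcov y (by rw [hP]; exact mem_insert_self _ _) s
      (by rw [hP]; exact mem_insert_of_mem hsF) hsy (by
        intro R hR
        rcases mem_insert.1 hR with h | h
        · rw [h, hbC]; exact fun h' => hybF h'.1
        · rw [mem_singleton.1 h]; exact fun h' => hsQ h'.2)
    have hwy : w ≠ y := fun h => G.irr y (by rw [h] at hyw; exact hyw)
    have hws : w ≠ s := fun h => G.irr s (by rw [h] at hsw; exact hsw)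
    have hwQ : w ∉ Q := fun h => hsQ (mem_bd.2 ⟨⟨w, h, hsw⟩, fun h' => (mem_bd.1 hsF).2 (hQF h')⟩)
    have hwF : w ∉ F := by
      rw [hFdef, mem_insert]
      rintro (h | h)
      · exact hwy h
      · exact hwQ h
    have hwbF : w ∈ G.bd F := mem_bd.2 ⟨⟨y, hyF, G.sym _ _ hyw⟩, hwF⟩
    have hwbQ : w ∈ G.bd Q := hother w hwbF hws
    have hw2 : 2 ≤ G.sup {C0, Q} w := by
      rw [hsup, if_pos hwbF, if_pos hwbQ]
      have h1 := hstrict w (G.bd F) y (subset_insert _ _) hybF (mem_insert_self _ _) hyw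
      have h2 := hstrict w (G.bd Q) s hbQ hsQ (mem_insert_of_mem hsF) hsw
      omega
    have hall : ∀ v ∈ (insert y (G.bd F)).filter (fun v => G.Low v), 0 ≤ G.sup {C0, Q} v := by
      intro v hv
      obtain ⟨hv, hvl⟩ := mem_filter.1 hv
      rcases mem_insert.1 hv with h | h
      · subst h
        rw [hsup, if_neg hybF, if_pos hyb]
        have h1 := hstrict v (G.bd Q) s hbQ hsQ (mem_insert_of_mem hsF) hsy
        have h2 : 0 < (G.N v ∩ G.bd Q).card :=
          card_pos.2 ⟨w, mem_inter.2 ⟨G.sym _ _ hyw, hwbQ⟩⟩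
        omega
      · by_cases hvs : v = s
        · subst hvs
          rw [hsup, if_pos h, if_neg hsQ]
          have h1 := hstrict v (G.bd F) y (subset_insert _ _) hybF (mem_insert_self _ _)
            (G.sym _ _ hsy)
          have h2 : 0 < (G.N v ∩ G.bd F).card :=
            card_pos.2 ⟨w, mem_inter.2 ⟨G.sym _ _ hsw, hwbF⟩⟩
          omega
        · exact hboth v h (hother v h hvs)
    have hwm : w ∈ (insert y (G.bd F)).filter (fun v => G.Low v) :=
      mem_filter.2 ⟨mem_insert_of_mem hwbF, hwl⟩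
    have := single_le_sum hall hwm
    omega
  · -- `y` is not adjacent to `Q`
    have hbe : G.bd Q = G.bd F := by
      apply eq_of_subset_of_card_le
      · intro v hv
        rcases mem_insert.1 (hbQ hv) with h | h
        · exact absurd (h ▸ hv) hyb
        · exact h
      · rw [hF.2.1, hQ.2.1]
    have hNy : G.N y ⊆ G.bd F := by
      intro v hv
      rw [mem_bd]
      refine ⟨⟨y, hyF, hv⟩, ?_⟩
      rw [hFdef, mem_insert]
      rintro (h | h)
      · rw [h] at hv; exact G.irr y hv
      · exact hyb (mem_bd.2 ⟨⟨v, h, G.sym _ _ hv⟩, hyQ⟩)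
    have hNc : 6 ≤ (G.N y).card := by
      obtain ⟨v, hv⟩ := hQ.1
      have h1 := G.conn {y} (singleton_nonempty y) ⟨v, ?_, ?_⟩
      · rw [singleton_biUnion, sdiff_singleton_eq_erase, erase_eq_of_notMem (G.irr y)] at h1
        exact h1
      · rw [mem_singleton]
        rintro rfl
        exact hyQ hv
      · rw [singleton_biUnion]
        intro h
        exact (mem_bd.1 (hNy h)).2 (hQF hv)
    have hNeq : G.N y = G.bd F := eq_of_subset_of_card_le hNy (by rw [hF.2.1]; exact hNc)
    have hyl : G.Low y := by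
      unfold FG.Low
      rw [hNeq]; exact hF.2.1
    have hall : ∀ v ∈ (insert y (G.bd F)).filter (fun v => G.Low v), 0 ≤ G.sup {C0, Q} v := by
      intro v hv
      obtain ⟨hv, hvl⟩ := mem_filter.1 hv
      rcases mem_insert.1 hv with h | h
      · subst h
        rw [hsup, if_neg hybF, if_neg hyb]
        have h1 : G.N v ∩ insert v (G.bd F) = G.bd F := by
          rw [hNeq]
          exact inter_eq_left.2 (subset_insert _ _)
        rw [h1, hF.2.1]
        norm_num
      · exact hboth v h (by rw [hbe]; exact h)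
    have hy6 : 2 ≤ G.sup {C0, Q} y := by
      rw [hsup, if_neg hybF, if_neg hyb]
      have h1 : G.N y ∩ insert y (G.bd F) = G.bd F := by
        rw [hNeq]
        exact inter_eq_left.2 (subset_insert _ _)
      rw [h1, hF.2.1]
      norm_num
    have hym : y ∈ (insert y (G.bd F)).filter (fun v => G.Low v) :=
      mem_filter.2 ⟨mem_insert_self _ _, hyl⟩
    have := single_le_sum hall hym
    omega

end Pool.Agent.Lib.MP_e95c01_co.F
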