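import Pool.Agent.Lib.MP_e95c01_co.F.StRec_33

/-!
Modules P5 (StZ1), P6 (StZ2), P7 (StZ3) of theorem (H), helper33.
-/

set_option autoImplicit false

namespace Pool.Agent.Lib.MP_e95c01_co.F

open Finset

variable {V : Type} [Fintype V] [DecidableEq V]

namespace FG33

variable (G : FG V) {O : Finset (Finset V)}

/-- the bad configuration is symmetric in `v1`, `v2` -/
theorem Al_swap {Q : Finset V} {w w0 v1 v2 : V} (h : G.Al O Q w w0 v1 v2) :
    G.Al O Q w w0 v2 v1 :=
  { hw := h.hw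
    lw := h.lw
    jw := h.jw
    hw0 := h.hw0
    lw0 := h.lw0
    jw0 := h.jw0
    adj := h.adj
    out := by rw [h.out]; exact pair_comm _ _
    ne := h.ne.symm
    a1 := h.a2
    a2 := h.a1
    h1 := h.h2
    h2 := h.h1
    j1 := h.j2
    j2 := h.j1
    uniq := h.uniq
    small := h.small }

theorem Al_mem1 {Q : Finset V} {w w0 v1 v2 : V} (h : G.Al O Q w w0 v1 v2) :
    v1 ∈ G.N w ∧ v1 ∈ G.P O ∧ v1 ∉ G.bd Q := by
  have : v1 ∈ (G.N w ∩ G.P O) \ G.bd Q := by
    rw [h.out]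
    exact mem_insert_self _ _
  rw [mem_sdiff, mem_inter] at this
  exact ⟨this.1.1, this.1.2, this.2⟩

theorem Al_bal1 {Q : Finset V} {w w0 v1 v2 : V} (h : G.Al O Q w w0 v1 v2) :
    G.bal O v1 = ((G.lowN O v1).card : ℤ) - 2 + ((G.J O v1).card : ℤ) := by
  unfold FG.bal
  rw [if_neg h.h1, if_pos h.j1]
  ring

theorem Al_low1 {Q : Finset V} {w w0 v1 v2 : V} (h : G.Al O Q w w0 v1 v2) :
    ({w, w0} : Finset V) ⊆ G.lowN O v1 ∧ w ≠ w0 := by
  obtain ⟨h1, h2, h3⟩ := Al_mem1 G h
  refine ⟨fun x hx => ?_, ?_⟩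
  · rw [mem_insert, mem_singleton] at hx
    rcases hx with rfl | rfl
    · exact (mem_lowN G).2 ⟨G.sym v1 x h1, h.hw, h.lw⟩
    · exact (mem_lowN G).2 ⟨G.sym v1 x h.a1, h.hw0, h.lw0⟩
  · rintro rfl
    exact G.irr w h.adj

/-- a low vertex of one boundary has at most five neighbours in the part -/
theorem five {Q : Finset V} {w : V} (hl : G.Low w) (hJ : G.J O w = {Q}) :
    (G.N w ∩ G.P O).card ≤ 5 := by
  have hQJ : Q ∈ G.J O w := by
    rw [hJ]
    exact mem_singleton_self Q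
  obtain ⟨hQ, hwQ⟩ := (mem_J G).1 hQJ
  obtain ⟨⟨x, hx, hwx⟩, -⟩ := (mem_bd G).1 hwQ
  have h1 : G.N w ∩ G.P O ⊆ (G.N w).erase x := by
    intro y hy
    rw [mem_inter] at hy
    rw [mem_erase]
    refine ⟨?_, hy.1⟩
    rintro rfl
    exact (mem_P G).1 hy.2 Q hQ hx
  have h2 := card_le_card h1
  rw [card_erase_of_mem (G.sym w x hwx)] at h2
  have : (G.N w).card = 6 := hl
  omega

/-- the cut argument -/
theorem key {Q : Finset V} {w w0 v1 v2 : V} (hO : G.Part O) (h : G.Al O Q w w0 v1 v2)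
    (T X : Finset V) (hT : T ⊆ {v1, v2})
    (hTN : ∀ x ∈ T, G.N x ⊆ {w, w0} ∪ ((G.N w ∪ G.N w0) ∩ G.P O))
    (hX : (G.N w0 ∩ G.P O) \ G.bd Q ⊆ {v1, v2} ∪ X)
    (hc : (X ∪ (({v1, v2} : Finset V) \ T)).card ≤ 1) : False := by
  have hQJ : Q ∈ G.J O w := by
    rw [h.jw]
    exact mem_singleton_self Q
  obtain ⟨hQ, hwQ⟩ := (mem_J G).1 hQJ
  have hw0Q : w0 ∈ G.bd Q := by
    have : Q ∈ G.J O w0 := by
      rw [h.jw0]
      exact mem_singleton_self Q
    exact ((mem_J G).1 this).2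
  set Z : Finset V := X ∪ (({v1, v2} : Finset V) \ T) with hZ
  set S : Finset V := Q ∪ ({w, w0} ∪ T) with hS
  have hww0 := (Al_low1 G h).2
  -- neighbours of `w` and `w0`
  have hNw : ∀ u ∈ G.N w, u ∉ S → u ∈ (G.bd Q \ {w, w0}) ∪ Z := by
    intro u hu huS
    rw [hS, mem_union, mem_union, not_or, not_or] at huS
    by_cases huP : u ∈ G.P O
    · by_cases huQ : u ∈ G.bd Q
      · exact mem_union_left _ (mem_sdiff.2 ⟨huQ, huS.2.1⟩)
      · have : u ∈ (G.N w ∩ G.P O) \ G.bd Q := mem_sdiff.2 ⟨mem_inter.2 ⟨hu, huP⟩, huQ⟩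
        rw [h.out] at this
        exact mem_union_right _ (mem_union_right _ (mem_sdiff.2 ⟨this, huS.2.2⟩))
    · rw [mem_P] at huP
      push Not at huP
      obtain ⟨Q', hQ', huQ'⟩ := huP
      have := J_of_adj G h.hw hQ' huQ' hu
      rw [h.jw, mem_singleton] at this
      subst this
      exact absurd huQ' huS.1
  have hNw0 : ∀ u ∈ G.N w0, u ∉ S → u ∈ (G.bd Q \ {w, w0}) ∪ Z := by
    intro u hu huS
    rw [hS, mem_union, mem_union, not_or, not_or] at huS
    by_cases huP : u ∈ G.P O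
    · by_cases huQ : u ∈ G.bd Q
      · exact mem_union_left _ (mem_sdiff.2 ⟨huQ, huS.2.1⟩)
      · have : u ∈ (G.N w0 ∩ G.P O) \ G.bd Q := mem_sdiff.2 ⟨mem_inter.2 ⟨hu, huP⟩, huQ⟩
        rcases mem_union.1 (hX this) with h1 | h1
        · exact mem_union_right _ (mem_union_right _ (mem_sdiff.2 ⟨h1, huS.2.2⟩))
        · exact mem_union_right _ (mem_union_left _ h1)
    · rw [mem_P] at huP
      push Not at huP
      obtain ⟨Q', hQ', huQ'⟩ := huP
      have := J_of_adj G h.hw0 hQ' huQ' hu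
      rw [h.jw0, mem_singleton] at this
      subst this
      exact absurd huQ' huS.1
  have hbd : G.bd S ⊆ (G.bd Q \ {w, w0}) ∪ Z := by
    intro u hu
    obtain ⟨⟨x, hx, hux⟩, huS⟩ := (mem_bd G).1 hu
    rcases mem_union.1 hx with hx | hx
    · have huS' := huS
      rw [hS, mem_union, mem_union, not_or, not_or] at huS'
      exact mem_union_left _ (mem_sdiff.2 ⟨(mem_bd G).2 ⟨⟨x, hx, hux⟩, huS'.1⟩, huS'.2.1⟩)
    · rcases mem_union.1 hx with hx | hx
      · rw [mem_insert, mem_singleton] at hx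
        rcases hx with rfl | rfl
        · exact hNw u hux huS
        · exact hNw0 u hux huS
      · have h1 := hTN x hx hux
        rcases mem_union.1 h1 with h1 | h1
        · exact absurd (mem_union_right _ (mem_union_left _ h1)) huS
        · rw [mem_inter, mem_union] at h1
          rcases h1.1 with h2 | h2
          · exact hNw u h2 huS
          · exact hNw0 u h2 huS
  have hcard : (G.bd S).card ≤ 5 := by
    have h1 := card_le_card hbd
    have h2 := card_union_le (G.bd Q \ {w, w0}) Z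
    have h3 : (G.bd Q \ {w, w0}).card = 4 := by
      have hsub : ({w, w0} : Finset V) ⊆ G.bd Q := by
        intro x hx
        rw [mem_insert, mem_singleton] at hx
        rcases hx with rfl | rfl
        · exact hwQ
        · exact hw0Q
      rw [card_sdiff_of_subset hsub, (hO.fam.1 Q hQ).2.1, card_pair hww0]
    omega
  -- the other side is small
  have hco : G.co Q ⊆ T ∪ Z := by
    intro c hc'
    unfold FG.co at hc'
    rw [mem_sdiff, mem_union, not_or] at hc'
    by_contra hn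
    rw [mem_union, not_or] at hn
    have hcS : c ∉ S := by
      rw [hS, mem_union, mem_union, not_or, not_or]
      refine ⟨hc'.2.1, ?_, hn.1⟩
      rw [mem_insert, mem_singleton, not_or]
      refine ⟨?_, ?_⟩
      · rintro rfl
        exact hc'.2.2 hwQ
      · rintro rfl
        exact hc'.2.2 hw0Q
    have h6 := G.conn S ⟨w, mem_union_right _ (mem_union_left _ (mem_insert_self _ _))⟩
      ⟨c, hcS, fun hcN => by
        have h1 : c ∈ G.bd S := by
          unfold FG.bd
          exact mem_sdiff.2 ⟨hcN, hcS⟩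
        rcases mem_union.1 (hbd h1) with h2 | h2
        · exact hc'.2.2 (mem_sdiff.1 h2).1
        · exact hn.2 h2⟩
    unfold FG.bd at hcard
    omega
  have h4 := hO.four Q hQ
  have h5 := card_le_card hco
  have h6 := card_union_le T Z
  have h7 := card_le_card hT
  have h8 : ({v1, v2} : Finset V).card ≤ 2 := card_le_two
  omega

end FG33

open FG33

/-- P5 -/
theorem stZ1 (G : FG V) : G.StZ1 := by
  intro O hO Q w w0 v1 v2 h hb
  obtain ⟨m1, m2, m3⟩ := Al_mem1 G h
  obtain ⟨n1, n2, n3⟩ := Al_mem1 G (Al_swap G h)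
  obtain ⟨hlow, hww0⟩ := Al_low1 G h
  have hbal := Al_bal1 G h
  have hc2 := card_le_card hlow
  rw [card_pair hww0] at hc2
  have hJ0 : (G.J O v1).card = 0 := by omega
  have hl2 : (G.lowN O v1).card = 2 := by omega
  have hJ : G.J O v1 = ∅ := card_eq_zero.1 hJ0
  have hlowE : G.lowN O v1 = {w, w0} :=
    (eq_of_subset_of_card_le hlow (by rw [hl2, card_pair hww0])).symm
  have hNP := N_sub_P G m2 hJ
  set S : Finset V := ((G.N w ∪ G.N w0) ∩ G.P O) \ {v1, w, w0} with hS
  have hsub : G.N v1 \ {w, w0} ⊆ S := by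
    intro y hy
    rw [mem_sdiff, mem_insert, mem_singleton, not_or] at hy
    obtain ⟨u, hu, hu1, hu2⟩ := hO.cov v1 m2 y (hNP hy.1) hy.1 (by
      rintro Q' hQ' ⟨h1, _⟩
      have : Q' ∈ G.J O v1 := (mem_J G).2 ⟨hQ', h1⟩
      rw [hJ] at this
      exact notMem_empty _ this)
    have huN : u ∈ G.N v1 := G.sym v1 u hu1
    have : u ∈ G.lowN O v1 := (mem_lowN G).2 ⟨huN, hNP huN, hu⟩
    rw [hlowE, mem_insert, mem_singleton] at this
    rw [hS, mem_sdiff, mem_inter, mem_union]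
    refine ⟨⟨?_, hNP hy.1⟩, ?_⟩
    · rcases this with rfl | rfl
      · exact Or.inl hu2
      · exact Or.inr hu2
    · rw [mem_insert, mem_insert, mem_singleton, not_or, not_or]
      refine ⟨?_, hy.2⟩
      rintro rfl
      exact G.irr y hy.1
  have h7 : 7 ≤ (G.N v1).card := by
    have := six_le G v1
    have : (G.N v1).card ≠ 6 := h.h1
    omega
  have h5 : 5 ≤ (G.N v1 \ {w, w0}).card := by
    have := le_card_sdiff ({w, w0} : Finset V) (G.N v1)
    rw [card_pair hww0] at this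
    omega
  -- the size of `S`
  set A : Finset V := (G.N w ∩ G.P O) \ {v1, w0} with hA
  set B : Finset V := (G.N w0 ∩ G.P O) \ {v1, w} with hB
  have hv1w0 : v1 ≠ w0 := by
    rintro rfl
    exact G.irr v1 h.a1
  have hv1w : v1 ≠ w := by
    rintro rfl
    exact G.irr v1 m1
  have hv2w0 : v2 ≠ w0 := by
    rintro rfl
    exact G.irr v2 h.a2
  have hv2w : v2 ≠ w := by
    rintro rfl
    exact G.irr v2 n1
  have hw0N : w ∈ G.N w0 := G.sym w0 w h.adj
  have hAc : A.card + 2 = (G.N w ∩ G.P O).card := by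
    have hs : ({v1, w0} : Finset V) ⊆ G.N w ∩ G.P O := by
      intro x hx
      rw [mem_insert, mem_singleton] at hx
      rcases hx with rfl | rfl
      · exact mem_inter.2 ⟨m1, m2⟩
      · exact mem_inter.2 ⟨h.adj, h.hw0⟩
    have h1 : A.card = _ := card_sdiff_of_subset hs
    have h2 := card_le_card hs
    rw [card_pair hv1w0] at h1 h2
    omega
  have hBc : B.card + 2 = (G.N w0 ∩ G.P O).card := by
    have hs : ({v1, w} : Finset V) ⊆ G.N w0 ∩ G.P O := by
      intro x hx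
      rw [mem_insert, mem_singleton] at hx
      rcases hx with rfl | rfl
      · exact mem_inter.2 ⟨h.a1, m2⟩
      · exact mem_inter.2 ⟨hw0N, h.hw⟩
    have h1 : B.card = _ := card_sdiff_of_subset hs
    have h2 := card_le_card hs
    rw [card_pair hv1w] at h1 h2
    omega
  have hSAB : S ⊆ A ∪ B := by
    intro x hx
    rw [hS, mem_sdiff, mem_inter, mem_union, mem_insert, mem_insert, mem_singleton, not_or,
      not_or] at hx
    rw [mem_union, hA, hB, mem_sdiff, mem_sdiff, mem_inter, mem_inter]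
    rcases hx.1.1 with h1 | h1
    · left
      refine ⟨⟨h1, hx.1.2⟩, ?_⟩
      rw [mem_insert, mem_singleton, not_or]
      exact ⟨hx.2.1, hx.2.2.2⟩
    · right
      refine ⟨⟨h1, hx.1.2⟩, ?_⟩
      rw [mem_insert, mem_singleton, not_or]
      exact ⟨hx.2.1, hx.2.2.1⟩
  have hAB : 1 ≤ (A ∩ B).card := by
    refine card_pos.2 ⟨v2, ?_⟩
    rw [mem_inter, hA, hB, mem_sdiff, mem_sdiff, mem_inter, mem_inter]
    refine ⟨⟨⟨n1, n2⟩, ?_⟩, ⟨h.a2, n2⟩, ?_⟩
    · rw [mem_insert, mem_singleton, not_or]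
      exact ⟨h.ne.symm, hv2w0⟩
    · rw [mem_insert, mem_singleton, not_or]
      exact ⟨h.ne.symm, hv2w⟩
  have hun := card_union_add_card_inter A B
  have hf1 := five G h.lw h.jw
  have hf2 := five G h.lw0 h.jw0
  have hSc := card_le_card hSAB
  have hSE : G.N v1 \ {w, w0} = S := eq_of_subset_of_card_le hsub (by omega)
  have hE5 : (G.N w0 ∩ G.P O).card = 5 := by
    have := card_le_card hsub
    omega
  have hsubN : ({w, w0} : Finset V) ⊆ G.N v1 := fun x hx => ((mem_lowN G).1 (hlow hx)).1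
  refine ⟨?_, hJ, hlowE, hE5, ?_⟩
  · intro y hy hyl
    rw [mem_inter] at hy
    by_contra hne
    have hyS : y ∈ S := by
      rw [hS, mem_sdiff, mem_inter, mem_union, mem_insert, mem_insert, mem_singleton, not_or,
        not_or]
      refine ⟨⟨Or.inr hy.1, hy.2⟩, ?_, hne, ?_⟩
      · rintro rfl
        exact h.h1 hyl
      · rintro rfl
        exact G.irr y hy.1
    rw [← hSE, mem_sdiff] at hyS
    have : y ∈ G.lowN O v1 := (mem_lowN G).2 ⟨hyS.1, hy.2, hyl⟩
    rw [hlowE] at this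
    exact hyS.2 this
  · rw [← hSE, union_sdiff_of_subset hsubN]

/-- neighbours of an outer neighbour without surplus -/
theorem FG33.N_sub (G : FG V) {O : Finset (Finset V)} (hO : G.Part O) {Q : Finset V}
    {w w0 v1 v2 : V} (h : G.Al O Q w w0 v1 v2) (hb : G.bal O v1 = 0) :
    G.N v1 ⊆ {w, w0} ∪ ((G.N w ∪ G.N w0) ∩ G.P O) := by
  obtain ⟨-, -, -, -, hE⟩ := stZ1 G O hO Q w w0 v1 v2 h hb
  rw [hE]
  exact union_subset_union_right sdiff_subset

/-- P6 -/
theorem stZ2 (G : FG V) : G.StZ2 := by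
  intro O hO Q w w0 v1 v2 h hb1 hb2
  obtain ⟨m1, m2, m3⟩ := Al_mem1 G h
  obtain ⟨n1, n2, n3⟩ := Al_mem1 G (Al_swap G h)
  obtain ⟨huniq, -, -, h5, -⟩ := stZ1 G O hO Q w w0 v1 v2 h hb1
  have hw0N : w ∈ G.N w0 := G.sym w0 w h.adj
  have hQJ : Q ∈ G.J O w0 := by
    rw [h.jw0]
    exact mem_singleton_self Q
  obtain ⟨hQ, hw0Q⟩ := (mem_J G).1 hQJ
  set X : Finset V := ((G.N w0 ∩ G.P O) \ G.bd Q) \ {v1, v2} with hX
  have hX2 : 2 ≤ X.card := by
    by_contra hn
    refine key G hO h {v1, v2} X (Subset.refl _) ?_ ?_ ?_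
    · intro x hx
      rw [mem_insert, mem_singleton] at hx
      rcases hx with rfl | rfl
      · exact FG33.N_sub G hO h hb1
      · exact FG33.N_sub G hO (Al_swap G h) hb2
    · intro x hx
      by_cases hxv : x ∈ ({v1, v2} : Finset V)
      · exact mem_union_left _ hxv
      · exact mem_union_right _ (mem_sdiff.2 ⟨hx, hxv⟩)
    · rw [sdiff_self, Finset.bot_eq_empty, union_empty]
      omega
  have hd : 4 ≤ ((G.N w0 ∩ G.P O) \ G.bd Q).card := by
    have hs : ({v1, v2} : Finset V) ⊆ (G.N w0 ∩ G.P O) \ G.bd Q := by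
      intro x hx
      rw [mem_insert, mem_singleton] at hx
      rcases hx with rfl | rfl
      · exact mem_sdiff.2 ⟨mem_inter.2 ⟨h.a1, m2⟩, m3⟩
      · exact mem_sdiff.2 ⟨mem_inter.2 ⟨h.a2, n2⟩, n3⟩
    have h1 : X.card = _ := card_sdiff_of_subset hs
    rw [card_pair h.ne] at h1
    omega
  have hlow : (G.lowN O w0).card = 1 := by
    have : G.lowN O w0 = {w} := by
      refine eq_singleton_iff_unique_mem.2 ⟨(mem_lowN G).2 ⟨hw0N, h.hw, h.lw⟩, fun y hy => ?_⟩
      obtain ⟨h1, h2, h3⟩ := (mem_lowN G).1 hy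
      exact huniq y (mem_inter.2 ⟨h1, h2⟩) h3
    rw [this, card_singleton]
  have hrcv : (G.rcv O w0).card ≤ 5 := by
    rw [← h5]
    unfold FG.rcv
    exact card_filter_le _ _
  have hcard : ((G.N w0 ∩ G.P O) \ G.bd Q).card + (G.N w0 ∩ G.bd Q).card = 5 := by
    have e : (G.N w0 ∩ G.P O) ∩ G.bd Q = G.N w0 ∩ G.bd Q := by
      ext x
      rw [mem_inter, mem_inter, mem_inter]
      constructor
      · rintro ⟨⟨h1, _⟩, h3⟩
        exact ⟨h1, h3⟩
      · rintro ⟨h1, h3⟩
        exact ⟨⟨h1, bd_sub_P G hO.fam hQ h3⟩, h3⟩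
    rw [← e, card_sdiff_add_card_inter, h5]
  unfold FG.bal FG.sup
  rw [if_pos h.lw0, h.jw0, sum_singleton, card_singleton, if_pos le_rfl, h5, hlow]
  push_cast
  omega

/-- P7 -/
theorem stZ3 (G : FG V) : G.StZ3 := by
  intro O hO Q w w0 v1 v2 h Q' u u1 u2 h'
  obtain ⟨m1, m2, m3⟩ := Al_mem1 G h
  obtain ⟨n1, n2, n3⟩ := Al_mem1 G (Al_swap G h)
  have hw0N : w ∈ G.N w0 := G.sym w0 w h.adj
  have hu : u = w := (h'.uniq w (mem_inter.2 ⟨hw0N, h.hw⟩) h.lw).symm
  have hQ : Q' = Q := by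
    have := h'.jw
    rw [h.jw0] at this
    exact (singleton_inj.1 this).symm
  subst hQ
  have hpair : ({u1, u2} : Finset V) = {v1, v2} := by
    symm
    rw [← h'.out]
    refine eq_of_subset_of_card_le ?_ ?_
    · intro x hx
      rw [mem_insert, mem_singleton] at hx
      rcases hx with rfl | rfl
      · exact mem_sdiff.2 ⟨mem_inter.2 ⟨h.a1, m2⟩, m3⟩
      · exact mem_sdiff.2 ⟨mem_inter.2 ⟨h.a2, n2⟩, n3⟩
    · rw [h'.out, card_pair h'.ne, card_pair h.ne]
  have hout : (G.N w0 ∩ G.P O) \ G.bd Q' = {v1, v2} := by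
    rw [h'.out, hpair]
  have hmain : ∀ x y : V, G.Al O Q' w w0 x y → (G.N w0 ∩ G.P O) \ G.bd Q' = {x, y} →
      1 ≤ G.bal O x := by
    intro x y hxy hxo
    by_contra hn
    have h1 := Al_bal1 G hxy
    have h2 := card_le_card (Al_low1 G hxy).1
    rw [card_pair (Al_low1 G hxy).2] at h2
    have hb : G.bal O x = 0 := by omega
    refine key G hO hxy {x} ∅ (singleton_subset_iff.2 (mem_insert_self _ _)) ?_ ?_ ?_
    · intro z hz
      rw [mem_singleton] at hz
      subst hz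
      exact FG33.N_sub G hO hxy hb
    · rw [hxo, union_empty]
    · rw [empty_union]
      have : ({x, y} : Finset V) \ {x} ⊆ {y} := by
        intro z hz
        rw [mem_sdiff, mem_insert, mem_singleton, mem_singleton] at hz
        rcases hz.1 with h3 | h3
        · exact absurd h3 hz.2
        · exact mem_singleton.2 h3
      have := card_le_card this
      rwa [card_singleton] at this
  refine ⟨hu, rfl, hpair, hmain v1 v2 h hout, hmain v2 v1 (Al_swap G h) ?_⟩
  rw [hout, pair_comm]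

end Pool.Agent.Lib.MP_e95c01_co.F
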