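import Pool.Agent.Lib.MP_e95c01_co.F.Fam_67

/-!
# Fragments with three vertices
-/

namespace Pool.Agent.Lib.MP_e95c01_co.F

open Finset

variable {V : Type} [Fintype V] [DecidableEq V]

namespace FG

theorem dc67 (G : FG V) (A B : Finset V) :
    ∑ w ∈ A, (G.N w ∩ B).card = ∑ b ∈ B, (G.N b ∩ A).card := by
  have h := sum_card_bipartiteAbove_eq_sum_card_bipartiteBelow (s := A) (t := B)
    (fun a b => b ∈ G.N a)
  have h1 : ∀ a ∈ A, (G.N a ∩ B).card = (bipartiteAbove (fun a b => b ∈ G.N a) B a).card := by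
    intro a _
    congr 1
    ext x
    simp only [bipartiteAbove, mem_inter, mem_filter]
    tauto
  have h2 : ∀ b ∈ B, (G.N b ∩ A).card = (bipartiteBelow (fun a b => b ∈ G.N a) A b).card := by
    intro b _
    congr 1
    ext x
    simp only [bipartiteBelow, mem_inter, mem_filter]
    constructor
    · rintro ⟨h, h'⟩
      exact ⟨h', G.sym _ _ h⟩
    · rintro ⟨h, h'⟩
      exact ⟨G.sym _ _ h', h⟩
  rw [sum_congr rfl h1, sum_congr rfl h2, h]

/-- three vertices of positive degree have degree sum at least four -/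
theorem four67 (G : FG V) {B : Finset V} (h3 : B.card = 3) (h : ∀ w ∈ B, 1 ≤ (G.N w ∩ B).card) :
    4 ≤ ∑ w ∈ B, (G.N w ∩ B).card := by
  classical
  by_contra hlt
  have hle : ∑ w ∈ B, (G.N w ∩ B).card ≤ ∑ w ∈ B, 1 := by
    rw [sum_const, h3, smul_eq_mul]
    omega
  have heq : ∀ w ∈ B, (G.N w ∩ B).card = 1 := by
    have h4 := (sum_eq_sum_iff_of_le h).1 (le_antisymm (sum_le_sum h) hle)
    exact fun w hw => (h4 w hw).symm
  obtain ⟨a, b, c, hab, hac, hbc, rfl⟩ := card_eq_three.1 h3
  have key : ∀ u ∈ ({a, b, c} : Finset V), ∀ v ∈ ({a, b, c} : Finset V),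
      ∀ w ∈ ({a, b, c} : Finset V), v ∈ G.N u → w ∈ G.N u → v = w := by
    intro u hu v hv w hw h1 h2
    exact card_le_one.1 (heq u hu).le v (mem_inter.2 ⟨h1, hv⟩) w (mem_inter.2 ⟨h2, hw⟩)
  have hex : ∀ u ∈ ({a, b, c} : Finset V), ∃ v ∈ ({a, b, c} : Finset V), v ∈ G.N u ∧ v ≠ u := by
    intro u hu
    obtain ⟨v, hv⟩ := card_pos.1 (h u hu)
    rw [mem_inter] at hv
    refine ⟨v, hv.2, hv.1, ?_⟩
    rintro rfl
    exact G.irr _ hv.1
  have ma : a ∈ ({a, b, c} : Finset V) := by simp
  have mb : b ∈ ({a, b, c} : Finset V) := by simp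
  have mc : c ∈ ({a, b, c} : Finset V) := by simp
  obtain ⟨v, hv, h1, h2⟩ := hex a ma
  simp only [mem_insert, mem_singleton] at hv
  rcases hv with rfl | rfl | rfl
  · exact h2 rfl
  · obtain ⟨w, hw, h5, h6⟩ := hex c mc
    simp only [mem_insert, mem_singleton] at hw
    rcases hw with rfl | rfl | rfl
    · exact hbc (key w ma v mb c mc h1 (G.sym _ _ h5))
    · exact hac (key w mb a ma c mc (G.sym _ _ h1) (G.sym _ _ h5))
    · exact h6 rfl
  · obtain ⟨w, hw, h5, h6⟩ := hex b mb
    simp only [mem_insert, mem_singleton] at hw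
    rcases hw with rfl | rfl | rfl
    · exact hbc (key w ma v mc b mb h1 (G.sym _ _ h5)).symm
    · exact h6 rfl
    · exact hab (key w mc a ma b mb (G.sym _ _ h1) (G.sym _ _ h5))

theorem stThree_67 (G : FG V) : G.StThree := by
  classical
  intro F hF hF3 hcov
  have hN : ∀ z ∈ F, ∀ v ∈ G.N z, v ∈ F ∨ v ∈ G.bd F := by
    intro z hz v hv
    by_cases h : v ∈ F
    · exact Or.inl h
    · exact Or.inr (mem_bd67.2 ⟨h, z, hz, hv⟩)
  have hFT : ∀ v ∈ F, v ∉ G.bd F := fun v hv h => (mem_bd67.1 h).1 hv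
  unfold Psi
  set T := G.bd F with hT
  set B := T.filter (fun v => G.Low v) with hB
  have hT6 : T.card = 6 := hF.2.1
  have hBT : B ⊆ T := filter_subset _ _
  have hmB : ∀ {w}, w ∈ B ↔ w ∈ T ∧ G.Low w := fun {w} => by rw [hB, mem_filter]
  have hq6 : B.card ≤ 6 := by rw [← hT6]; exact card_le_card hBT
  have hd1 : ∀ w ∈ T, 1 ≤ (G.N w ∩ F).card := by
    intro w hw
    obtain ⟨-, u, hu, h⟩ := mem_bd67.1 hw
    exact card_pos.2 ⟨u, mem_inter.2 ⟨G.sym _ _ h, hu⟩⟩
  -- covers
  have hcv : ∀ z ∈ F, ∀ t ∈ T, t ∈ G.N z → ∃ w, G.Low w ∧ w ∈ G.N z ∧ w ∈ G.N t ∧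
      (w ∈ F ∨ w ∈ B) := by
    intro z hz t ht h
    obtain ⟨w, h1, h2, h3⟩ := hcov z hz t ht h
    have h4 := G.sym _ _ h2
    refine ⟨w, h1, h4, G.sym _ _ h3, ?_⟩
    rcases hN z hz w h4 with h5 | h5
    · exact Or.inl h5
    · exact Or.inr (hmB.2 ⟨h5, h1⟩)
  have hterm : ∀ w ∈ B, (0 : ℤ) ≤ 2 * ((G.N w ∩ F).card : ℤ) + ((G.N w ∩ T).card : ℤ) - 3 := by
    intro w hw
    obtain ⟨hwT, hwL⟩ := hmB.1 hw
    have h1 := hd1 w hwT
    by_cases h2 : 2 ≤ (G.N w ∩ F).card
    · omega
    · obtain ⟨-, z, hz, hwz⟩ := mem_bd67.1 hwT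
      obtain ⟨u, -, h4, h5, h6⟩ := hcv z hz w hwT hwz
      have h7 : u ∈ T := by
        rcases h6 with h6 | h6
        · exfalso
          have : u = z := card_le_one.1 (by omega : (G.N w ∩ F).card ≤ 1) u
            (mem_inter.2 ⟨h5, h6⟩) z (mem_inter.2 ⟨G.sym _ _ hwz, hz⟩)
          rw [this] at h4
          exact G.irr _ h4
        · exact hBT h6
      have h8 : 1 ≤ (G.N w ∩ T).card := card_pos.2 ⟨u, mem_inter.2 ⟨h5, h7⟩⟩
      omega
  by_cases hp : 2 ≤ G.lo F
  · have h1 := sum_nonneg hterm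
    rw [hF3]
    omega
  have huq : ∀ u ∈ F, ∀ v ∈ F, G.Low u → G.Low v → u = v := by
    intro u hu v hv h1 h2
    exact card_le_one.1 (by unfold lo at hp; omega : (F.filter fun v => G.Low v).card ≤ 1) u
      (mem_filter.2 ⟨hu, h1⟩) v (mem_filter.2 ⟨hv, h2⟩)
  -- every vertex of `T` has a neighbour in `B`
  have hTB : ∀ t ∈ T, 1 ≤ (G.N t ∩ B).card := by
    intro t ht
    obtain ⟨-, z, hz, htz⟩ := mem_bd67.1 ht
    obtain ⟨u, h1, h2, h3, h4⟩ := hcv z hz t ht htz
    rcases h4 with h4 | h4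
    · obtain ⟨u', h5, h6, h7, h8⟩ := hcv u h4 t ht (G.sym _ _ h3)
      rcases h8 with h8 | h8
      · have := huq u h4 u' h8 h1 h5
        rw [← this] at h6
        exact absurd h6 (G.irr _)
      · exact card_pos.2 ⟨u', mem_inter.2 ⟨h7, h8⟩⟩
    · exact card_pos.2 ⟨u, mem_inter.2 ⟨h3, h4⟩⟩
  -- degrees of vertices of `F`
  have hdeg : ∀ z ∈ F, 6 ≤ (G.N z).card := by
    intro z hz
    obtain ⟨v, hv⟩ := hF.2.2
    have h1 : 6 ≤ (G.bd {z}).card := conn67 (singleton_nonempty z)
      ⟨v, co_anti67 (singleton_subset_iff.2 hz) hv⟩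
    refine h1.trans (card_le_card ?_)
    intro x hx
    obtain ⟨-, u, hu, hxu⟩ := mem_bd67.1 hx
    rw [mem_singleton.1 hu] at hxu
    exact hxu
  have hdT : ∀ z ∈ F, (G.N z).card ≤ (G.N z ∩ T).card + 2 := by
    intro z hz
    have h1 : G.N z ⊆ (G.N z ∩ T) ∪ F.erase z := by
      intro v hv
      rcases hN z hz v hv with h | h
      · refine mem_union_right _ (mem_erase.2 ⟨?_, h⟩)
        rintro rfl
        exact G.irr _ hv
      · exact mem_union_left _ (mem_inter.2 ⟨hv, h⟩)
    have h2 := (card_le_card h1).trans (card_union_le _ _)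
    rw [card_erase_of_mem hz, hF3] at h2
    omega
  -- a vertex of `F` which is not low misses at most one vertex of `T`
  have hmiss : ∀ z ∈ F, ¬ G.Low z → (T \ G.N z).card ≤ 1 := by
    intro z hz hl
    have h1 := hdeg z hz
    have h2 := hdT z hz
    have h3 : (G.N z).card ≠ 6 := hl
    have h4 := card_sdiff_add_card_inter T (G.N z)
    rw [inter_comm] at h4
    omega
  have hhigh : ∀ z ∈ F, ¬ G.Low z → B.card ≤ (G.N z ∩ B).card + 1 := by
    intro z hz hl
    have h1 := hmiss z hz hl
    have h2 := card_sdiff_add_card_inter B (G.N z)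
    have h3 : (B \ G.N z).card ≤ (T \ G.N z).card := card_le_card (sdiff_subset_sdiff hBT (le_refl _))
    rw [inter_comm] at h2
    omega
  -- two low neighbours in `B`
  have htwo : ∀ z ∈ F, (∀ u ∈ F, G.Low u → u = z) → 2 ≤ (G.N z ∩ B).card := by
    intro z hz hu
    have h1 := hdeg z hz
    have h2 := hdT z hz
    obtain ⟨t, ht⟩ := card_pos.1 (by omega : 0 < (G.N z ∩ T).card)
    rw [mem_inter] at ht
    have hgo : ∀ t ∈ T, t ∈ G.N z → ∃ w ∈ B, w ∈ G.N z ∧ w ∈ G.N t := by
      intro t ht htz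
      obtain ⟨w, h3, h4, h5, h6⟩ := hcv z hz t ht htz
      rcases h6 with h6 | h6
      · rw [hu w h6 h3] at h4
        exact absurd h4 (G.irr _)
      · exact ⟨w, h6, h4, h5⟩
    obtain ⟨w, hw, h3, -⟩ := hgo t ht.2 ht.1
    obtain ⟨w', hw', h4, h5⟩ := hgo w (hBT hw) h3
    have hne : w ≠ w' := by
      rintro rfl
      exact G.irr _ h5
    rw [← card_pair hne]
    apply card_le_card
    intro u hu
    rw [mem_insert, mem_singleton] at hu
    rcases hu with rfl | rfl
    · exact mem_inter.2 ⟨h3, hw⟩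
    · exact mem_inter.2 ⟨h4, hw'⟩
  -- sums
  have hsum : ∑ w ∈ B, (2 * ((G.N w ∩ F).card : ℤ) + ((G.N w ∩ T).card : ℤ) - 3) =
      2 * ((∑ z ∈ F, (G.N z ∩ B).card : ℕ) : ℤ) + ((∑ t ∈ T, (G.N t ∩ B).card : ℕ) : ℤ) -
        3 * (B.card : ℤ) := by
    rw [← dc67 G B F, ← dc67 G B T]
    push_cast
    rw [sum_sub_distrib, sum_add_distrib, ← mul_sum, sum_const, nsmul_eq_mul]
    ring
  rw [hsum, hF3]
  have hNT : 6 ≤ ∑ t ∈ T, (G.N t ∩ B).card := by
    have := sum_le_sum hTB
    rw [sum_const, hT6, smul_eq_mul] at this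
    omega
  set D := ∑ z ∈ F, (G.N z ∩ B).card with hD
  set M := ∑ t ∈ T, (G.N t ∩ B).card with hM
  rcases (by omega : G.lo F = 1 ∨ G.lo F = 0) with hp1 | hp0
  · -- one low vertex in `F`
    obtain ⟨u, hu⟩ := card_pos.1 (by unfold lo at hp1; omega : 0 < (F.filter fun v => G.Low v).card)
    rw [mem_filter] at hu
    have h1 := htwo u hu.1 fun v hv hl => huq v hv u hu.1 hl hu.2
    have h2 : D = (G.N u ∩ B).card + ∑ z ∈ F.erase u, (G.N z ∩ B).card :=
      (add_sum_erase F _ hu.1).symm
    have h3 : ∑ z ∈ F.erase u, (B.card - 1) ≤ ∑ z ∈ F.erase u, (G.N z ∩ B).card := by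
      apply sum_le_sum
      intro z hz
      rw [mem_erase] at hz
      have := hhigh z hz.2 fun hl => hz.1 (huq z hz.2 u hu.1 hl hu.2)
      omega
    rw [sum_const, card_erase_of_mem hu.1, hF3, smul_eq_mul] at h3
    have h4 : (G.N u ∩ B).card ≤ B.card := card_le_card inter_subset_right
    rw [hp1]
    push_cast
    omega
  · -- no low vertex in `F`
    have hno : ∀ z ∈ F, ¬ G.Low z := by
      intro z hz hl
      have : (F.filter fun v => G.Low v).card = 0 := hp0
      rw [card_eq_zero, filter_eq_empty_iff] at this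
      exact this hz hl
    have h2 : ∀ z ∈ F, 2 ≤ (G.N z ∩ B).card := fun z hz =>
      htwo z hz fun u hu hl => absurd hl (hno u hu)
    have h3 : ∀ z ∈ F, B.card - 1 ≤ (G.N z ∩ B).card := by
      intro z hz
      have := hhigh z hz (hno z hz)
      omega
    have hD6 : 6 ≤ D := by
      have := sum_le_sum h2
      rw [sum_const, hF3, smul_eq_mul] at this
      omega
    have hDq : 3 * (B.card - 1) ≤ D := by
      have := sum_le_sum h3
      rw [sum_const, hF3, smul_eq_mul] at this
      omega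
    have hq2 : 2 ≤ B.card := by
      obtain ⟨z, hz⟩ := hF.1
      exact (h2 z hz).trans (card_le_card inter_subset_right)
    rw [hp0]
    push_cast
    by_cases hq3 : B.card = 3
    swap
    · omega
    have hsplit : M = ∑ t ∈ B, (G.N t ∩ B).card + ∑ t ∈ T \ B, (G.N t ∩ B).card := by
      rw [hM, add_comm]
      exact (sum_sdiff hBT).symm
    have hTB3 : (T \ B).card = 3 := by
      rw [card_sdiff_of_subset hBT, hT6, hq3]
    have hBB : 4 ≤ ∑ t ∈ B, (G.N t ∩ B).card := four67 G hq3 fun w hw => hTB w (hBT hw)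
    by_cases hD7 : 7 ≤ D
    · have h5 : ∑ t ∈ T \ B, 1 ≤ ∑ t ∈ T \ B, (G.N t ∩ B).card :=
        sum_le_sum fun t ht => hTB t (mem_sdiff.1 ht).1
      rw [sum_const, hTB3, smul_eq_mul] at h5
      omega
    · -- all vertices of `F` have exactly two neighbours in `B`
      have heq : ∀ z ∈ F, (G.N z ∩ B).card = 2 := by
        have h4 : ∑ z ∈ F, 2 = ∑ z ∈ F, (G.N z ∩ B).card := by
          rw [sum_const, hF3, smul_eq_mul]
          omega
        have h5 := (sum_eq_sum_iff_of_le h2).1 h4
        exact fun w hw => (h5 w hw).symm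
      have hall : ∀ z ∈ F, ∀ t ∈ T, t ∉ B → t ∈ G.N z := by
        intro z hz t ht htB
        by_contra hn
        have h4 := hmiss z hz (hno z hz)
        have h5 := card_sdiff_add_card_inter B (G.N z)
        rw [inter_comm, heq z hz, hq3] at h5
        obtain ⟨b, hb⟩ := card_pos.1 (by omega : 0 < (B \ G.N z).card)
        rw [mem_sdiff] at hb
        have := card_le_one.1 h4 t (mem_sdiff.2 ⟨ht, hn⟩) b (mem_sdiff.2 ⟨hBT hb.1, hb.2⟩)
        rw [this] at htB
        exact htB hb.1
      have hcv' : ∀ z ∈ F, ∀ t ∈ T, t ∈ G.N z → ∃ w ∈ B, w ∈ G.N z ∧ w ∈ G.N t := by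
        intro z hz t ht htz
        obtain ⟨w, h3, h4, h5, h6⟩ := hcv z hz t ht htz
        rcases h6 with h6 | h6
        · exact absurd h3 (hno w h6)
        · exact ⟨w, h6, h4, h5⟩
      have h5 : ∑ t ∈ T \ B, 2 ≤ ∑ t ∈ T \ B, (G.N t ∩ B).card := by
        apply sum_le_sum
        intro t ht
        rw [mem_sdiff] at ht
        by_contra hlt
        have h1 := hTB t ht.1
        obtain ⟨w, hw⟩ := card_pos.1 h1
        have hw1 : ∀ w' ∈ B, w' ∈ G.N t → w' = w := by
          intro w' hw' h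
          exact card_le_one.1 (by omega : (G.N t ∩ B).card ≤ 1) w' (mem_inter.2 ⟨h, hw'⟩) w hw
        rw [mem_inter] at hw
        obtain ⟨hwt, hwB⟩ := hw
        have hwT := hBT hwB
        have hwF : w ∉ F := fun h => hFT w h hwT
        have hFw : ∀ z ∈ F, w ∈ G.N z := by
          intro z hz
          obtain ⟨w', h3, h4, h5⟩ := hcv' z hz t ht.1 (hall z hz t ht.1 ht.2)
          rw [← hw1 w' h3 h5]
          exact h4
        have hBw : ∀ w' ∈ B, w' ≠ w → w' ∈ G.N w := by
          intro w' hw' hne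
          obtain ⟨-, z, hz, hwz⟩ := mem_bd67.1 (hBT hw')
          obtain ⟨v, h3, h4, h5⟩ := hcv' z hz w' (hBT hw') hwz
          have hvw : v ≠ w' := by
            rintro rfl
            exact G.irr _ h5
          have h6 : G.N z ∩ B = {w', w} := by
            symm
            apply eq_of_subset_of_card_le
            · intro x hx
              rw [mem_insert, mem_singleton] at hx
              rcases hx with rfl | rfl
              · exact mem_inter.2 ⟨hwz, hw'⟩
              · exact mem_inter.2 ⟨hFw z hz, hwB⟩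
            · rw [heq z hz, card_pair hne]
          have h7 : v ∈ G.N z ∩ B := mem_inter.2 ⟨h4, h3⟩
          rw [h6, mem_insert, mem_singleton] at h7
          rcases h7 with h7 | h7
          · exact absurd h7 hvw
          · rw [h7] at h5
            exact G.sym _ _ h5
        have hset : F ∪ insert t (B.erase w) ⊆ G.N w := by
          intro x hx
          rw [mem_union, mem_insert, mem_erase] at hx
          rcases hx with h | rfl | ⟨h, h'⟩
          · exact G.sym _ _ (hFw x h)
          · exact G.sym _ _ hwt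
          · exact hBw x h' h
        have hdis : Disjoint F (insert t (B.erase w)) := by
          rw [disjoint_left]
          intro x hx h
          rcases mem_insert.1 h with h | h
          · exact hFT x hx (h ▸ ht.1)
          · exact hFT x hx (hBT (mem_erase.1 h).2)
        have hcard : (F ∪ insert t (B.erase w)).card = 6 := by
          rw [card_union_of_disjoint hdis, card_insert_of_notMem (fun h => ht.2 (mem_erase.1 h).2),
            card_erase_of_mem hwB, hF3, hq3]
        have hw6 : (G.N w).card = 6 := (hmB.1 hwB).2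
        have hNw : G.N w = F ∪ insert t (B.erase w) := by
          symm
          apply eq_of_subset_of_card_le hset
          rw [hcard, hw6]
        -- the boundary of `insert w F` has only five vertices
        have hsub : G.bd (insert w F) ⊆ T.erase w := by
          intro x hx
          obtain ⟨h3, u, hu, hxu⟩ := mem_bd67.1 hx
          rw [mem_insert, not_or] at h3
          refine mem_erase.2 ⟨h3.1, ?_⟩
          rcases mem_insert.1 hu with h | h
          · rw [h, hNw, mem_union, mem_insert, mem_erase] at hxu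
            rcases hxu with h4 | h4 | h4
            · exact absurd h4 h3.2
            · rw [h4]; exact ht.1
            · exact hBT h4.2
          · rcases hN u h x hxu with h4 | h4
            · exact absurd h4 h3.2
            · exact h4
        have hco : (G.co (insert w F)).Nonempty := by
          obtain ⟨v, hv⟩ := hF.2.2
          obtain ⟨hv1, hv2⟩ := mem_co67.1 hv
          refine ⟨v, mem_co67.2 ⟨?_, fun h => hv2 (mem_erase.1 (hsub h)).2⟩⟩
          rw [mem_insert, not_or]
          refine ⟨?_, hv1⟩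
          rintro rfl
          exact hv2 hwT
        have h8 := (conn67 (insert_nonempty w F) hco).trans (card_le_card hsub)
        rw [card_erase_of_mem hwT, hT6] at h8
        omega
      rw [sum_const, hTB3, smul_eq_mul] at h5
      omega

end FG

end Pool.Agent.Lib.MP_e95c01_co.F
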