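import Pool.Agent.Lib.MP_e95c01_co.F.StmtsT
import Pool.Agent.Lib.MP_e95c01_co.F.Fam_67
import Pool.Agent.Lib.MP_e95c01_co.N.Transfer53

/-!
# From graphs to `FG`
-/

namespace Pool.Agent.Lib.MP_e95c01_co.F

open Finset

/-- A 6-connected graph as an `FG`. -/
noncomputable def fg67 {V : Type} [Fintype V] [DecidableEq V] (G : SimpleGraph V)
    (hG : KConn 6 G) : FG V where
  N := (N.Transfer53.cg G hG).nb
  irr := (N.Transfer53.cg G hG).irr
  sym := fun u v h => (N.Transfer53.cg G hG).sym v u h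
  conn := by
    intro S hS hc
    refine (N.Transfer53.cg G hG).conn S (S.biUnion (N.Transfer53.cg G hG).nb \ S) hS
      disjoint_sdiff ?_ ?_
    · intro u hu x hx
      rw [mem_union, mem_sdiff, mem_biUnion]
      by_cases h : x ∈ S
      · exact Or.inl h
      · exact Or.inr ⟨⟨u, hu, hx⟩, h⟩
    · obtain ⟨v, hv1, hv2⟩ := hc
      refine ⟨v, ?_⟩
      rw [mem_union, mem_sdiff]
      tauto
  big := by
    have := hG.1
    rw [Nat.card_eq_fintype_card] at this
    omega

theorem mem_fg67 {V : Type} [Fintype V] [DecidableEq V] {G : SimpleGraph V}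
    (hG : KConn 6 G) {v x : V} : x ∈ (fg67 G hG).N v ↔ G.Adj v x :=
  N.Transfer53.cg_nb G hG v x

theorem low_fg67 {V : Type} [Fintype V] [DecidableEq V] {G : SimpleGraph V}
    (hG : KConn 6 G) {v : V} : (fg67 G hG).Low v ↔ (G.neighborSet v).ncard = 6 := by
  have h : ((fg67 G hG).N v).card = (G.neighborSet v).ncard := N.Transfer53.card_nbs G v
  unfold FG.Low
  rw [h]

theorem cov_fg67 {V : Type} [Fintype V] [DecidableEq V] {G : SimpleGraph V}
    (hG : KConn 6 G) {x y : V} : (fg67 G hG).Cov x y ↔ LowCov G x y := by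
  unfold FG.Cov LowCov
  simp only [mem_fg67, low_fg67]

theorem stTransfer_67 : StTransfer := by
  intro V _ _ G hG hn hp
  refine ⟨fg67 G hG.1, ⟨?_, ?_⟩, ?_⟩
  · intro x y hxy
    obtain ⟨E, hE, hx, hy⟩ := N.Transfer53.crit G hG (by rwa [Nat.card_eq_fintype_card]) x y hxy
    refine ⟨E, ⟨hE.1, hE.2.1, ?_⟩, hx, hy⟩
    obtain ⟨v, hv⟩ := hE.2.2
    refine ⟨v, ?_⟩
    unfold N.CG.Co at hv
    unfold FG.co
    rw [mem_compl] at hv
    exact mem_sdiff.2 ⟨mem_univ _, hv⟩
  · intro F x y hF hx hy hxy hnc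
    by_contra hlt
    obtain ⟨h1, h2⟩ := FG.mem_bd67.1 hx
    obtain ⟨h3, h4⟩ := FG.mem_bd67.1 hy
    have hpos := card_pos.2 hF.1
    rcases (by omega : F.card = 1 ∨ F.card = 2) with h | h
    · obtain ⟨w, rfl⟩ := card_eq_one.1 h
      apply hnc
      have h5 : (fg67 G hG.1).bd {w} = (fg67 G hG.1).N w := by
        ext v
        rw [FG.mem_bd67]
        simp only [mem_singleton, exists_eq_left]
        refine ⟨fun h => h.2, fun h => ⟨?_, h⟩⟩
        rintro rfl
        exact (fg67 G hG.1).irr _ h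
      have h6 := hF.2.1
      rw [h5] at h6 hx hy
      exact ⟨w, h6, hx, hy⟩
    · obtain ⟨a, b, hab, rfl⟩ := card_eq_two.1 h
      apply hnc
      rw [cov_fg67]
      have h5 : (((fg67 G hG.1).bd {a, b} : Finset V) : Set V) = nbd G a b := by
        ext v
        simp only [mem_coe, FG.mem_bd67, mem_insert, mem_singleton, exists_eq_or_imp,
          exists_eq_left, mem_fg67, nbd, Set.mem_ofPred_eq]
        tauto
      have h6 := hF.2.1
      rw [← Set.ncard_coe_finset, h5] at h6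
      have h7 : x ∈ nbd G a b := by rw [← h5]; exact hx
      have h8 : y ∈ nbd G a b := by rw [← h5]; exact hy
      refine hp a b hab h6 ?_ x h7 y h8 ((mem_fg67 hG.1).1 hxy)
      obtain ⟨v, hv⟩ := hF.2.2
      obtain ⟨hv1, hv2⟩ := FG.mem_co67.1 hv
      rw [mem_insert, mem_singleton, not_or] at hv1
      refine ⟨v, hv1.1, hv1.2, ?_⟩
      rw [← h5]
      exact hv2
  · rw [numDeg, FG.lo, ← Set.ncard_coe_finset]
    congr 1
    ext v
    simp [low_fg67]

theorem stSeven_67 : StSeven := by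
  intro V _ G hG h7
  rw [N.Transfer53.seven G hG (by omega), h7]

end Pool.Agent.Lib.MP_e95c01_co.F
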