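import Pool.Agent.Lib.MP_e95c01_co.F.Co_1
import Pool.Agent.Lib.MP_e95c01_co.F.StStar_1
import Pool.Agent.Lib.MP_e95c01_co.F.Lam_1
import Pool.Agent.Lib.MP_e95c01_co.F.Fam_67
import Pool.Agent.Lib.MP_e95c01_co.F.Main_67
import Pool.Agent.Lib.MP_e95c01_co.F.Three_67
import Pool.Agent.Lib.MP_e95c01_co.F.Transfer_67
import Pool.Agent.Lib.MP_e95c01_co.F.Ex_67
import Pool.Agent.Lib.MP_e95c01_co.F.StBal2_33
import Pool.Agent.Lib.MP_e95c01_co.F.StZ_33
import Pool.Agent.Lib.MP_e95c01_co.F.StCount_87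
import Pool.Agent.Lib.MP_e95c01_co.F.StPart_87
import Pool.Agent.Lib.MP_e95c01_co.F.StX1_87

/-!
# Assembly of Theorem (H)
-/

namespace Pool.Agent.Lib.MP_e95c01_co.F

open FG

variable {V : Type} [Fintype V] [DecidableEq V]

theorem stMain (G : FG V) : G.StMain :=
  stMain_67 G (stCo_1 G) (stAdd_1 G) (stStar_1 G (stCo_1 G))
    (stFam_67 G (stCo_1 G) (stUnc_1 G) (stTouch_1 G) (stStar_1 G (stCo_1 G))) (stLam_1 G)
    (stPart G (stBal_1 G) (stNeg' G) (stZ1 G) (stZ2 G) (stZ3 G) stCount) (stX1 G (stCo_1 G))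
    (stThree_67 G)

theorem stFin (G : FG V) : G.StFin := stFin_67 G (stCo_1 G) (stAdd_1 G) (stMain G)

/-- `3 n_6 ≥ n` for 6-contraction-critical graphs in which pairs cover nothing new -/
theorem bound (V : Type) [Finite V] (G : SimpleGraph V) (hG : Critical 6 G) (hp : PairsCov G) :
    Nat.card V ≤ 3 * numDeg 6 G := by
  classical
  have : Fintype V := Fintype.ofFinite V
  have h6 := hG.1.1
  rcases Nat.lt_or_ge (Nat.card V) 8 with h | h
  · have h7 : Nat.card V = 7 := by omega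
    rw [stSeven_67 V G hG.1 h7]
    omega
  · rw [Nat.card_eq_fintype_card] at h
    obtain ⟨H, hc, hl⟩ := stTransfer_67 V G hG h hp
    have := stFin H hc
    rw [hl] at this
    rw [Nat.card_eq_fintype_card]
    exact this

theorem pairsCov_ex : PairsCov (G6 3) := fun _ _ _ _ _ x _ y _ hxy => stEx_67 x y hxy

end Pool.Agent.Lib.MP_e95c01_co.F
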