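import Pool.Agent.Lib.MP_e95c01_co.F.Stmts

/-!
# Abstract counting (P8)
-/

namespace Pool.Agent.Lib.MP_e95c01_co.F

namespace Count87

variable {V : Type} [Fintype V] [DecidableEq V]

/-- what `v` pays to `w` (doubled) -/
def pay (bal : V → ℤ) (p e1 e2 : V → V) (v w : V) : ℤ :=
  if bal (e1 w) = 0 ∧ bal (e2 w) = 0 then (if v = p w then 2 else 0)
  else if bal (e1 w) = 0 then (if v = e2 w then 2 else 0)
  else if bal (e2 w) = 0 then (if v = e1 w then 2 else 0)
  else (if v = e1 w then 1 else 0) + (if v = e2 w then 1 else 0)

omit [Fintype V] [DecidableEq V] in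
theorem even_of_invol (H : Finset V) (p : V → V) (h1 : ∀ w ∈ H, p w ∈ H)
    (h2 : ∀ w ∈ H, p (p w) = w) (h3 : ∀ w ∈ H, p w ≠ w) : H.card % 2 = 0 := by
  have h : ∑ w ∈ H, (1 : ZMod 2) = 0 :=
    Finset.sum_involution (s := H) (f := fun _ => (1 : ZMod 2)) (fun w _ => p w)
      (fun _ _ => by decide) (fun w hw _ => h3 w hw) (fun w hw => h1 w hw)
      (fun w hw => h2 w hw)
  rw [Finset.sum_const, nsmul_eq_mul, mul_one, ZMod.natCast_eq_zero_iff] at h
  omega

end Count87

open Count87 in
theorem stCount : FG.StCount := by
  intro V _ _ P A bal L j p e1 e2 hAP h0 h1 hS hL hZ hZZ hM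
  classical
  -- every bad vertex is paid 2
  have hpaid : ∀ w ∈ A, ∑ v ∈ P \ A, pay bal p e1 e2 v w = 2 := by
    intro w hw
    obtain ⟨-, hne, hP1, hP2, hA1, hA2, hpP, -⟩ := h1 w hw
    have m1 : e1 w ∈ P \ A := Finset.mem_sdiff.2 ⟨hP1, hA1⟩
    have m2 : e2 w ∈ P \ A := Finset.mem_sdiff.2 ⟨hP2, hA2⟩
    unfold pay
    by_cases c1 : bal (e1 w) = 0
    · by_cases c2 : bal (e2 w) = 0
      · have m3 : p w ∈ P \ A := Finset.mem_sdiff.2 ⟨hpP, (hZ w hw (Or.inl c1)).1⟩
        simp [c1, c2, Finset.sum_ite_eq', m3]
      · simp [c1, c2, Finset.sum_ite_eq', m2]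
    · by_cases c2 : bal (e2 w) = 0
      · simp [c1, c2, Finset.sum_ite_eq', m1]
      · simp [c1, c2, Finset.sum_add_distrib, Finset.sum_ite_eq', m1, m2]
  -- nobody pays more than it has
  have hcan : ∀ v ∈ P \ A, ∑ w ∈ A, pay bal p e1 e2 v w ≤ 2 * bal v := by
    intro v hv
    obtain ⟨hvP, hvA⟩ := Finset.mem_sdiff.1 hv
    have hb0 := h0 v hvP hvA
    by_cases hE : ∃ w ∈ A, v = e1 w ∨ v = e2 w
    · obtain ⟨w0, hw0, hvw0⟩ := hE
      obtain ⟨-, -, hj, hbv⟩ := hL w0 hw0 v hvw0
      have hvp : ∀ w ∈ A, v ≠ p w := by
        intro w hw h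
        rcases hvw0 with h2 | h2
        · exact (hS w hw w0 hw0).1 (h.symm.trans h2)
        · exact (hS w hw w0 hw0).2 (h.symm.trans h2)
      by_cases hz : bal v = 0
      · apply le_of_eq
        rw [hz, mul_zero]
        apply Finset.sum_eq_zero
        intro w hw
        have hne := (h1 w hw).2.1
        unfold pay
        by_cases c1 : bal (e1 w) = 0
        · by_cases c2 : bal (e2 w) = 0
          · simp [c1, c2, hvp w hw]
          · have : v ≠ e2 w := fun h => c2 (h ▸ hz)
            simp [c1, c2, this]
        · have hv1 : v ≠ e1 w := fun h => c1 (h ▸ hz)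
          by_cases c2 : bal (e2 w) = 0
          · simp [c1, c2, hv1]
          · have hv2 : v ≠ e2 w := fun h => c2 (h ▸ hz)
            simp [c1, c2, hv1, hv2]
      · -- payer with positive balance
        set Fu : Finset V := A.filter fun w =>
          (v = e1 w ∧ bal (e2 w) = 0) ∨ (v = e2 w ∧ bal (e1 w) = 0) with hFu
        set Ha : Finset V := A.filter fun w =>
          (v = e1 w ∨ v = e2 w) ∧ bal (e1 w) ≠ 0 ∧ bal (e2 w) ≠ 0 with hHa
        have hsum : ∑ w ∈ A, pay bal p e1 e2 v w = 2 * (Fu.card : ℤ) + (Ha.card : ℤ) := by
          have : ∀ w ∈ A, pay bal p e1 e2 v w =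
              2 * (if ((v = e1 w ∧ bal (e2 w) = 0) ∨ (v = e2 w ∧ bal (e1 w) = 0)) then (1 : ℤ) else 0)
              + (if ((v = e1 w ∨ v = e2 w) ∧ bal (e1 w) ≠ 0 ∧ bal (e2 w) ≠ 0) then (1 : ℤ)
                else 0) := by
            intro w hw
            have hne := (h1 w hw).2.1
            unfold pay
            by_cases c1 : bal (e1 w) = 0
            · have hv1 : v ≠ e1 w := fun h => hz (h ▸ c1)
              by_cases c2 : bal (e2 w) = 0
              · have hv2 : v ≠ e2 w := fun h => hz (h ▸ c2)
                simp [c1, c2, hvp w hw, hv1, hv2]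
              · by_cases hv2 : v = e2 w
                · simp [c1, hv1, ← hv2, hz]
                · simp [c1, c2, hv1, hv2]
            · by_cases c2 : bal (e2 w) = 0
              · have hv2 : v ≠ e2 w := fun h => hz (h ▸ c2)
                by_cases hv1 : v = e1 w
                · simp [c2, hv2, ← hv1, hz]
                · simp [c1, c2, hv1, hv2]
              · by_cases hv1 : v = e1 w
                · have hv2 : v ≠ e2 w := fun h => hne (hv1.symm.trans h)
                  have c1' : bal v ≠ 0 := hz
                  simp [c1, c2, hv1, hne]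
                · by_cases hv2 : v = e2 w
                  · simp [c1, c2, hv2, hne.symm]
                  · simp [c1, c2, hv1, hv2]
          rw [Finset.sum_congr rfl this, Finset.sum_add_distrib, ← Finset.mul_sum,
            Finset.sum_boole, Finset.sum_boole]
        rw [hsum]
        -- facts on the two sets
        have hFuA : ∀ w ∈ Fu, w ∈ A ∧ (v = e1 w ∨ v = e2 w) ∧ p w ∉ A ∧
            ∀ w' ∈ A, p w' = p w → w' = w := by
          intro w hw
          rw [hFu, Finset.mem_filter] at hw
          obtain ⟨hwA, hc⟩ := hw
          rcases hc with ⟨hv1, hb⟩ | ⟨hv1, hb⟩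
          · exact ⟨hwA, Or.inl hv1, hZ w hwA (Or.inr hb)⟩
          · exact ⟨hwA, Or.inr hv1, hZ w hwA (Or.inl hb)⟩
        have hHaA : ∀ w ∈ Ha, w ∈ A ∧ (v = e1 w ∨ v = e2 w) := by
          intro w hw
          rw [hHa, Finset.mem_filter] at hw
          exact ⟨hw.1, hw.2.1⟩
        have hdisj : Disjoint Fu Ha := by
          rw [Finset.disjoint_left]
          intro w hw hw'
          rw [hFu, Finset.mem_filter] at hw
          rw [hHa, Finset.mem_filter] at hw'
          rcases hw.2 with h | h
          · exact hw'.2.2.2 h.2
          · exact hw'.2.2.1 h.2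
        have hinj : Set.InjOn p (Fu : Set V) := by
          intro w hw w' hw' h
          exact ((hFuA w hw).2.2.2 w' (hFuA w' hw').1 h.symm).symm
        have hcI : (Fu.image p).card = Fu.card := Finset.card_image_of_injOn hinj
        have hd2 : Disjoint (Fu ∪ Ha) (Fu.image p) := by
          rw [Finset.disjoint_left]
          intro w hw hw'
          rw [Finset.mem_image] at hw'
          obtain ⟨u, hu, rfl⟩ := hw'
          apply (hFuA u hu).2.2.1
          rcases Finset.mem_union.1 hw with h | h
          · exact (hFuA _ h).1
          · exact (hHaA _ h).1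
        have hsub : (Fu ∪ Ha) ∪ Fu.image p ⊆ L v := by
          intro w hw
          rcases Finset.mem_union.1 hw with h | h
          · rcases Finset.mem_union.1 h with h | h
            · exact (hL w (hFuA w h).1 v (hFuA w h).2.1).1
            · exact (hL w (hHaA w h).1 v (hHaA w h).2).1
          · rw [Finset.mem_image] at h
            obtain ⟨u, hu, rfl⟩ := h
            exact (hL u (hFuA u hu).1 v (hFuA u hu).2.1).2.1
        have hcard : ((Fu ∪ Ha) ∪ Fu.image p).card = 2 * Fu.card + Ha.card := by
          rw [Finset.card_union_of_disjoint hd2, Finset.card_union_of_disjoint hdisj, hcI]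
          ring
        have hle := Finset.card_le_card hsub
        rw [hcard] at hle
        have hkey : Ha.card % 2 = 1 → 2 * Fu.card + Ha.card + 1 ≤ (L v).card := by
          intro hodd
          -- some half vertex has a partner outside `A`
          obtain ⟨w, hw, hpw⟩ : ∃ w ∈ Ha, p w ∉ A := by
            by_contra hcon
            push Not at hcon
            have hmem : ∀ w ∈ Ha, p w ∈ Ha := by
              intro w hw
              have hwA := (hHaA w hw).1
              obtain ⟨hpp, hee⟩ := hM w hwA (hcon w hw)
              rw [hHa, Finset.mem_filter] at hw ⊢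
              have hvmem : v ∈ ({e1 (p w), e2 (p w)} : Finset V) := by
                rw [hee]
                rcases hw.2.1 with h | h <;> simp [← h]
              have hm1 : e1 (p w) ∈ ({e1 w, e2 w} : Finset V) := by rw [← hee]; simp
              have hm2 : e2 (p w) ∈ ({e1 w, e2 w} : Finset V) := by rw [← hee]; simp
              simp only [Finset.mem_insert, Finset.mem_singleton] at hvmem hm1 hm2
              refine ⟨hcon w ?_, hvmem, ?_, ?_⟩
              · rw [hHa, Finset.mem_filter]; exact hw
              · rcases hm1 with h | h <;> rw [h]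
                · exact hw.2.2.1
                · exact hw.2.2.2
              · rcases hm2 with h | h <;> rw [h]
                · exact hw.2.2.1
                · exact hw.2.2.2
            have := even_of_invol Ha p hmem (fun w hw => (hM w (hHaA w hw).1
              (hHaA _ (hmem w hw)).1).1) (fun w hw => (h1 w (hHaA w hw).1).2.2.2.2.2.2.2)
            omega
          have hnm : p w ∉ (Fu ∪ Ha) ∪ Fu.image p := by
            intro hmem
            rcases Finset.mem_union.1 hmem with h | h
            · rcases Finset.mem_union.1 h with h | h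
              · exact hpw (hFuA _ h).1
              · exact hpw (hHaA _ h).1
            · rw [Finset.mem_image] at h
              obtain ⟨u, hu, hpu⟩ := h
              have := (hFuA u hu).2.2.2 w (hHaA w hw).1 hpu.symm
              rw [this] at hw
              exact (Finset.disjoint_left.1 hdisj hu hw)
          have hins : insert (p w) ((Fu ∪ Ha) ∪ Fu.image p) ⊆ L v := by
            intro x hx
            rcases Finset.mem_insert.1 hx with h | h
            · rw [h]; exact (hL w (hHaA w hw).1 v (hHaA w hw).2).2.1
            · exact hsub h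
          have := Finset.card_le_card hins
          rw [Finset.card_insert_of_notMem hnm, hcard] at this
          exact this
        have hj' : (0 : ℤ) ≤ j v := by positivity
        have hb1 : 1 ≤ bal v := by omega
        rcases Nat.lt_or_ge (2 * Fu.card + Ha.card) 4 with hlt | hge
        · rcases Nat.lt_or_ge (2 * Fu.card + Ha.card) 3 with hlt3 | hge3
          · omega
          · have hodd : Ha.card % 2 = 1 := by omega
            have := hkey hodd
            omega
        · omega
    · push Not at hE
      by_cases hp : ∃ w ∈ A, v = p w ∧ bal (e1 w) = 0 ∧ bal (e2 w) = 0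
      · obtain ⟨w, hw, hvw, hb1, hb2⟩ := hp
        have huniq := (hZ w hw (Or.inl hb1)).2
        have hval := hZZ w hw hb1 hb2
        have : ∑ w' ∈ A, pay bal p e1 e2 v w' = pay bal p e1 e2 v w := by
          apply Finset.sum_eq_single_of_mem w hw
          intro w' hw' hne
          have h2 : v ≠ p w' := fun h => hne (huniq w' hw' (h.symm.trans hvw))
          have h3 := hE w' hw'
          unfold pay
          simp [h2, h3.1, h3.2]
        rw [this]
        unfold pay
        simp only [hb1, hb2, hvw, and_self, if_true]
        omega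
      · push Not at hp
        have : ∑ w' ∈ A, pay bal p e1 e2 v w' = 0 := by
          apply Finset.sum_eq_zero
          intro w' hw'
          have h3 := hE w' hw'
          have h4 := hp w' hw'
          unfold pay
          by_cases c : bal (e1 w') = 0 ∧ bal (e2 w') = 0
          · have h2 : v ≠ p w' := fun h => h4 h c.1 c.2
            simp [c, h2]
          · simp [h3.1, h3.2, c]
        rw [this]
        omega
  -- conclusion
  have hA : ∑ v ∈ A, bal v = -(A.card : ℤ) := by
    rw [Finset.sum_congr rfl fun w hw => (h1 w hw).1]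
    simp
  have htot : ∑ v ∈ P \ A, ∑ w ∈ A, pay bal p e1 e2 v w = 2 * (A.card : ℤ) := by
    rw [Finset.sum_comm, Finset.sum_congr rfl hpaid]
    simp [mul_comm]
  have hle := Finset.sum_le_sum hcan
  rw [htot, ← Finset.mul_sum] at hle
  have hsplit := Finset.sum_sdiff (f := bal) hAP
  omega

end Pool.Agent.Lib.MP_e95c01_co.F
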