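import Pool.Agent.Lib.MP_e95c01_co.F.Stmts

/-!
Modules P3 (StRec) and P4 (StNeg) of theorem (H), helper33.
-/

set_option autoImplicit false

namespace Pool.Agent.Lib.MP_e95c01_co.F

open Finset

variable {V : Type} [Fintype V] [DecidableEq V]

namespace FG33

variable (G : FG V) {O : Finset (Finset V)}

theorem mem_bd {S : Finset V} {v : V} : v ∈ G.bd S ↔ (∃ x ∈ S, v ∈ G.N x) ∧ v ∉ S := by
  unfold FG.bd
  rw [mem_sdiff, mem_biUnion]

theorem mem_P {v : V} : v ∈ G.P O ↔ ∀ Q ∈ O, v ∉ Q := by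
  unfold FG.P
  rw [mem_sdiff, mem_biUnion]
  simp

theorem mem_J {v : V} {Q : Finset V} : Q ∈ G.J O v ↔ Q ∈ O ∧ v ∈ G.bd Q := by
  unfold FG.J
  rw [mem_filter]

theorem mem_lowN {v y : V} : y ∈ G.lowN O v ↔ y ∈ G.N v ∧ y ∈ G.P O ∧ G.Low y := by
  unfold FG.lowN
  rw [mem_filter, mem_inter, and_assoc]

theorem mem_rcv {v y : V} : y ∈ G.rcv O v ↔ y ∈ G.N v ∧ y ∈ G.P O ∧ (G.J O y).card ≤ 1 := by
  unfold FG.rcv
  rw [mem_filter, mem_inter, and_assoc]

/-- a neighbour in a member of the family -/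
theorem J_of_adj {v y : V} {Q : Finset V} (hv : v ∈ G.P O) (hQ : Q ∈ O) (hy : y ∈ Q)
    (hyv : y ∈ G.N v) : Q ∈ G.J O v :=
  (mem_J G).2 ⟨hQ, (mem_bd G).2 ⟨⟨y, hy, G.sym y v hyv⟩, (mem_P G).1 hv Q hQ⟩⟩

theorem N_sub_P {v : V} (hv : v ∈ G.P O) (hJ : G.J O v = ∅) : G.N v ⊆ G.P O := by
  intro y hy
  rw [mem_P]
  intro Q hQ hyQ
  have := J_of_adj G hv hQ hyQ hy
  rw [hJ] at this
  exact absurd this (notMem_empty _)

theorem bd_sub_P (hF : G.Fam O) {Q : Finset V} (hQ : Q ∈ O) : G.bd Q ⊆ G.P O := by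
  intro v hv
  rw [mem_P]
  intro Q' hQ' hvQ'
  by_cases h : Q' = Q
  · subst h
    exact ((mem_bd G).1 hv).2 hvQ'
  · have := hF.2 Q' hQ' Q hQ h
    exact (disjoint_left.1 this) hvQ' (mem_union_right _ hv)

theorem six_le (v : V) : 6 ≤ (G.N v).card := by
  by_cases h : ∃ u, u ∉ ({v} : Finset V) ∧ u ∉ ({v} : Finset V).biUnion G.N
  · have := G.conn {v} (singleton_nonempty v) h
    rw [singleton_biUnion, sdiff_singleton_eq_erase, erase_eq_of_notMem (G.irr v)] at this
    exact this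
  · push Not at h
    have h1 : (univ : Finset V) ⊆ insert v (G.N v) := by
      intro u _
      by_cases hu : u = v
      · rw [hu]
        exact mem_insert_self _ _
      · have := h u (by simpa using hu)
        rw [singleton_biUnion] at this
        exact mem_insert_of_mem this
    have h2 := card_le_card h1
    have h3 := card_insert_le v (G.N v)
    have h4 := G.big
    rw [card_univ] at h2
    omega

/-- the low cover of an edge which leaves the boundary of `Q` -/
theorem cover {O : Finset (Finset V)} (hcov : G.CovP O) {Q : Finset V} {v y : V}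
    (hv : v ∈ G.P O) (hJ : G.J O v = {Q}) (hy : y ∈ G.P O) (hyv : y ∈ G.N v)
    (hyQ : y ∉ G.bd Q) : ∃ w, w ∈ G.P O ∧ G.Low w ∧ w ∈ G.N v ∧ y ∈ G.N w := by
  have hQ : ∀ Q' ∈ O, v ∈ G.bd Q' → Q' = Q := by
    intro Q' hQ' hb
    have : Q' ∈ G.J O v := (mem_J G).2 ⟨hQ', hb⟩
    rw [hJ] at this
    exact mem_singleton.1 this
  obtain ⟨w, hw, h1, h2⟩ := hcov v hv y hy hyv (by
    rintro Q' hQ' ⟨h1, h2⟩
    rw [hQ Q' hQ' h1] at h2
    exact hyQ h2)
  have hwv : w ∈ G.N v := G.sym v w h1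
  refine ⟨w, ?_, hw, hwv, h2⟩
  rw [mem_P]
  intro Q' hQ' hwQ'
  have h3 := J_of_adj G hv hQ' hwQ' hwv
  rw [hJ, mem_singleton] at h3
  subst h3
  exact hyQ ((mem_bd G).2 ⟨⟨w, hwQ', h2⟩, (mem_P G).1 hy Q' hQ'⟩)

end FG33

open FG33

/-- P3 -/
theorem stRec (G : FG V) : G.StRec := by
  intro O hO v hv
  have h6 := six_le G v
  refine ⟨h6, ?_, ?_⟩
  · intro hJ
    have hsub := N_sub_P G hv hJ
    have hno : ∀ y, ∀ Q ∈ O, ¬ (v ∈ G.bd Q ∧ y ∈ G.bd Q) := by
      rintro y Q hQ ⟨h1, _⟩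
      have : Q ∈ G.J O v := (mem_J G).2 ⟨hQ, h1⟩
      rw [hJ] at this
      exact notMem_empty _ this
    have hne : (G.N v).Nonempty := card_pos.1 (by omega)
    obtain ⟨y, hy⟩ := hne
    obtain ⟨w, hw, h1, _⟩ := hO.cov v hv y (hsub hy) hy (hno y)
    have hwv : w ∈ G.N v := G.sym v w h1
    obtain ⟨w', hw', h3, h4⟩ := hO.cov v hv w (hsub hwv) hwv (hno w)
    have hw'v : w' ∈ G.N v := G.sym v w' h3
    have hne : w ≠ w' := by
      rintro rfl
      exact G.irr w h4
    have hsub2 : ({w, w'} : Finset V) ⊆ G.lowN O v := by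
      intro x hx
      rw [mem_insert, mem_singleton] at hx
      rcases hx with rfl | rfl
      · exact (mem_lowN G).2 ⟨hwv, hsub hwv, hw⟩
      · exact (mem_lowN G).2 ⟨hw'v, hsub hw'v, hw'⟩
    have := card_le_card hsub2
    rwa [card_pair hne] at this
  · intro Q hJ
    have hQJ : Q ∈ G.J O v := by
      rw [hJ]
      exact mem_singleton_self Q
    obtain ⟨hQ, hvQ⟩ := (mem_J G).1 hQJ
    -- a neighbour outside of the boundary
    have hex : ∃ y, y ∈ G.N v ∧ y ∈ G.P O ∧ y ∉ G.bd Q := by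
      by_contra hn
      push Not at hn
      have hbd : G.bd (insert v Q) ⊆ (G.bd Q).erase v := by
        intro u hu
        obtain ⟨⟨x, hx, hux⟩, huS⟩ := (mem_bd G).1 hu
        rw [mem_insert, not_or] at huS
        rw [mem_erase]
        refine ⟨huS.1, ?_⟩
        rcases mem_insert.1 hx with rfl | hx
        · by_cases huP : u ∈ G.P O
          · exact hn u hux huP
          · rw [mem_P] at huP
            push Not at huP
            obtain ⟨Q', hQ', huQ'⟩ := huP
            have := J_of_adj G hv hQ' huQ' hux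
            rw [hJ, mem_singleton] at this
            subst this
            exact absurd huQ' huS.2
        · exact (mem_bd G).2 ⟨⟨x, hx, hux⟩, huS.2⟩
      have hc : (G.bd (insert v Q)).card ≤ 5 := by
        have := card_le_card hbd
        rw [card_erase_of_mem hvQ, (hO.fam.1 Q hQ).2.1] at this
        omega
      have h4 := hO.four Q hQ
      obtain ⟨c, hc'⟩ := card_pos.1 (show 0 < (G.co Q).card by omega)
      unfold FG.co at hc'
      rw [mem_sdiff, mem_union, not_or] at hc'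
      have hcS : c ∉ insert v Q := by
        rw [mem_insert, not_or]
        refine ⟨?_, hc'.2.1⟩
        rintro rfl
        exact hc'.2.2 hvQ
      have := G.conn (insert v Q) (insert_nonempty v Q) ⟨c, hcS, fun hcN => by
        have : c ∈ G.bd (insert v Q) := by
          unfold FG.bd
          exact mem_sdiff.2 ⟨hcN, hcS⟩
        exact hc'.2.2 (mem_of_mem_erase (hbd this))⟩
      unfold FG.bd at hc
      omega
    obtain ⟨y, hy, hyP, hyQ⟩ := hex
    obtain ⟨w, hwP, hw, hwv, _⟩ := cover G hO.cov hv hJ hyP hy hyQ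
    exact card_pos.2 ⟨w, (mem_lowN G).2 ⟨hwv, hwP, hw⟩⟩

/-- P4 -/
theorem stNeg (G : FG V) (hRec : G.StRec) (hB2 : G.StBal2) : G.StNeg := by
  intro O hO w hw
  obtain ⟨-, hr0, hr1⟩ := hRec O hO w hw
  rcases Nat.lt_or_ge 1 (G.J O w).card with h2 | h2
  · exact Or.inl (hB2 O hO w hw h2)
  have hJc : (G.J O w).card = 0 ∨ (G.J O w).card = 1 := by omega
  by_cases hl : G.Low w
  swap
  · left
    unfold FG.bal
    rw [if_neg hl, if_pos h2]
    rcases hJc with h | h
    · have := hr0 (card_eq_zero.1 h)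
      rw [h]
      push_cast
      omega
    · obtain ⟨Q, hQ⟩ := card_eq_one.1 h
      have := hr1 Q hQ
      rw [h]
      push_cast
      omega
  have hrcv : (G.rcv O w).card ≤ (G.N w ∩ G.P O).card := by
    unfold FG.rcv
    exact card_filter_le _ _
  rcases hJc with h | h
  · left
    have hJ := card_eq_zero.1 h
    have hs := hr0 hJ
    have e1 : G.N w ∩ G.P O = G.N w := inter_eq_left.2 (N_sub_P G hw hJ)
    have hl' : (G.N w).card = 6 := hl
    rw [e1, hl'] at hrcv
    unfold FG.bal FG.sup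
    rw [if_pos hl, if_pos h2, hJ, sum_empty, e1, hl', card_empty]
    push_cast
    omega
  · obtain ⟨Q, hJ⟩ := card_eq_one.1 h
    have hs := hr1 Q hJ
    have hQJ : Q ∈ G.J O w := by
      rw [hJ]
      exact mem_singleton_self Q
    obtain ⟨hQ, hwQ⟩ := (mem_J G).1 hQJ
    have hd := hO.pend Q hQ w hw hl hJ
    have hsubQ : G.N w ∩ G.bd Q ⊆ G.N w ∩ G.P O :=
      inter_subset_inter_left (bd_sub_P G hO.fam hQ)
    have hcard : ((G.N w ∩ G.P O) \ G.bd Q).card + (G.N w ∩ G.bd Q).card =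
        (G.N w ∩ G.P O).card := by
      have e : (G.N w ∩ G.P O) ∩ G.bd Q = G.N w ∩ G.bd Q := by
        ext x
        rw [mem_inter, mem_inter, mem_inter]
        constructor
        · rintro ⟨⟨h1, _⟩, h3⟩
          exact ⟨h1, h3⟩
        · rintro ⟨h1, h3⟩
          exact ⟨⟨h1, bd_sub_P G hO.fam hQ h3⟩, h3⟩
      rw [← e, card_sdiff_add_card_inter]
    have hbal : G.bal O w = ((G.N w ∩ G.P O).card : ℤ) - (G.rcv O w).card +
        (((G.N w ∩ G.P O) \ G.bd Q).card : ℤ) + (G.lowN O w).card - 4 := by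
      unfold FG.bal FG.sup
      rw [if_pos hl, if_pos h2, hJ, sum_singleton, card_singleton]
      have : ((G.N w ∩ G.P O).card : ℤ) = (((G.N w ∩ G.P O) \ G.bd Q).card : ℤ) +
          ((G.N w ∩ G.bd Q).card : ℤ) := by exact_mod_cast hcard.symm
      push_cast
      linarith
    by_cases hneg : 0 ≤ G.bal O w
    · exact Or.inl hneg
    right
    rw [hbal] at hneg
    have a1 : ((G.N w ∩ G.P O) \ G.bd Q).card = 2 := by omega
    have a2 : (G.lowN O w).card = 1 := by omega
    have a3 : (G.rcv O w).card = (G.N w ∩ G.P O).card := by omega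
    refine ⟨by rw [hbal, a1, a2, a3]; push_cast; ring, ?_⟩
    have hrcvE : G.rcv O w = G.N w ∩ G.P O := by
      refine eq_of_subset_of_card_le ?_ a3.ge
      unfold FG.rcv
      exact filter_subset _ _
    have hsmall : ∀ y ∈ G.N w ∩ G.P O, (G.J O y).card ≤ 1 := by
      intro y hy
      rw [← hrcvE] at hy
      exact ((mem_rcv G).1 hy).2.2
    obtain ⟨v1, v2, hne, hout⟩ := card_eq_two.1 a1
    obtain ⟨w0, hw0⟩ := card_eq_one.1 a2
    have hw0m : w0 ∈ G.lowN O w := by
      rw [hw0]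
      exact mem_singleton_self w0
    obtain ⟨b1, b2, b3⟩ := (mem_lowN G).1 hw0m
    have huniq : ∀ y ∈ G.N w ∩ G.P O, G.Low y → y = w0 := by
      intro y hy hyl
      have : y ∈ G.lowN O w := (mem_lowN G).2 ⟨(mem_inter.1 hy).1, (mem_inter.1 hy).2, hyl⟩
      rw [hw0] at this
      exact mem_singleton.1 this
    have hmem : ∀ x ∈ (G.N w ∩ G.P O) \ G.bd Q, x ∈ G.N w0 ∧ ¬ G.Low x ∧
        (G.J O x).card ≤ 1 := by
      intro x hx
      rw [mem_sdiff] at hx
      have hx1 := mem_inter.1 hx.1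
      obtain ⟨u, huP, hu, huw, hxu⟩ := cover G hO.cov hw hJ hx1.2 hx1.1 hx.2
      have : u = w0 := huniq u (mem_inter.2 ⟨huw, huP⟩) hu
      subst this
      refine ⟨hxu, fun hxl => ?_, hsmall x hx.1⟩
      have := huniq x hx.1 hxl
      subst this
      exact G.irr x hxu
    have hv1 : v1 ∈ (G.N w ∩ G.P O) \ G.bd Q := by
      rw [hout]
      exact mem_insert_self _ _
    have hv2 : v2 ∈ (G.N w ∩ G.P O) \ G.bd Q := by
      rw [hout]
      exact mem_insert_of_mem (mem_singleton_self _)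
    have hw0Q : w0 ∈ G.bd Q := by
      by_contra hn
      have : w0 ∈ (G.N w ∩ G.P O) \ G.bd Q := mem_sdiff.2 ⟨mem_inter.2 ⟨b1, b2⟩, hn⟩
      exact (hmem w0 this).2.1 b3
    have hjw0 : G.J O w0 = {Q} := by
      have h1 : Q ∈ G.J O w0 := (mem_J G).2 ⟨hQ, hw0Q⟩
      have h2 := hsmall w0 (mem_inter.2 ⟨b1, b2⟩)
      exact (eq_of_subset_of_card_le (singleton_subset_iff.2 h1)
        (by rw [card_singleton]; exact h2)).symm
    exact ⟨Q, w0, v1, v2,
      { hw := hw
        lw := hl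
        jw := hJ
        hw0 := b2
        lw0 := b3
        jw0 := hjw0
        adj := b1
        out := hout
        ne := hne
        a1 := (hmem v1 hv1).1
        a2 := (hmem v2 hv2).1
        h1 := (hmem v1 hv1).2.1
        h2 := (hmem v2 hv2).2.1
        j1 := (hmem v1 hv1).2.2
        j2 := (hmem v2 hv2).2.2
        uniq := huniq
        small := hsmall }⟩

end Pool.Agent.Lib.MP_e95c01_co.F
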