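import Pool.Agent.Lib.MP_e95c01_co.Basic

/-!
# Fragments of 6-connected graphs: definitions and statements of the modules
-/

namespace Pool.Agent.Lib.MP_e95c01_co.F

/-- A finite graph (`N v` = neighbours of `v`) in which every nonempty set `S` with a vertex outside
`S` and its boundary has at least six boundary vertices. -/
structure FG (V : Type) [Fintype V] [DecidableEq V] where
  N : V → Finset V
  irr : ∀ v, v ∉ N v
  sym : ∀ u v, u ∈ N v → v ∈ N u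
  conn : ∀ S : Finset V, S.Nonempty → (∃ v, v ∉ S ∧ v ∉ S.biUnion N) →
    6 ≤ (S.biUnion N \ S).card
  big : 7 ≤ Fintype.card V

variable {V : Type} [Fintype V] [DecidableEq V]

namespace FG

/-- boundary of `S` -/
def bd (G : FG V) (S : Finset V) : Finset V := S.biUnion G.N \ S

/-- the rest: vertices outside `S` and its boundary -/
def co (G : FG V) (S : Finset V) : Finset V := Finset.univ \ (S ∪ G.bd S)

/-- fragment -/
def Frag (G : FG V) (F : Finset V) : Prop :=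
  F.Nonempty ∧ (G.bd F).card = 6 ∧ (G.co F).Nonempty

/-- low vertex: degree 6 -/
def Low (G : FG V) (v : V) : Prop := (G.N v).card = 6

instance (G : FG V) : DecidablePred G.Low := fun v => by unfold Low; infer_instance

/-- `x`, `y` have a common low neighbour -/
def Cov (G : FG V) (x y : V) : Prop := ∃ w, G.Low w ∧ x ∈ G.N w ∧ y ∈ G.N w

/-- number of low vertices in `S` -/
def lo (G : FG V) (S : Finset V) : ℕ := (S.filter fun v => G.Low v).card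

/-- the functional -/
def Psi (G : FG V) (F : Finset V) : ℤ :=
  6 * (G.lo F : ℤ) - 2 * (F.card : ℤ) - 6 +
    ∑ w ∈ (G.bd F).filter (fun v => G.Low v),
      (2 * ((G.N w ∩ F).card : ℤ) + ((G.N w ∩ G.bd F).card : ℤ) - 3)

/-- the hypotheses on the graph: every edge lies in the boundary of a fragment; a fragment with an
edge in its boundary that has no low cover has at least three vertices -/
def Crit (G : FG V) : Prop :=
  (∀ x y, y ∈ G.N x → ∃ F, G.Frag F ∧ x ∈ G.bd F ∧ y ∈ G.bd F) ∧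
  ∀ F x y, G.Frag F → x ∈ G.bd F → y ∈ G.bd F → y ∈ G.N x → ¬ G.Cov x y → 3 ≤ F.card

/-- far fragments: disjoint, and no edge between them -/
def Far (G : FG V) (Q Q' : Finset V) : Prop := Disjoint Q (Q' ∪ G.bd Q')

/-- family of pairwise far fragments -/
def Fam (G : FG V) (O : Finset (Finset V)) : Prop :=
  (∀ Q ∈ O, G.Frag Q) ∧ ∀ Q ∈ O, ∀ Q' ∈ O, Q ≠ Q' → G.Far Q Q'

/-- the part left by a family -/
def P (_ : FG V) (O : Finset (Finset V)) : Finset V := Finset.univ \ O.biUnion id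

/-- the members of the family that have `v` in their boundary -/
def J (G : FG V) (O : Finset (Finset V)) (v : V) : Finset (Finset V) :=
  O.filter fun Q => v ∈ G.bd Q

/-- supply of a low vertex `w` of the part -/
def sup (G : FG V) (O : Finset (Finset V)) (w : V) : ℤ :=
  2 * ((G.N w ∩ G.P O).card : ℤ) - 6 + ∑ Q ∈ G.J O w, (3 - ((G.N w ∩ G.bd Q).card : ℤ))

/-- the local functional of the part -/
def Lam (G : FG V) (O : Finset (Finset V)) : ℤ :=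
  ∑ w ∈ (G.P O).filter (fun v => G.Low v), G.sup O w -
    ∑ v ∈ G.P O, (2 - ((G.J O v).card : ℤ))

/-- every edge of the part that is in no boundary of the family is low-covered -/
def CovP (G : FG V) (O : Finset (Finset V)) : Prop :=
  ∀ x ∈ G.P O, ∀ y ∈ G.P O, y ∈ G.N x → (∀ Q ∈ O, ¬ (x ∈ G.bd Q ∧ y ∈ G.bd Q)) → G.Cov x y

/-- a low vertex of exactly one boundary has at least two neighbours in the part outside of it -/
def NoPend (G : FG V) (O : Finset (Finset V)) : Prop :=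
  ∀ Q ∈ O, ∀ w ∈ G.P O, G.Low w → G.J O w = {Q} → 2 ≤ ((G.N w ∩ G.P O) \ G.bd Q).card

/-! ### Modules on fragments -/

/-- M1a: complements -/
def StCo (G : FG V) : Prop :=
  ∀ F, G.Frag F → G.Frag (G.co F) ∧ G.bd (G.co F) = G.bd F ∧ G.co (G.co F) = F

/-- M1b: both sides of a cut -/
def StAdd (G : FG V) : Prop :=
  ∀ F, G.Frag F → G.Psi F + G.Psi (G.co F) = 6 * (G.lo Finset.univ : ℤ) - 2 * Fintype.card V

/-- M1c: uncrossing -/
def StUnc (G : FG V) : Prop :=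
  ∀ A B, G.Frag A → G.Frag B → (A ∩ B).Nonempty → (G.co A ∩ G.co B).Nonempty →
    G.Frag (A ∩ B) ∧ G.Frag (A ∪ B) ∧
    G.bd (A ∩ B) = (A ∩ G.bd B) ∪ (G.bd A ∩ B) ∪ (G.bd A ∩ G.bd B) ∧
    G.bd (A ∪ B) = (G.bd A \ B) ∪ (G.bd B \ A)

/-- M1d: disjoint fragments which touch each other -/
def StTouch (G : FG V) : Prop :=
  ∀ X Y, G.Frag X → G.Frag Y → 3 ≤ X.card → 3 ≤ Y.card → Disjoint X Y → (X ∩ G.bd Y).Nonempty →
    (G.co X ∩ G.co Y).Nonempty →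
    (G.Frag (X \ G.bd Y) ∧ G.bd (X \ G.bd Y) = (X ∩ G.bd Y) ∪ (G.bd X \ Y)) ∨
    (G.Frag (X ∪ Y) ∧ G.bd (X ∪ Y) = (G.bd X \ Y) ∪ (G.bd Y \ X))

/-- M2: an uncovered edge at the fragment `F` lies in the boundary of a fragment inside `F` -/
def StStar (G : FG V) : Prop :=
  G.Crit → ∀ F x y, G.Frag F → 3 ≤ F.card → 3 ≤ (G.co F).card → x ∈ F → y ∈ G.N x →
    ¬ G.Cov x y →
    (∃ Q, G.Frag Q ∧ Q ⊂ F ∧ 3 ≤ Q.card ∧ x ∈ G.bd Q ∧ y ∈ G.bd Q) ∨ (F.card = 3 ∧ y ∈ F)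

/-- M3: the maximal family -/
def StFam (G : FG V) : Prop :=
  G.Crit → ∀ F, G.Frag F → 4 ≤ F.card → 3 ≤ (G.co F).card → ∃ O : Finset (Finset V),
    (∀ Q ∈ O, G.Frag Q ∧ Q ⊂ F ∧ 3 ≤ Q.card) ∧ G.Fam (insert (G.co F) O) ∧
    G.CovP (insert (G.co F) O) ∧
    (G.NoPend (insert (G.co F) O) ∨ ∃ Q y, O = {Q} ∧ y ∉ Q ∧ F = insert y Q)

/-- M4: the identity -/
def StLam (G : FG V) : Prop :=
  ∀ O, G.Fam O → G.Lam O = 6 * (G.lo Finset.univ : ℤ) - 2 * Fintype.card V - ∑ Q ∈ O, G.Psi Q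

/-- M5: the part lemma -/
def StPart (G : FG V) : Prop :=
  ∀ O : Finset (Finset V), O.Nonempty → G.Fam O → G.CovP O → G.NoPend O →
    (∀ Q ∈ O, 4 ≤ (G.co Q).card) → 0 ≤ G.Lam O

/-- M6: the exceptional part -/
def StX1 (G : FG V) : Prop :=
  ∀ Q y, G.Frag Q → y ∉ Q → G.Frag (insert y Q) → G.CovP {G.co (insert y Q), Q} →
    0 ≤ G.Lam {G.co (insert y Q), Q}

/-- M7: fragments with three vertices -/
def StThree (G : FG V) : Prop :=
  ∀ F, G.Frag F → F.card = 3 → (∀ x ∈ F, ∀ y ∈ G.bd F, y ∈ G.N x → G.Cov x y) → 0 ≤ G.Psi F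

/-- M8: the main lemma -/
def StMain (G : FG V) : Prop :=
  G.Crit → ∀ F, G.Frag F → 3 ≤ F.card → 3 ≤ (G.co F).card → 0 ≤ G.Psi F

/-- M9: the theorem -/
def StFin (G : FG V) : Prop := G.Crit → Fintype.card V ≤ 3 * G.lo Finset.univ

/-! ### The part lemma (M5) -/

/-- low neighbours in the part -/
def lowN (G : FG V) (O : Finset (Finset V)) (v : V) : Finset V :=
  (G.N v ∩ G.P O).filter fun y => G.Low y

/-- the neighbours in the part that receive something -/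
def rcv (G : FG V) (O : Finset (Finset V)) (w : V) : Finset V :=
  (G.N w ∩ G.P O).filter fun y => (G.J O y).card ≤ 1

/-- balance of a vertex of the part -/
def bal (G : FG V) (O : Finset (Finset V)) (v : V) : ℤ :=
  (if G.Low v then G.sup O v - ((G.rcv O v).card : ℤ) else 0) +
    (if (G.J O v).card ≤ 1 then ((G.lowN O v).card : ℤ) else 0) - 2 + ((G.J O v).card : ℤ)

/-- the hypotheses of the part lemma -/
structure Part (G : FG V) (O : Finset (Finset V)) : Prop where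
  ne : O.Nonempty
  fam : G.Fam O
  cov : G.CovP O
  pend : G.NoPend O
  four : ∀ Q ∈ O, 4 ≤ (G.co Q).card

/-- P1: sum of the balances -/
def StBal (G : FG V) : Prop := ∀ O, G.Lam O = ∑ v ∈ G.P O, G.bal O v

/-- P2: at least two boundaries -/
def StBal2 (G : FG V) : Prop := ∀ O, G.Part O → ∀ v ∈ G.P O, 2 ≤ (G.J O v).card → 0 ≤ G.bal O v

/-- P3: covering gives low neighbours -/
def StRec (G : FG V) : Prop := ∀ O, G.Part O → ∀ v ∈ G.P O,
  6 ≤ (G.N v).card ∧ (G.J O v = ∅ → 2 ≤ (G.lowN O v).card) ∧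
  ∀ Q, G.J O v = {Q} → 1 ≤ (G.lowN O v).card

/-- the bad configuration: `w` low with unique low neighbour `w0` in the part, both only in the
boundary of `Q`, and `w` has exactly the neighbours `v1`, `v2` outside of this boundary -/
structure Al (G : FG V) (O : Finset (Finset V)) (Q : Finset V) (w w0 v1 v2 : V) : Prop where
  hw : w ∈ G.P O
  lw : G.Low w
  jw : G.J O w = {Q}
  hw0 : w0 ∈ G.P O
  lw0 : G.Low w0
  jw0 : G.J O w0 = {Q}
  adj : w0 ∈ G.N w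
  out : (G.N w ∩ G.P O) \ G.bd Q = {v1, v2}
  ne : v1 ≠ v2
  a1 : v1 ∈ G.N w0
  a2 : v2 ∈ G.N w0
  h1 : ¬ G.Low v1
  h2 : ¬ G.Low v2
  j1 : (G.J O v1).card ≤ 1
  j2 : (G.J O v2).card ≤ 1
  uniq : ∀ y ∈ G.N w ∩ G.P O, G.Low y → y = w0
  small : ∀ y ∈ G.N w ∩ G.P O, (G.J O y).card ≤ 1

/-- P4: the only negative balances -/
def StNeg (G : FG V) : Prop := ∀ O, G.Part O → ∀ w ∈ G.P O,
  0 ≤ G.bal O w ∨ (G.bal O w = -1 ∧ ∃ Q w0 v1 v2, G.Al O Q w w0 v1 v2)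

/-- P5: an outer neighbour without surplus -/
def StZ1 (G : FG V) : Prop := ∀ O, G.Part O → ∀ Q w w0 v1 v2, G.Al O Q w w0 v1 v2 →
  G.bal O v1 = 0 → (∀ y ∈ G.N w0 ∩ G.P O, G.Low y → y = w) ∧ G.J O v1 = ∅ ∧
  G.lowN O v1 = {w, w0} ∧ (G.N w0 ∩ G.P O).card = 5 ∧
  G.N v1 = {w, w0} ∪ (((G.N w ∪ G.N w0) ∩ G.P O) \ {v1, w, w0})

/-- P6: both outer neighbours without surplus -/
def StZ2 (G : FG V) : Prop := ∀ O, G.Part O → ∀ Q w w0 v1 v2, G.Al O Q w w0 v1 v2 →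
  G.bal O v1 = 0 → G.bal O v2 = 0 → 1 ≤ G.bal O w0

/-- P7: two bad vertices which are partners -/
def StZ3 (G : FG V) : Prop := ∀ O, G.Part O → ∀ Q w w0 v1 v2, G.Al O Q w w0 v1 v2 →
  ∀ Q' u u1 u2, G.Al O Q' w0 u u1 u2 → u = w ∧ Q' = Q ∧ ({u1, u2} : Finset V) = {v1, v2} ∧
    1 ≤ G.bal O v1 ∧ 1 ≤ G.bal O v2

/-- P8: abstract counting. `A` = bad vertices, `p` = partner, `e1`, `e2` = outer neighbours, `L v` =
low neighbours of `v` -/
def StCount : Prop := ∀ (V : Type) [Fintype V] [DecidableEq V] (P A : Finset V) (bal : V → ℤ)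
  (L : V → Finset V) (j : V → ℕ) (p e1 e2 : V → V),
  A ⊆ P →
  (∀ v ∈ P, v ∉ A → 0 ≤ bal v) →
  (∀ w ∈ A, bal w = -1 ∧ e1 w ≠ e2 w ∧ e1 w ∈ P ∧ e2 w ∈ P ∧ e1 w ∉ A ∧ e2 w ∉ A ∧ p w ∈ P ∧
    p w ≠ w) →
  (∀ w ∈ A, ∀ w' ∈ A, p w ≠ e1 w' ∧ p w ≠ e2 w') →
  (∀ w ∈ A, ∀ v, v = e1 w ∨ v = e2 w → w ∈ L v ∧ p w ∈ L v ∧ j v ≤ 1 ∧
    bal v = ((L v).card : ℤ) - 2 + j v) →
  (∀ w ∈ A, bal (e1 w) = 0 ∨ bal (e2 w) = 0 → p w ∉ A ∧ ∀ w' ∈ A, p w' = p w → w' = w) →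
  (∀ w ∈ A, bal (e1 w) = 0 → bal (e2 w) = 0 → 1 ≤ bal (p w)) →
  (∀ w ∈ A, p w ∈ A → p (p w) = w ∧ ({e1 (p w), e2 (p w)} : Finset V) = {e1 w, e2 w}) →
  0 ≤ ∑ v ∈ P, bal v

end FG

end Pool.Agent.Lib.MP_e95c01_co.F
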