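import Pool.Agent.Lib.MP_e95c01_co.Six
import Pool.Agent.Lib.MP_e95c01_co.F.Stmts

/-!
# From graphs to `FG`: statements
-/

namespace Pool.Agent.Lib.MP_e95c01_co.F

/-- `x` and `y` have a common neighbour of degree 6. -/
def LowCov {V : Type} (G : SimpleGraph V) (x y : V) : Prop :=
  ∃ w, (G.neighborSet w).ncard = 6 ∧ G.Adj w x ∧ G.Adj w y

/-- The neighbours of the pair `a`, `b` outside of the pair. -/
def nbd {V : Type} (G : SimpleGraph V) (a b : V) : Set V :=
  {v | v ≠ a ∧ v ≠ b ∧ (G.Adj a v ∨ G.Adj b v)}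

/-- If two vertices `a`, `b` have exactly six outside neighbours, and there is a further vertex, then
the ends of every edge between these six vertices have a common neighbour of degree 6. -/
def PairsCov {V : Type} (G : SimpleGraph V) : Prop :=
  ∀ a b, a ≠ b → (nbd G a b).ncard = 6 → (∃ v, v ≠ a ∧ v ≠ b ∧ v ∉ nbd G a b) →
    ∀ x ∈ nbd G a b, ∀ y ∈ nbd G a b, G.Adj x y → LowCov G x y

/-- M10: transfer -/
def StTransfer : Prop := ∀ (V : Type) [Fintype V] [DecidableEq V] (G : SimpleGraph V),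
  Critical 6 G → 8 ≤ Fintype.card V → PairsCov G →
  ∃ H : FG V, H.Crit ∧ H.lo Finset.univ = numDeg 6 G

/-- M10b: seven vertices -/
def StSeven : Prop := ∀ (V : Type) [Finite V] (G : SimpleGraph V),
  KConn 6 G → Nat.card V = 7 → numDeg 6 G = 7

/-- M11: the example with nine vertices -/
def StEx : Prop := ∀ x y, (G6 3).Adj x y → LowCov (G6 3) x y

end Pool.Agent.Lib.MP_e95c01_co.F
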