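import Pool.Agent.Lib.MP_e95c01_co.F.Co_1

/-!
# Theorem (H): module StX1
-/

namespace Pool.Agent.Lib.MP_e95c01_co.F

variable {V : Type} [Fintype V] [DecidableEq V]

namespace X1

open Finset S1 C1

omit [Fintype V] in
theorem card_inter_insert (A C : Finset V) (s : V) (hs : s ∉ C) :
    ((A ∩ insert s C).card : ℤ) = ((A ∩ C).card : ℤ) + if s ∈ A then 1 else 0 := by
  by_cases h : s ∈ A
  · rw [if_pos h, inter_insert_of_mem h, card_insert_of_notMem]
    · push_cast
      ring
    · exact fun hc => hs (mem_inter.1 hc).2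
  · rw [if_neg h, inter_insert_of_notMem h, add_zero]

theorem six_le (G : FG V) (v : V) : 6 ≤ (G.N v).card := by
  by_cases h : ∃ u, u ∉ ({v} : Finset V) ∧ u ∉ ({v} : Finset V).biUnion G.N
  · have := G.conn {v} (singleton_nonempty v) h
    rw [singleton_biUnion, sdiff_singleton_eq_erase, erase_eq_of_notMem (G.irr v)] at this
    exact this
  · push Not at h
    have h1 : (univ : Finset V) ⊆ insert v (G.N v) := by
      intro u _
      by_cases hu : u = v
      · rw [hu]
        exact mem_insert_self _ _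
      · have := h u (by simpa using hu)
        rw [singleton_biUnion] at this
        exact mem_insert_of_mem this
    have h2 := card_le_card h1
    have h3 := card_insert_le v (G.N v)
    have h4 := G.big
    rw [card_univ] at h2
    omega

theorem stX1 (G : FG V) : G.StX1 := by
  intro Q y hQ hy hF hcov
  have hbc : G.bd (G.co (insert y Q)) = G.bd (insert y Q) := (stCo G _ hF).2.1
  have hcoQ : ∀ v ∈ G.co (insert y Q), v ∉ Q := by
    intro v hv hvQ
    exact ((mem_co G _ _).1 hv).1 (mem_insert_of_mem hvQ)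
  have hne : G.co (insert y Q) ≠ Q := by
    intro he
    obtain ⟨v, hv⟩ := hQ.1
    exact hcoQ v (by rw [he]; exact hv) hv
  have hyF : y ∉ G.bd (insert y Q) := fun h => ((mem_bd G _ _).1 h).2 (mem_insert_self _ _)
  have hP : G.P {G.co (insert y Q), Q} = insert y (G.bd (insert y Q)) := by
    ext v
    unfold FG.P
    simp only [mem_sdiff, mem_univ, true_and, mem_biUnion, mem_insert, mem_singleton, id,
      exists_eq_or_imp, exists_eq_left, not_or, mem_co]
    constructor
    · rintro ⟨h1, h2⟩
      by_contra hc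
      rw [not_or] at hc
      exact h1 ⟨⟨hc.1, h2⟩, hc.2⟩
    · rintro (rfl | h)
      · exact ⟨fun h => h.1.1 rfl, hy⟩
      · refine ⟨fun h' => h'.2 h, fun h' => ?_⟩
        exact ((mem_bd G _ _).1 h).2 (mem_insert_of_mem h')
  have hJ : ∀ (v : V) (f : Finset V → ℤ), ∑ R ∈ G.J {G.co (insert y Q), Q} v, f R =
      (if v ∈ G.bd (insert y Q) then f (G.co (insert y Q)) else 0) +
        (if v ∈ G.bd Q then f Q else 0) := by
    intro v f
    unfold FG.J
    rw [sum_filter, sum_pair hne, hbc]
  have hJc : ∀ v : V, ((G.J {G.co (insert y Q), Q} v).card : ℤ) =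
      (if v ∈ G.bd (insert y Q) then 1 else 0) + (if v ∈ G.bd Q then 1 else 0) := by
    intro v
    have := hJ v (fun _ => 1)
    rw [sum_const, nsmul_eq_mul, mul_one] at this
    exact this
  have hsup : ∀ w : V, G.sup {G.co (insert y Q), Q} w =
      2 * ((G.N w ∩ insert y (G.bd (insert y Q))).card : ℤ) - 6 +
      ((if w ∈ G.bd (insert y Q) then 3 - ((G.N w ∩ G.bd (insert y Q)).card : ℤ) else 0) +
        (if w ∈ G.bd Q then 3 - ((G.N w ∩ G.bd Q).card : ℤ) else 0)) := by
    intro w
    unfold FG.sup
    rw [hP, hJ w, hbc]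
  -- it is enough to find one low vertex with supply at least 2
  have key : (∀ w ∈ insert y (G.bd (insert y Q)), G.Low w →
      0 ≤ G.sup {G.co (insert y Q), Q} w) →
      (∃ w ∈ insert y (G.bd (insert y Q)), G.Low w ∧ 2 ≤ G.sup {G.co (insert y Q), Q} w) →
      ∑ v ∈ insert y (G.bd (insert y Q)),
        (2 - ((G.J {G.co (insert y Q), Q} v).card : ℤ)) = 2 →
      0 ≤ G.Lam {G.co (insert y Q), Q} := by
    rintro h1 ⟨w, hw, hl, h2⟩ h3
    unfold FG.Lam
    rw [hP, h3]
    have h4 : G.sup {G.co (insert y Q), Q} w ≤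
        ∑ w ∈ (insert y (G.bd (insert y Q))).filter (fun v => G.Low v),
          G.sup {G.co (insert y Q), Q} w :=
      single_le_sum (f := fun w => G.sup {G.co (insert y Q), Q} w)
        (fun i hi => h1 i (mem_filter.1 hi).1 (mem_filter.1 hi).2)
        (mem_filter.2 ⟨hw, hl⟩)
    linarith
  have hF6 := hF.2.1
  have hQ6 := hQ.2.1
  have hbQ : G.bd Q ⊆ insert y (G.bd (insert y Q)) := by
    intro v hv
    rw [mem_bd] at hv
    rw [mem_insert]
    by_cases h : v = y
    · exact Or.inl h
    · refine Or.inr ((mem_bd G _ _).2 ⟨?_, ?_⟩)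
      · obtain ⟨u, hu, huv⟩ := hv.1
        exact ⟨u, mem_insert_of_mem hu, huv⟩
      · rw [mem_insert, not_or]
        exact ⟨h, hv.2⟩
  by_cases hyQ : y ∈ G.bd Q
  · -- second case
    have hC : G.bd (insert y Q) ∩ G.bd Q = (G.bd Q).erase y := by
      ext v
      rw [mem_inter, mem_erase]
      constructor
      · rintro ⟨h1, h2⟩
        exact ⟨fun h => hyF (h ▸ h1), h2⟩
      · rintro ⟨h1, h2⟩
        refine ⟨?_, h2⟩
        have := hbQ h2
        rw [mem_insert] at this
        exact this.resolve_left h1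
    have hC5 : (G.bd (insert y Q) ∩ G.bd Q).card = 5 := by
      rw [hC, card_erase_of_mem hyQ, hQ6]
    have h1 := card_sdiff_add_card_inter (G.bd (insert y Q)) (G.bd Q)
    have h2 : (G.bd (insert y Q) \ G.bd Q).card = 1 := by omega
    obtain ⟨s, hs⟩ := card_eq_one.1 h2
    have hsF : s ∈ G.bd (insert y Q) \ G.bd Q := by rw [hs]; exact mem_singleton_self s
    rw [mem_sdiff] at hsF
    obtain ⟨hsF, hsQ⟩ := hsF
    set C := G.bd (insert y Q) ∩ G.bd Q with hCdef
    have hsC : s ∉ C := fun h => hsQ (mem_inter.1 h).2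
    have hyC : y ∉ C := fun h => hyF (mem_inter.1 h).1
    have eF : G.bd (insert y Q) = insert s C := by
      ext v
      rw [mem_insert, hCdef, mem_inter]
      constructor
      · intro h
        by_cases h' : v ∈ G.bd Q
        · exact Or.inr ⟨h, h'⟩
        · left
          have : v ∈ G.bd (insert y Q) \ G.bd Q := mem_sdiff.2 ⟨h, h'⟩
          rw [hs, mem_singleton] at this
          exact this
      · rintro (rfl | h)
        · exact hsF
        · exact h.1
    have eQ : G.bd Q = insert y C := by
      rw [hC, insert_erase hyQ]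
    have hsy : s ≠ y := fun h => hyF (h ▸ hsF)
    have hsyN : s ∈ G.N y := by
      obtain ⟨⟨u, hu, hus⟩, h'⟩ := (mem_bd G _ _).1 hsF
      rw [mem_insert] at hu h'
      rw [not_or] at h'
      rcases hu with rfl | hu
      · exact hus
      · exact absurd ((mem_bd G Q s).2 ⟨⟨u, hu, hus⟩, h'.2⟩) hsQ
    -- the cover of the edge
    obtain ⟨w, hwl, hwy, hws⟩ := hcov y (by rw [hP]; exact mem_insert_self _ _) s
      (by rw [hP]; exact mem_insert_of_mem hsF) hsyN (by
        intro R hR
        rw [mem_insert, mem_singleton] at hR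
        rcases hR with rfl | rfl
        · rw [hbc]
          exact fun h => hyF h.1
        · exact fun h => hsQ h.2)
    have hwC : w ∈ C := by
      have hwP : w ∈ insert y (G.bd (insert y Q)) := by
        rw [← hP]
        unfold FG.P
        simp only [mem_sdiff, mem_univ, true_and, mem_biUnion, mem_insert, mem_singleton, id,
          exists_eq_or_imp, exists_eq_left, not_or]
        refine ⟨fun h => ?_, fun h => ?_⟩
        · have : y ∈ G.bd (G.co (insert y Q)) :=
            (mem_bd G _ _).2 ⟨⟨w, h, hwy⟩, fun h' => ((mem_co G _ _).1 h').1 (mem_insert_self _ _)⟩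
          rw [hbc] at this
          exact hyF this
        · have : s ∉ Q := fun h' => ((mem_bd G _ _).1 hsF).2 (mem_insert_of_mem h')
          exact hsQ ((mem_bd G _ _).2 ⟨⟨w, h, hws⟩, this⟩)
      rw [eF, mem_insert, mem_insert] at hwP
      rcases hwP with rfl | rfl | h
      · exact absurd hwy (G.irr _)
      · exact absurd hws (G.irr _)
      · exact h
    have iF : ∀ v, v ∈ G.bd (insert y Q) ↔ v = s ∨ v ∈ C := by
      intro v
      rw [eF, mem_insert]
    have iQ : ∀ v, v ∈ G.bd Q ↔ v = y ∨ v ∈ C := by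
      intro v
      rw [eQ, mem_insert]
    have hyC' : y ∉ insert s C := by
      rw [mem_insert, not_or]
      exact ⟨fun h => hsy h.symm, hyC⟩
    have n1 : ∀ v, ((G.N v ∩ insert y (G.bd (insert y Q))).card : ℤ) = ((G.N v ∩ C).card : ℤ) +
        (if s ∈ G.N v then 1 else 0) + (if y ∈ G.N v then 1 else 0) := by
      intro v
      rw [eF, card_inter_insert _ _ _ hyC', card_inter_insert _ _ _ hsC]
    have n2 : ∀ v, ((G.N v ∩ G.bd (insert y Q)).card : ℤ) = ((G.N v ∩ C).card : ℤ) +
        (if s ∈ G.N v then 1 else 0) := by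
      intro v
      rw [eF, card_inter_insert _ _ _ hsC]
    have n3 : ∀ v, ((G.N v ∩ G.bd Q).card : ℤ) = ((G.N v ∩ C).card : ℤ) +
        (if y ∈ G.N v then 1 else 0) := by
      intro v
      rw [eQ, card_inter_insert _ _ _ hyC]
    have supC : ∀ v ∈ C, G.sup {G.co (insert y Q), Q} v =
        (if s ∈ G.N v then 1 else 0) + (if y ∈ G.N v then 1 else 0) := by
      intro v hv
      rw [hsup, if_pos ((iF v).2 (Or.inr hv)), if_pos ((iQ v).2 (Or.inr hv)), n1, n2, n3]
      ring
    have hyN : y ∈ G.N s := G.sym _ _ hsyN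
    have cy : (1 : ℤ) ≤ ((G.N y ∩ C).card : ℤ) := by
      have : 0 < (G.N y ∩ C).card := card_pos.2 ⟨w, mem_inter.2 ⟨G.sym _ _ hwy, hwC⟩⟩
      exact_mod_cast this
    have cs : (1 : ℤ) ≤ ((G.N s ∩ C).card : ℤ) := by
      have : 0 < (G.N s ∩ C).card := card_pos.2 ⟨w, mem_inter.2 ⟨G.sym _ _ hws, hwC⟩⟩
      exact_mod_cast this
    have supy : G.sup {G.co (insert y Q), Q} y = ((G.N y ∩ C).card : ℤ) - 1 := by
      rw [hsup, if_neg hyF, if_pos hyQ, n1, n3, if_pos hsyN, if_neg (G.irr y)]
      ring
    have sups : G.sup {G.co (insert y Q), Q} s = ((G.N s ∩ C).card : ℤ) - 1 := by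
      rw [hsup, if_pos hsF, if_neg hsQ, n1, n2, if_pos hyN, if_neg (G.irr s)]
      ring
    apply key
    · intro v hv _
      rw [eF, mem_insert, mem_insert] at hv
      rcases hv with rfl | rfl | h
      · rw [supy]
        linarith
      · rw [sups]
        linarith
      · rw [supC v h]
        split_ifs <;> norm_num
    · refine ⟨w, by rw [eF]; exact mem_insert_of_mem (mem_insert_of_mem hwC), hwl, ?_⟩
      rw [supC w hwC, if_pos hws, if_pos hwy]
      norm_num
    · rw [eF, sum_insert hyC', sum_insert hsC, hJc, hJc, if_neg hyF, if_pos hyQ, if_pos hsF,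
        if_neg hsQ]
      have : ∀ v ∈ C, (2 : ℤ) - ((G.J {G.co (insert y Q), Q} v).card : ℤ) = 0 := by
        intro v hv
        rw [hJc, if_pos ((iF v).2 (Or.inr hv)), if_pos ((iQ v).2 (Or.inr hv))]
        norm_num
      rw [sum_congr rfl this, sum_const_zero]
      norm_num
  · -- first case
    have eQ : G.bd Q = G.bd (insert y Q) := by
      refine eq_of_subset_of_card_le ?_ (by omega)
      intro v hv
      have := hbQ hv
      rw [mem_insert] at this
      rcases this with rfl | h
      · exact absurd hv hyQ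
      · exact h
    have hNy : G.N y ⊆ G.bd (insert y Q) := by
      intro v hv
      refine (mem_bd G _ _).2 ⟨⟨y, mem_insert_self _ _, hv⟩, ?_⟩
      rw [mem_insert, not_or]
      refine ⟨fun h => G.irr y (h ▸ hv), fun h => ?_⟩
      exact hyQ ((mem_bd G _ _).2 ⟨⟨v, h, G.sym _ _ hv⟩, hy⟩)
    have h6 := six_le G y
    have hNe : G.N y = G.bd (insert y Q) := eq_of_subset_of_card_le hNy (by omega)
    have hly : G.Low y := by
      show (G.N y).card = 6
      rw [hNe]
      exact hF6
    apply key
    · intro v hv _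
      rw [mem_insert] at hv
      rcases hv with rfl | h
      · rw [hsup, if_neg hyF, if_neg hyQ]
        have : G.N v ∩ insert v (G.bd (insert v Q)) = G.N v :=
          inter_eq_left.2 (hNy.trans (subset_insert _ _))
        rw [this]
        have : (6 : ℤ) ≤ ((G.N v).card : ℤ) := by exact_mod_cast h6
        linarith
      · rw [hsup, if_pos h, if_pos (by rw [eQ]; exact h), eQ]
        have : ((G.N v ∩ G.bd (insert y Q)).card : ℤ) ≤
            ((G.N v ∩ insert y (G.bd (insert y Q))).card : ℤ) := by
          exact_mod_cast card_le_card (inter_subset_inter_left (subset_insert _ _))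
        linarith
    · refine ⟨y, mem_insert_self _ _, hly, ?_⟩
      rw [hsup, if_neg hyF, if_neg hyQ]
      have : G.N y ∩ insert y (G.bd (insert y Q)) = G.N y :=
        inter_eq_left.2 (hNy.trans (subset_insert _ _))
      rw [this]
      have : (6 : ℤ) ≤ ((G.N y).card : ℤ) := by exact_mod_cast h6
      linarith
    · rw [sum_insert hyF, hJc, if_neg hyF, if_neg hyQ]
      have : ∀ v ∈ G.bd (insert y Q), (2 : ℤ) - ((G.J {G.co (insert y Q), Q} v).card : ℤ) = 0 := by
        intro v hv
        rw [hJc, if_pos hv, if_pos (by rw [eQ]; exact hv)]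
        norm_num
      rw [sum_congr rfl this, sum_const_zero]
      norm_num

end X1

/-- M6 -/
theorem stX1_1 (G : FG V) : G.StX1 := X1.stX1 G

end Pool.Agent.Lib.MP_e95c01_co.F
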